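import Pool.Agent.H805R3.Kk.Main

set_option autoImplicit false

/-!
Versions of the area inequality and of the integrated line estimate for maps that are differentiable
within each piece of a countable partition of the set of parameters.
-/

open MeasureTheory Set Filter Topology ENNReal NNReal Metric

namespace Pool.Agent.H805R3.Kk

open Pool.Agent.H803R2.Kak Pool.Agent.H803R2.KakFTO

section area

variable {E : Type*} [NormedAddCommGroup E] [NormedSpace ℝ E] [FiniteDimensional ℝ E]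
  [MeasurableSpace E] [BorelSpace E] (μ : Measure E) [μ.IsAddHaarMeasure]

/-- Partition into pieces of injectivity. -/
theorem exists_inj_partition {φ : E → E} {φ' : E → E →L[ℝ] E} {s : Set E}
    (hs : MeasurableSet s) (hφ : ∀ x ∈ s, HasFDerivWithinAt φ (φ' x) s x)
    (hdet : ∀ x ∈ s, (φ' x).det ≠ 0) :
    ∃ V : ℕ → Set E, (∀ n, MeasurableSet (V n)) ∧ Pairwise (Function.onFun Disjoint V) ∧
      (⋃ n, V n) = s ∧ ∀ n, InjOn φ (V n) := by
  classical
  rcases s.eq_empty_or_nonempty with he | hne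
  · refine ⟨fun _ => ∅, fun _ => MeasurableSet.empty, ?_, ?_, fun _ => by simp⟩
    · intro i j _; simp [Function.onFun]
    · simp [he]
  let r : (E →L[ℝ] E) → ℝ≥0 := fun A =>
    if h : A.det ≠ 0 then
      (if Subsingleton E then 1 else ‖((A.toContinuousLinearEquivOfDetNeZero h).symm : E →L[ℝ] E)‖₊⁻¹ / 2)
    else 1
  have hr : ∀ A, r A ≠ 0 := by
    intro A
    simp only [r]
    split_ifs with h1 h2
    · exact one_ne_zero
    · have hne : Nontrivial E := not_subsingleton_iff_nontrivial.1 h2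
      have : 0 < ‖((A.toContinuousLinearEquivOfDetNeZero h1).symm : E →L[ℝ] E)‖₊ := by
        have := (A.toContinuousLinearEquivOfDetNeZero h1).symm.norm_pos
        exact_mod_cast this
      positivity
    · exact one_ne_zero
  obtain ⟨t, A, hdisj, htm, hcov, happ, hA⟩ :=
    exists_partition_approximatesLinearOn_of_hasFDerivWithinAt φ s φ' hφ r hr
  have hinj : ∀ n, InjOn φ (s ∩ t n) := by
    intro n
    obtain ⟨y, hy, hAy⟩ := hA hne n
    have hdy : (A n).det ≠ 0 := by rw [hAy]; exact hdet y hy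
    have happn := happ n
    set e := (A n).toContinuousLinearEquivOfDetNeZero hdy with he
    have hcoe : (e : E →L[ℝ] E) = A n := by
      ext x; simp [he]
    have h1 : ApproximatesLinearOn φ (e : E →L[ℝ] E) (s ∩ t n) (r (A n)) := by
      rw [hcoe]; exact happn
    refine h1.injOn ?_
    by_cases hsub : Subsingleton E
    · exact Or.inl hsub
    · right
      have hne' : Nontrivial E := not_subsingleton_iff_nontrivial.1 hsub
      have hpos : 0 < ‖(e.symm : E →L[ℝ] E)‖₊ := by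
        have := e.symm.norm_pos
        exact_mod_cast this
      have : r (A n) = ‖(e.symm : E →L[ℝ] E)‖₊⁻¹ / 2 := by
        simp only [r, dif_pos hdy, if_neg hsub, he]
      rw [this]
      exact NNReal.half_lt_self (by positivity)
  refine ⟨fun n => s ∩ t n, fun n => hs.inter (htm n), ?_, ?_, hinj⟩
  · intro i j hij
    exact Set.disjoint_left.2 fun x hx hx' => (Set.disjoint_left.1 (hdisj hij)) hx.2 hx'.2
  · rw [← inter_iUnion]
    exact inter_eq_left.2 hcov

/-- Counting lemma: pieces of injectivity. -/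
theorem count_le {ι : Type*} [Countable ι] {φ : E → E} {φ' : E → E →L[ℝ] E} {V : ι → Set E}
    {U : Set E} {N : ℕ} (hVm : ∀ i, MeasurableSet (V i)) (hVd : Pairwise (Function.onFun Disjoint V))
    (hinj : ∀ i, InjOn φ (V i)) (hφ : ∀ i, ∀ x ∈ V i, HasFDerivWithinAt φ (φ' x) (V i) x)
    (hU : MeasurableSet U) (hVU : ∀ i, ∀ x ∈ V i, φ x ∈ U)
    (hN : ∀ᵐ y ∂μ, {x | (∃ i, x ∈ V i) ∧ φ x = y}.encard ≤ N) :
    ∫⁻ x in ⋃ i, V i, ENNReal.ofReal |(φ' x).det| ∂μ ≤ N * μ U := by
  classical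
  rw [lintegral_iUnion hVm hVd]
  have himg : ∀ n, ∫⁻ x in V n, ENNReal.ofReal |(φ' x).det| ∂μ = μ (φ '' V n) := by
    intro n
    exact lintegral_abs_det_fderiv_eq_addHaar_image μ (hVm n) (hφ n) (hinj n)
  have himgm : ∀ n, MeasurableSet (φ '' V n) := by
    intro n
    exact measurable_image_of_fderivWithin (hVm n) (hφ n) (hinj n)
  calc ∑' n, ∫⁻ x in V n, ENNReal.ofReal |(φ' x).det| ∂μ
      = ∑' n, μ (φ '' V n) := by simp_rw [himg]
    _ = ∑' n, ∫⁻ y, (φ '' V n).indicator (fun _ => (1:ℝ≥0∞)) y ∂μ := by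
        congr 1; ext n; rw [lintegral_indicator_const (himgm n), one_mul]
    _ = ∫⁻ y, ∑' n, (φ '' V n).indicator (fun _ => (1:ℝ≥0∞)) y ∂μ := by
        rw [lintegral_tsum]
        intro n
        exact (measurable_const.indicator (himgm n)).aemeasurable
    _ ≤ ∫⁻ y, U.indicator (fun _ => (N:ℝ≥0∞)) y ∂μ := by
        apply lintegral_mono_ae
        filter_upwards [hN] with y hNy
        by_cases hy : y ∈ U
        · rw [indicator_of_mem hy]
          show ∑' n, (φ '' V n).indicator (fun _ => (1:ℝ≥0∞)) y ≤ N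
          rw [ENNReal.tsum_eq_iSup_sum]
          apply iSup_le
          intro S
          have hsum : ∑ n ∈ S, (φ '' V n).indicator (fun _ => (1:ℝ≥0∞)) y
              = ((S.filter (fun n => y ∈ φ '' V n)).card : ℝ≥0∞) := by
            rw [Finset.card_filter]
            push_cast
            apply Finset.sum_congr rfl
            intro n _
            by_cases h : y ∈ φ '' V n
            · simp [h]
            · simp [h]
          rw [hsum]
          have hcard : ((S.filter (fun n => y ∈ φ '' V n)).card : ℕ∞) ≤ N := by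
            refine le_trans ?_ hNy
            have hex : ∃ z : E, True := ⟨y, trivial⟩
            choose! g hg using fun n (h : y ∈ φ '' V n) => h
            have hinjg : InjOn g (S.filter (fun n => y ∈ φ '' V n) : Set ι) := by
              intro i hi j hj hij
              by_contra hne
              have h1 := (Finset.mem_filter.1 (Finset.mem_coe.1 hi)).2
              have h2 := (Finset.mem_filter.1 (Finset.mem_coe.1 hj)).2
              have h3 := hg i h1
              have h4 := hg j h2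
              rw [hij] at h3
              exact (Set.disjoint_left.1 (hVd hne)) h3.1 h4.1
            have himg2 : g '' (S.filter (fun n => y ∈ φ '' V n) : Set ι)
                ⊆ {x | (∃ i, x ∈ V i) ∧ φ x = y} := by
              rintro x ⟨n, hn, rfl⟩
              have h1 := (Finset.mem_filter.1 (Finset.mem_coe.1 hn)).2
              have h3 := hg n h1
              exact ⟨⟨n, h3.1⟩, h3.2⟩
            have := Set.encard_le_encard himg2
            rw [hinjg.encard_image, Set.encard_coe_eq_coe_finsetCard] at this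
            exact this
          exact_mod_cast hcard
        · rw [indicator_of_notMem hy]
          have : ∀ n, (φ '' V n).indicator (fun _ => (1:ℝ≥0∞)) y = 0 := by
            intro n
            apply indicator_of_notMem
            rintro ⟨x, hx, rfl⟩
            exact hy (hVU n x hx)
          simp [this]
    _ = N * μ U := by rw [lintegral_indicator_const hU]

/-- If `φ` is differentiable within each of the measurable pieces `P k` and takes almost every
value at most `N` times at non-degenerate points of `⋃ P k`, then the integral of the absolute Jacobian over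
the points mapped to `U` is at most `N` times the measure of `U`. -/
theorem lintegral_det_le_mulP {φ : E → E} {φ' : E → E →L[ℝ] E} {P : ℕ → Set E} {U : Set E} {N : ℕ}
    (hP : ∀ k, MeasurableSet (P k)) (hPd : Pairwise (Function.onFun Disjoint P))
    (hU : MeasurableSet U) (hφ : ∀ k, ∀ x ∈ P k, HasFDerivWithinAt φ (φ' x) (P k) x)
    (hm : Measurable φ')
    (hN : ∀ᵐ y ∂μ, {x | (x ∈ ⋃ k, P k) ∧ φ x = y ∧ (φ' x).det ≠ 0}.encard ≤ N) :
    ∫⁻ x in {x | (x ∈ ⋃ k, P k) ∧ φ x ∈ U}, ENNReal.ofReal |(φ' x).det| ∂μ ≤ N * μ U := by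
  classical
  have hdet : Measurable (fun x => (φ' x).det) :=
    ContinuousLinearMap.continuous_det.measurable.comp hm
  have hD : MeasurableSet {x | (φ' x).det ≠ 0} := hdet (measurableSet_singleton (0:ℝ)).compl
  -- measurable pieces
  have hpre : ∀ k, MeasurableSet {x | x ∈ P k ∧ φ x ∈ U} := by
    intro k
    have hc : ContinuousOn φ (P k) := fun x hx => (hφ k x hx).continuousWithinAt
    have h3 := hc.measurable_piecewise (g := fun _ => (0:E)) continuousOn_const (hP k)
    have h4 : (P k).indicator φ = (P k).piecewise φ (fun _ => (0:E)) := by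
      rw [← Set.piecewise_eq_indicator]; rfl
    rw [← h4] at h3
    have : {x | x ∈ P k ∧ φ x ∈ U} = P k ∩ ((P k).indicator φ) ⁻¹' U := by
      ext x
      constructor
      · rintro ⟨h1, h2⟩; exact ⟨h1, by simpa [h1] using h2⟩
      · rintro ⟨h1, h2⟩; exact ⟨h1, by simpa [h1] using h2⟩
    rw [this]
    exact (hP k).inter (h3 hU)
  set S : ℕ → Set E := fun k => {x | x ∈ P k ∧ φ x ∈ U} ∩ {x | (φ' x).det ≠ 0} with hS
  have hSm : ∀ k, MeasurableSet (S k) := fun k => (hpre k).inter hD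
  have hSP : ∀ k, S k ⊆ P k := fun k x hx => hx.1.1
  choose V hV1 hV2 hV3 hV4 using fun k => exists_inj_partition (hSm k)
    (fun x hx => (hφ k x (hSP k hx)).mono (hSP k)) (fun x hx => hx.2)
  have hVS : ∀ k n, V k n ⊆ S k := fun k n => by
    rw [← hV3 k]; exact subset_iUnion (V k) n
  have hpair : ∀ p q : ℕ × ℕ, p ≠ q → Disjoint (V p.1 p.2) (V q.1 q.2) := by
    rintro ⟨k, n⟩ ⟨l, m⟩ hne
    by_cases hkl : k = l
    · subst hkl
      have hnm : n ≠ m := fun h => hne (by rw [h])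
      exact hV2 k hnm
    · exact (hPd hkl).mono ((hVS k n).trans (hSP k)) ((hVS l m).trans (hSP l))
  have h1 := count_le μ (ι := ℕ × ℕ) (φ := φ) (φ' := φ') (V := fun p => V p.1 p.2) (U := U) (N := N)
    (fun p => hV1 p.1 p.2) (fun p q hpq => hpair p q hpq) (fun p => hV4 p.1 p.2)
    (fun p x hx => (hφ p.1 x (hSP _ (hVS _ _ hx))).mono ((hVS _ _).trans (hSP _))) hU
    (fun p x hx => (hVS _ _ hx).1.2) (by
      filter_upwards [hN] with y hNy
      refine le_trans (Set.encard_le_encard ?_) hNy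
      rintro x ⟨⟨p, hp⟩, hxy⟩
      have h2 := hVS _ _ hp
      exact ⟨mem_iUnion.2 ⟨p.1, h2.1.1⟩, hxy, h2.2⟩)
  have hW : (⋃ p : ℕ × ℕ, V p.1 p.2) = {x | (x ∈ ⋃ k, P k) ∧ φ x ∈ U} ∩ {x | (φ' x).det ≠ 0} := by
    ext x
    constructor
    · intro hx
      obtain ⟨p, hp⟩ := mem_iUnion.1 hx
      have h2 := hVS _ _ hp
      exact ⟨⟨mem_iUnion.2 ⟨p.1, h2.1.1⟩, h2.1.2⟩, h2.2⟩
    · rintro ⟨⟨hx1, hx2⟩, hx3⟩
      obtain ⟨k, hk⟩ := mem_iUnion.1 hx1
      have h2 : x ∈ S k := ⟨⟨hk, hx2⟩, hx3⟩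
      rw [← hV3 k] at h2
      obtain ⟨n, hn⟩ := mem_iUnion.1 h2
      exact mem_iUnion.2 ⟨(k, n), hn⟩
  rw [hW] at h1
  have hpreU : MeasurableSet {x | (x ∈ ⋃ k, P k) ∧ φ x ∈ U} := by
    have : {x | (x ∈ ⋃ k, P k) ∧ φ x ∈ U} = ⋃ k, {x | x ∈ P k ∧ φ x ∈ U} := by
      ext x
      simp only [mem_iUnion, Set.mem_ofPred_eq]
      exact exists_and_right.symm
    rw [this]
    exact MeasurableSet.iUnion hpre
  refine le_trans (le_of_eq ?_) h1
  rw [← lintegral_indicator hpreU, ← lintegral_indicator (hpreU.inter hD)]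
  congr 1
  ext x
  by_cases hx : x ∈ {x | (x ∈ ⋃ k, P k) ∧ φ x ∈ U}
  · by_cases hx' : (φ' x).det = 0
    · have h2 : x ∉ {x | (x ∈ ⋃ k, P k) ∧ φ x ∈ U} ∩ {x | (φ' x).det ≠ 0} := fun h => h.2 hx'
      rw [indicator_of_mem hx, indicator_of_notMem h2, hx']
      simp
    · have h2 : x ∈ {x | (x ∈ ⋃ k, P k) ∧ φ x ∈ U} ∩ {x | (φ' x).det ≠ 0} := ⟨hx, hx'⟩
      rw [indicator_of_mem hx, indicator_of_mem h2]
  · have h2 : x ∉ {x | (x ∈ ⋃ k, P k) ∧ φ x ∈ U} ∩ {x | (φ' x).det ≠ 0} := fun h => hx h.1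
    rw [indicator_of_notMem hx, indicator_of_notMem h2]

/-- Area inequality for functions; only the non-degenerate points are counted. -/
theorem lintegral_comp_det_leP {φ : E → E} {φ' : E → E →L[ℝ] E} {P : ℕ → Set E} {N : ℕ}
    (hP : ∀ k, MeasurableSet (P k)) (hPd : Pairwise (Function.onFun Disjoint P))
    (hφ : ∀ k, ∀ x ∈ P k, HasFDerivWithinAt φ (φ' x) (P k) x) (hm : Measurable φ')
    (hN : ∀ᵐ y ∂μ, {x | (x ∈ ⋃ k, P k) ∧ φ x = y ∧ (φ' x).det ≠ 0}.encard ≤ N)
    {H : E → ℝ≥0∞} (hH : Measurable H) :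
    ∫⁻ x in ⋃ k, P k, H (φ x) * ENNReal.ofReal |(φ' x).det| ∂μ ≤ N * ∫⁻ y, H y ∂μ := by
  classical
  have hs : MeasurableSet (⋃ k, P k) := MeasurableSet.iUnion hP
  have hdet : Measurable (fun x => (φ' x).det) :=
    ContinuousLinearMap.continuous_det.measurable.comp hm
  have hJm : Measurable (fun x => ENNReal.ofReal |(φ' x).det|) :=
    (hdet.abs).ennreal_ofReal
  have hae : AEMeasurable φ (μ.restrict (⋃ k, P k)) := by
    rw [aemeasurable_iUnion_iff]
    intro k
    have hc : ContinuousOn φ (P k) := fun x hx => (hφ k x hx).continuousWithinAt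
    exact hc.aemeasurable (hP k)
  set ν := (μ.restrict (⋃ k, P k)).withDensity (fun x => ENNReal.ofReal |(φ' x).det|) with hν
  have haeν : AEMeasurable φ ν := hae.mono_ac (withDensity_absolutelyContinuous _ _)
  have hmap : Measure.map φ ν ≤ (N : ℝ≥0∞) • μ := by
    rw [Measure.le_iff]
    intro U hU
    rw [Measure.map_apply_of_aemeasurable haeν hU, hν, withDensity_apply',
      Measure.restrict_restrict' hs, Measure.smul_apply, smul_eq_mul]
    have h2 := lintegral_det_le_mulP μ (P := P) (U := U) (N := N) (φ := φ) (φ' := φ') hP hPd hU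
      hφ hm hN
    have h3 : φ ⁻¹' U ∩ (⋃ k, P k) = {x | (x ∈ ⋃ k, P k) ∧ φ x ∈ U} := by
      ext x
      exact and_comm
    rw [h3]
    exact h2
  have hHae : AEMeasurable (fun x => H (φ x)) (μ.restrict (⋃ k, P k)) := hH.comp_aemeasurable hae
  calc ∫⁻ x in ⋃ k, P k, H (φ x) * ENNReal.ofReal |(φ' x).det| ∂μ
      = ∫⁻ x, H (φ x) ∂ν := by
        rw [hν, lintegral_withDensity_eq_lintegral_mul₀ hJm.aemeasurable hHae]
        simp only [Pi.mul_apply, mul_comm]
    _ = ∫⁻ y, H y ∂(Measure.map φ ν) := (lintegral_map' hH.aemeasurable haeν).symm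
    _ ≤ ∫⁻ y, H y ∂((N : ℝ≥0∞) • μ) := lintegral_mono' hmap le_rfl
    _ = N * ∫⁻ y, H y ∂μ := by rw [lintegral_smul_measure, smul_eq_mul]

end area

variable {d : ℕ}

theorem integratedP (hd : 1 ≤ d) {N : ℕ} {B : Set (EuclideanSpace ℝ (Fin d))} (hB : MeasurableSet B)
    (hB1 : B ⊆ closedBall 0 1) {P : ℕ → Set (EuclideanSpace ℝ (Fin d))}
    (hP : ∀ k, MeasurableSet (P k)) (hPd : Pairwise (Function.onFun Disjoint P))
    (hPB : (⋃ k, P k) = B) {b : (EuclideanSpace ℝ (Fin d)) → (EuclideanSpace ℝ (Fin d))} {b' : (EuclideanSpace ℝ (Fin d)) → (EuclideanSpace ℝ (Fin d)) →L[ℝ] (EuclideanSpace ℝ (Fin d))}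
    (hb : ∀ k, ∀ v ∈ P k, HasFDerivWithinAt b (b' v) (P k) v) (hfd : Measurable b')
    {b₀ : (EuclideanSpace ℝ (Fin d)) → (EuclideanSpace ℝ (Fin d))} (hb₀m : Measurable b₀)
    (hbb : ∀ v ∈ B, b₀ v = b v)
    {T : Set ℝ}
    (hN : ∀ᵐ t : ℝ, t ∈ T → ∀ᵐ y : (EuclideanSpace ℝ (Fin d)), {v | v ∈ B ∧ b v + t • v = y ∧
      (b' v + t • ContinuousLinearMap.id ℝ (EuclideanSpace ℝ (Fin d))).det ≠ 0}.encard ≤ N)
    {δ : ℝ} (hδ : 0 < δ) {f : (EuclideanSpace ℝ (Fin d)) × ℝ → ℝ≥0∞} (hf : Measurable f)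
    (hfT : ∀ y t, t ∉ T → f (y, t) = 0) :
    ∫⁻ v in B, (⨆ h : ℝ, (∫⁻ t in Icc h (h+3), moll (2*δ) f (b v + t • v, t)) ^ (d+1))
      ≤ 2^(d+1) * ((2 * d * ENNReal.ofReal (Real.log (1 + 3/δ)))^d * N + d^d)
        * ∫⁻ p, f p ^ (d+1) := by
  classical
  set A : ℝ≥0∞ := (2 * d * ENNReal.ofReal (Real.log (1 + 3/δ)))^d with hA
  set D : ℝ≥0∞ := (2 * d * ENNReal.ofReal δ) ^ d with hD
  have h2δ : 0 < 2 * δ := by linarith
  set G : (EuclideanSpace ℝ (Fin d)) → ℝ → ℝ≥0∞ := fun v t => moll (2*δ) f (b₀ v + t • v, t) with hG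
  set J : (EuclideanSpace ℝ (Fin d)) → ℝ → ℝ≥0∞ := fun v t =>
    ENNReal.ofReal |(b' v + t • ContinuousLinearMap.id ℝ (EuclideanSpace ℝ (Fin d))).det| with hJ
  have hmm := measurable_moll (r := 2*δ) hf
  have hGm : Measurable (fun q : (EuclideanSpace ℝ (Fin d)) × ℝ => G q.1 q.2) := by
    apply hmm.comp
    fun_prop
  have hJm : Measurable (fun q : (EuclideanSpace ℝ (Fin d)) × ℝ => J q.1 q.2) := by
    apply Measurable.ennreal_ofReal
    apply Measurable.abs
    apply ContinuousLinearMap.continuous_det.measurable.comp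
    have h1 : Measurable (fun q : (EuclideanSpace ℝ (Fin d)) × ℝ => b' q.1) := hfd.comp measurable_fst
    have h2 : Measurable (fun q : (EuclideanSpace ℝ (Fin d)) × ℝ => q.2 • ContinuousLinearMap.id ℝ (EuclideanSpace ℝ (Fin d))) := by
      have hc : Continuous (fun q : (EuclideanSpace ℝ (Fin d)) × ℝ => q.2 • ContinuousLinearMap.id ℝ (EuclideanSpace ℝ (Fin d))) := by fun_prop
      exact hc.measurable
    exact h1.add h2
  have hGeq : ∀ v ∈ B, ∀ t, G v t = moll (2*δ) f (b v + t • v, t) := by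
    intro v hv t
    rw [hG]; simp only; rw [hbb v hv]
  have hGmoll : ∀ v t, ∃ y : (EuclideanSpace ℝ (Fin d)), G v t = moll (2*δ) f (y, t) := fun v t => ⟨_, rfl⟩
  have hJeq : ∀ v t, J v t
      = ENNReal.ofReal |(b' v + t • ContinuousLinearMap.id ℝ (EuclideanSpace ℝ (Fin d))).det| := fun v t => rfl
  clear_value G J
  have hpt : ∀ v ∈ B, (⨆ h : ℝ, (∫⁻ t in Icc h (h+3), moll (2*δ) f (b v + t • v, t)) ^ (d+1))
      ≤ 2^(d+1) * (A * (∫⁻ t, G v t ^ (d+1) * J v t) + D * (∫⁻ t, G v t ^ (d+1))) := by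
    intro v hv
    apply iSup_le
    intro h
    obtain ⟨μ, hμc, hμ⟩ := det_centers (b' v)
    rw [finrank_euclideanSpace_fin] at hμc
    have hGv : Measurable (G v) := hGm.comp measurable_prodMk_left
    have hJv : Measurable (J v) := hJm.comp measurable_prodMk_left
    have := line_estimate hd hμc hδ hJv (fun t => by rw [hJeq]; exact ENNReal.ofReal_ne_top)
      (fun t => by rw [hJeq]; exact ENNReal.ofReal_le_ofReal (hμ t)) hGv h
    have he : (fun t => moll (2*δ) f (b v + t • v, t)) = G v := by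
      ext t; rw [hGeq v hv]
    calc (∫⁻ t in Icc h (h+3), moll (2*δ) f (b v + t • v, t)) ^ (d+1)
        = (∫⁻ t in Icc h (h+3), G v t) ^ (d+1) := by rw [← he]
      _ ≤ _ := this
  have hI1m : Measurable (fun v => ∫⁻ t, G v t ^ (d+1) * J v t) :=
    ((hGm.pow_const (d+1)).mul hJm).lintegral_prod_right'
  have hI2m : Measurable (fun v => ∫⁻ t, G v t ^ (d+1)) :=
    (hGm.pow_const (d+1)).lintegral_prod_right'
  have hfp : Measurable (fun q => f q ^ (d+1)) := hf.pow_const (d+1)
  set S := ∫⁻ p, f p ^ (d+1) with hS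
  have hS2 : S = ∫⁻ t : ℝ, ∫⁻ y : (EuclideanSpace ℝ (Fin d)), f (y, t) ^ (d+1) := by
    rw [hS, Measure.volume_eq_prod, lintegral_prod_symm _ hfp.aemeasurable]
  have hI1 : ∫⁻ v in B, ∫⁻ t, G v t ^ (d+1) * J v t ≤ N * S := by
    rw [lintegral_lintegral_swap ((hGm.pow_const (d+1)).mul hJm).aemeasurable]
    rw [hS2, ← lintegral_const_mul _ (hfp.lintegral_prod_left')]
    apply lintegral_mono_ae
    filter_upwards [hN] with t ht
    by_cases htT : t ∈ T
    swap
    · have h0 : ∀ v, G v t = 0 := by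
        intro v
        obtain ⟨y, hy⟩ := hGmoll v t
        rw [hy]
        simp [moll, hfT _ t htT]
      simp [h0]
    replace ht := ht htT
    have hder : ∀ k, ∀ v ∈ P k, HasFDerivWithinAt (fun v => b v + t • v)
        (b' v + t • ContinuousLinearMap.id ℝ (EuclideanSpace ℝ (Fin d))) (P k) v := by
      intro k v hv
      exact (hb k v hv).add ((hasFDerivWithinAt_id v (P k)).const_smul t)
    have hH : Measurable (fun y : (EuclideanSpace ℝ (Fin d)) => moll (2*δ) f (y, t) ^ (d+1)) :=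
      (hmm.comp measurable_prodMk_right).pow_const _
    have h1 := lintegral_comp_det_leP (volume : Measure (EuclideanSpace ℝ (Fin d))) hP hPd hder
      (hfd.add_const _) (by rw [hPB]; exact ht) hH
    rw [hPB] at h1
    calc ∫⁻ v in B, G v t ^ (d+1) * J v t
        = ∫⁻ v in B, moll (2*δ) f (b v + t • v, t) ^ (d+1) *
          ENNReal.ofReal |(b' v + t • ContinuousLinearMap.id ℝ (EuclideanSpace ℝ (Fin d))).det| := by
          apply setLIntegral_congr_fun hB
          intro v hv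
          simp only
          rw [hGeq v hv, hJeq]
      _ ≤ N * ∫⁻ y : (EuclideanSpace ℝ (Fin d)), moll (2*δ) f (y, t) ^ (d+1) := h1
      _ ≤ N * ∫⁻ y : (EuclideanSpace ℝ (Fin d)), moll (2*δ) (fun q => f q ^ (d+1)) (y, t) := by
          gcongr with y
          exact moll_pow_le hd h2δ hf (y, t)
      _ = N * ∫⁻ y : (EuclideanSpace ℝ (Fin d)), f (y, t) ^ (d+1) := by rw [lintegral_moll h2δ hfp t]
  have hV0 := (vol_pos (d := d) h2δ).ne'
  have hVt := (vol_lt_top (d := d) (r := 2*δ)).ne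
  have hI2 : D * ∫⁻ v in B, ∫⁻ t, G v t ^ (d+1) ≤ d ^ d * S := by
    have h1 : ∀ v, ∫⁻ t, G v t ^ (d+1) ≤ (volume (closedBall (0:(EuclideanSpace ℝ (Fin d))) (2*δ)))⁻¹ * S := by
      intro v
      rw [hS2, ← lintegral_const_mul _ (hfp.lintegral_prod_left')]
      apply lintegral_mono
      intro t
      obtain ⟨y, hy⟩ := hGmoll v t
      simp only
      rw [hy]
      exact (moll_pow_le hd h2δ hf _).trans (moll_le _ _ _)
    calc D * ∫⁻ v in B, ∫⁻ t, G v t ^ (d+1)
        ≤ D * ∫⁻ v in B, (volume (closedBall (0:(EuclideanSpace ℝ (Fin d))) (2*δ)))⁻¹ * S := by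
          gcongr with v
          exact h1 v
      _ = D * ((volume (closedBall (0:(EuclideanSpace ℝ (Fin d))) (2*δ)))⁻¹ * S * volume B) := by
          rw [lintegral_const, Measure.restrict_apply_univ]
      _ ≤ D * ((volume (closedBall (0:(EuclideanSpace ℝ (Fin d))) (2*δ)))⁻¹ * S * volume (closedBall (0:(EuclideanSpace ℝ (Fin d))) 1)) := by
          gcongr
      _ = d ^ d * S := by
          rw [vol_ball_scale h2δ, hD]
          have hω0 := (vol_pos (d := d) one_pos).ne'
          have hωt := (vol_lt_top (d := d) (r := 1)).ne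
          set ω := volume (closedBall (0:(EuclideanSpace ℝ (Fin d))) 1)
          have h3 : (2 * (d:ℝ≥0∞) * ENNReal.ofReal δ) ^ d
              = d ^ d * (ENNReal.ofReal (2*δ)) ^ d := by
            rw [← mul_pow, ENNReal.ofReal_mul (by norm_num)]
            congr 1
            rw [show ENNReal.ofReal 2 = 2 by simp]
            ring
          have h4 : (ENNReal.ofReal (2*δ)) ^ d ≠ 0 := by
            apply pow_ne_zero
            simpa using h2δ
          have h5 : (ENNReal.ofReal (2*δ)) ^ d ≠ ∞ := ENNReal.pow_ne_top ENNReal.ofReal_ne_top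
          rw [h3, ENNReal.mul_inv (Or.inl h4) (Or.inl h5)]
          set P := (ENNReal.ofReal (2*δ)) ^ d
          calc (d:ℝ≥0∞) ^ d * P * (P⁻¹ * ω⁻¹ * S * ω)
              = (d:ℝ≥0∞) ^ d * S * (P * P⁻¹) * (ω⁻¹ * ω) := by ring
            _ = d ^ d * S := by
              rw [ENNReal.mul_inv_cancel h4 h5, ENNReal.inv_mul_cancel hω0 hωt, mul_one, mul_one]
  calc ∫⁻ v in B, (⨆ h : ℝ, (∫⁻ t in Icc h (h+3), moll (2*δ) f (b v + t • v, t)) ^ (d+1))
      ≤ ∫⁻ v in B, 2^(d+1) * (A * (∫⁻ t, G v t ^ (d+1) * J v t)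
          + D * (∫⁻ t, G v t ^ (d+1))) := setLIntegral_mono' hB hpt
    _ = 2^(d+1) * (A * (∫⁻ v in B, ∫⁻ t, G v t ^ (d+1) * J v t)
          + D * (∫⁻ v in B, ∫⁻ t, G v t ^ (d+1))) := by
        exact lintegral_comb _ hI1m hI2m _ _ _
    _ ≤ 2^(d+1) * (A * (N * S) + d ^ d * S) := by gcongr
    _ = 2^(d+1) * (A * N + d ^ d) * S := by ring

end Pool.Agent.H805R3.Kk
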