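import Mathlib

set_option autoImplicit false

/-!
Almost everywhere differentiability of monotone maps defined on an arbitrary set (Mignot), and
uniqueness of non-degenerate preimages.
-/

open MeasureTheory Set Filter Topology ENNReal NNReal Metric Measure

namespace Pool.Agent.H805R3.Kk

variable {E : Type*} [NormedAddCommGroup E] [InnerProductSpace ℝ E] [FiniteDimensional ℝ E]
  [MeasurableSpace E] [BorelSpace E] (μ : Measure E) [μ.IsAddHaarMeasure]

/-- `x` is a density point of `s`. -/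
def Dens (s : Set E) (x : E) : Prop :=
  Tendsto (fun r => μ (s ∩ closedBall x r) / μ (closedBall x r)) (𝓝[>] 0) (𝓝 1)

theorem ae_dens (s : Set E) : ∀ᵐ x ∂μ.restrict s, Dens μ s x :=
  Besicovitch.ae_tendsto_measure_inter_div μ s

theorem Dens.exists_seq {s : Set E} {x : E} (h : Dens μ s x) (k : E) :
    ∃ (c : ℕ → ℝ) (d : ℕ → E), (∀ n, x + d n ∈ s) ∧ (∀ n, 0 < c n) ∧ Tendsto d atTop (𝓝 0) ∧
      Tendsto (fun n => c n • d n) atTop (𝓝 k) := by
  have h1 : ∀ n : ℕ, ∃ r : ℝ, 0 < r ∧ r ≤ 1 / ((n:ℝ) + 1) ∧ ∃ y ∈ s, ‖y - x - r • k‖ ≤ r * (1 / ((n:ℝ) + 1)) := by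
    intro n
    have hn : (0:ℝ) < 1 / ((n:ℝ) + 1) := by positivity
    have h2 := eventually_nonempty_inter_smul_of_density_one μ s x h
      (closedBall k (1 / ((n:ℝ) + 1))) measurableSet_closedBall
      (measure_closedBall_pos μ k hn).ne'
    have h3 : ∀ᶠ r in 𝓝[>] (0:ℝ), r ∈ Ioc (0:ℝ) (1 / ((n:ℝ) + 1)) :=
      Ioc_mem_nhdsGT hn
    obtain ⟨r, hr1, hr2⟩ := (h2.and h3).exists
    refine ⟨r, hr2.1, hr2.2, ?_⟩
    obtain ⟨y, hys, hy⟩ := hr1
    refine ⟨y, hys, ?_⟩
    rw [singleton_add] at hy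
    obtain ⟨z, hz, rfl⟩ := hy
    obtain ⟨w, hw, rfl⟩ := hz
    have e : x + r • w - x - r • k = r • (w - k) := by rw [smul_sub]; abel
    simp only
    rw [e, norm_smul, Real.norm_eq_abs, abs_of_pos hr2.1]
    rw [mem_closedBall, dist_eq_norm] at hw
    exact mul_le_mul_of_nonneg_left hw hr2.1.le
  choose r hr0 hr1 y hys hy using h1
  have hlim : Tendsto (fun n : ℕ => 1 / ((n:ℝ) + 1)) atTop (𝓝 0) :=
    tendsto_one_div_add_atTop_nhds_zero_nat
  have hcd : Tendsto (fun n => (r n)⁻¹ • (y n - x)) atTop (𝓝 k) := by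
    rw [tendsto_iff_norm_sub_tendsto_zero]
    refine squeeze_zero (fun n => norm_nonneg _) (fun n => ?_) hlim
    have e : (r n)⁻¹ • (y n - x) - k = (r n)⁻¹ • (y n - x - r n • k) := by
      rw [smul_sub _ (y n - x), inv_smul_smul₀ (hr0 n).ne']
    rw [e, norm_smul, Real.norm_eq_abs, abs_of_pos (inv_pos.2 (hr0 n))]
    calc (r n)⁻¹ * ‖y n - x - r n • k‖ ≤ (r n)⁻¹ * (r n * (1 / ((n:ℝ) + 1))) := by
          gcongr
          · exact (inv_pos.2 (hr0 n)).le
          · exact hy n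
      _ = 1 / ((n:ℝ) + 1) := by
          rw [← mul_assoc, inv_mul_cancel₀ (hr0 n).ne', one_mul]
  have hr : Tendsto r atTop (𝓝 0) := squeeze_zero (fun n => (hr0 n).le) hr1 hlim
  refine ⟨fun n => (r n)⁻¹, fun n => y n - x, fun n => by simpa using hys n,
    fun n => inv_pos.2 (hr0 n), ?_, hcd⟩
  have h2 := hr.smul hcd
  rw [zero_smul] at h2
  refine h2.congr (fun n => ?_)
  rw [smul_inv_smul₀ (hr0 n).ne']

/-- First-order consequence of monotonicity at a density point. -/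
theorem inner_nonneg_of_dens {s : Set E} {x w : E} {F : E → E} {L : E →L[ℝ] E}
    (hd : Dens μ s x) (hF : HasFDerivWithinAt F L s x)
    (hm : ∀ y ∈ s, 0 ≤ inner ℝ (F y - F x) (y - w)) (k : E) :
    0 ≤ inner ℝ (L k) (x - w) := by
  obtain ⟨c, d, h1, h2, h3, h4⟩ := hd.exists_seq μ k
  have h5 := hF.lim h3 (Eventually.of_forall h1) h4
  have h6 : Tendsto (fun n => x + d n - w) atTop (𝓝 (x - w)) := by
    have := (tendsto_const_nhds (x := x)).add h3
    rw [add_zero] at this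
    exact this.sub_const w
  have h7 := h5.inner h6 (𝕜 := ℝ)
  refine ge_of_tendsto' h7 (fun n => ?_)
  rw [real_inner_smul_left]
  exact mul_nonneg (h2 n).le (hm _ (h1 n))

/-- Non-degenerate preimages are unique: if `K ∘ F` is monotone on `s`. -/
theorem eq_of_mono_of_dens {s : Set E} {x w : E} {F : E → E} {L K : E →L[ℝ] E}
    (hd : Dens μ s x) (hF : HasFDerivWithinAt F L s x) (hL : L.det ≠ 0) (hK : K.det ≠ 0)
    (hm : ∀ y ∈ s, 0 ≤ inner ℝ (K (F y - F w)) (y - w)) (hxw : F x = F w) : x = w := by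
  have hKF : HasFDerivWithinAt (fun y => K (F y)) (K.comp L) s x := K.hasFDerivAt.comp_hasFDerivWithinAt x hF
  have h1 : ∀ k, 0 ≤ inner ℝ (K.comp L k) (x - w) := by
    apply inner_nonneg_of_dens μ hd hKF
    intro y hy
    have := hm y hy
    rw [← hxw, map_sub] at this
    exact this
  set eL := L.toContinuousLinearEquivOfDetNeZero hL
  set eK := K.toContinuousLinearEquivOfDetNeZero hK
  have h2 := h1 (eL.symm (eK.symm (-(x - w))))
  have h3 : K.comp L (eL.symm (eK.symm (-(x - w)))) = -(x - w) := by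
    have e1 : L (eL.symm (eK.symm (-(x - w)))) = eK.symm (-(x - w)) := eL.apply_symm_apply _
    have e2 : K (eK.symm (-(x - w))) = -(x - w) := eK.apply_symm_apply _
    rw [ContinuousLinearMap.comp_apply, e1, e2]
  rw [h3, inner_neg_left, real_inner_self_eq_norm_sq] at h2
  have h4 : ‖x - w‖ ^ 2 = 0 := le_antisymm (by linarith) (sq_nonneg _)
  have h5 : ‖x - w‖ = 0 := by simpa using h4
  exact sub_eq_zero.1 (norm_eq_zero.1 h5)

/-- Lipschitz images of null sets are null. -/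
theorem null_image_of_lipschitz {s : Set E} {R : E → E} {C : ℝ≥0} (hR : LipschitzOnWith C R s)
    (hs : μ s = 0) : μ (R '' s) = 0 := by
  have h1 : μ = addHaarScalarFactor μ μH[Module.finrank ℝ E] • μH[Module.finrank ℝ E] :=
    isAddLeftInvariant_eq_smul μ μH[Module.finrank ℝ E]
  have h2 : (μH[Module.finrank ℝ E] : Measure E) = addHaarScalarFactor μH[Module.finrank ℝ E] μ • μ :=
    isAddLeftInvariant_eq_smul μH[Module.finrank ℝ E] μ
  have h3 : (μH[Module.finrank ℝ E] : Measure E) s = 0 := by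
    rw [h2, Measure.smul_apply, hs, smul_zero]
  have h4 := hR.hausdorffMeasure_image_le (d := Module.finrank ℝ E) (by positivity)
  rw [h3, mul_zero, nonpos_iff_eq_zero] at h4
  rw [h1, Measure.smul_apply, h4, smul_zero]

/-- Continuity at good points of the inverse of the resolvent of a monotone map. -/
theorem tendsto_of_mono {B : Set E} {Φ R : E → E} (hR : ∀ v ∈ B, R (Φ v) = v)
    (hm : ∀ v ∈ B, ∀ w ∈ B, 0 ≤ inner ℝ ((Φ v - v) - (Φ w - w)) (v - w)) {v : E} (hv : v ∈ B)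
    {A : E →L[ℝ] E} (hA : HasFDerivWithinAt R A (Φ '' B) (Φ v)) (hdet : A.det ≠ 0)
    (hd : Dens μ (Φ '' B) (Φ v)) :
    Tendsto Φ (𝓝[B] v) (𝓝 (Φ v)) := by
  rw [Metric.tendsto_nhds]
  intro ε hε
  by_contra hcon
  rw [not_eventually] at hcon
  obtain ⟨vs, hvs, hfar⟩ := exists_seq_forall_of_frequently hcon
  rw [tendsto_nhdsWithin_iff] at hvs
  obtain ⟨hvs1, hvs2⟩ := hvs
  obtain ⟨n0, hn0⟩ := eventually_atTop.1 hvs2
  -- shift
  set V : ℕ → E := fun n => vs (n + n0) with hV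
  have hVB : ∀ n, V n ∈ B := fun n => hn0 _ (by omega)
  have hVlim : Tendsto V atTop (𝓝 v) := (tendsto_add_atTop_iff_nat n0).2 hvs1
  have hVfar : ∀ n, ε ≤ ‖Φ (V n) - Φ v‖ := by
    intro n
    have := hfar (n + n0)
    rw [not_lt, dist_eq_norm] at this
    exact this
  set a : ℕ → ℝ := fun n => ‖Φ (V n) - Φ v‖⁻¹ with ha
  set u : ℕ → E := fun n => a n • (Φ (V n) - Φ v) with hu
  have ha0 : ∀ n, 0 < a n := fun n => inv_pos.2 (lt_of_lt_of_le hε (hVfar n))
  have ha1 : ∀ n, a n ∈ Icc (0:ℝ) ε⁻¹ := fun n => ⟨(ha0 n).le, by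
    rw [ha]
    exact inv_anti₀ hε (hVfar n)⟩
  have hu1 : ∀ n, ‖u n‖ = 1 := by
    intro n
    rw [hu]
    simp only
    rw [norm_smul, Real.norm_eq_abs, abs_of_pos (ha0 n)]
    exact inv_mul_cancel₀ (lt_of_lt_of_le hε (hVfar n)).ne'
  have hmem : ∀ n, (u n, a n) ∈ (closedBall (0:E) 1) ×ˢ (Icc (0:ℝ) ε⁻¹) := by
    intro n
    refine ⟨?_, ha1 n⟩
    rw [mem_closedBall_zero_iff]
    exact (hu1 n).le
  obtain ⟨⟨u0, a0⟩, -, φ, hφ, hlim⟩ :=
    ((isCompact_closedBall (0:E) 1).prod (isCompact_Icc (a := (0:ℝ)) (b := ε⁻¹))).tendsto_subseq hmem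
  have hulim : Tendsto (fun n => u (φ n)) atTop (𝓝 u0) :=
    (continuous_fst.tendsto _).comp hlim
  have halim : Tendsto (fun n => a (φ n)) atTop (𝓝 a0) :=
    (continuous_snd.tendsto _).comp hlim
  have hVl : Tendsto (fun n => V (φ n)) atTop (𝓝 v) := hVlim.comp hφ.tendsto_atTop
  have hu0 : ‖u0‖ = 1 := by
    have h1 := hulim.norm
    have h2 : Tendsto (fun n => ‖u (φ n)‖) atTop (𝓝 1) := by
      simp only [hu1]
      exact tendsto_const_nhds
    exact tendsto_nhds_unique h1 h2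
  -- the limiting inequality
  have hineq : ∀ y ∈ Φ '' B, 0 ≤ inner ℝ (a0 • (y - Φ v) - u0 - a0 • (R y - v)) (R y - v) := by
    rintro y ⟨w, hw, rfl⟩
    rw [hR w hw]
    have h1 : Tendsto (fun n => inner ℝ (a (φ n) • (Φ w - Φ v) - u (φ n) - a (φ n) • (w - V (φ n)))
        (w - V (φ n))) atTop
        (𝓝 (inner ℝ (a0 • (Φ w - Φ v) - u0 - a0 • (w - v)) (w - v))) := by
      have e1 : Tendsto (fun n => w - V (φ n)) atTop (𝓝 (w - v)) := hVl.const_sub w
      have e2 : Tendsto (fun n => a (φ n) • (Φ w - Φ v)) atTop (𝓝 (a0 • (Φ w - Φ v))) :=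
        halim.smul_const _
      have e3 := halim.smul e1
      exact ((e2.sub hulim).sub e3).inner e1
    refine ge_of_tendsto' h1 (fun n => ?_)
    have e : a (φ n) • (Φ w - Φ v) - u (φ n) - a (φ n) • (w - V (φ n))
        = a (φ n) • ((Φ w - w) - (Φ (V (φ n)) - V (φ n))) := by
      rw [hu]
      simp only
      rw [← smul_sub, ← smul_sub]
      congr 1
      abel
    rw [e, real_inner_smul_left]
    exact mul_nonneg (ha0 _).le (hm _ hw _ (hVB _))
  -- test with the derivative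
  obtain ⟨c, d, h1, h2, h3, h4⟩ := hd.exists_seq μ
    ((A.toContinuousLinearEquivOfDetNeZero hdet).symm u0)
  have h5 := hA.lim h3 (Eventually.of_forall h1) h4
  have h6 : A ((A.toContinuousLinearEquivOfDetNeZero hdet).symm u0) = u0 :=
    (A.toContinuousLinearEquivOfDetNeZero hdet).apply_symm_apply u0
  rw [h6, hR v hv] at h5
  have h7 : Tendsto (fun n => R (Φ v + d n) - v) atTop (𝓝 0) := by
    have hc : ContinuousWithinAt R (Φ '' B) (Φ v) := hA.continuousWithinAt
    have h8 : Tendsto (fun n => Φ v + d n) atTop (𝓝[Φ '' B] (Φ v)) := by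
      rw [tendsto_nhdsWithin_iff]
      exact ⟨by simpa using (tendsto_const_nhds (x := Φ v)).add h3, Eventually.of_forall h1⟩
    have h9 := hc.tendsto.comp h8
    rw [hR v hv] at h9
    have := h9.sub_const v
    rw [sub_self] at this
    exact this
  have h8 : Tendsto (fun n => a0 • (Φ v + d n - Φ v) - u0 - a0 • (R (Φ v + d n) - v)) atTop
      (𝓝 (a0 • (0:E) - u0 - a0 • (0:E))) := by
    refine Tendsto.sub (Tendsto.sub_const ?_ _) (h7.const_smul a0)
    have : (fun n => a0 • (Φ v + d n - Φ v)) = fun n => a0 • d n := by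
      ext n; rw [add_sub_cancel_left]
    rw [this]
    exact h3.const_smul a0
  have h9 := h8.inner h5 (𝕜 := ℝ)
  rw [smul_zero, zero_sub, sub_zero, inner_neg_left, real_inner_self_eq_norm_sq, hu0] at h9
  have h10 : (0:ℝ) ≤ -1 ^ 2 := by
    refine ge_of_tendsto' h9 (fun n => ?_)
    rw [real_inner_smul_right]
    exact mul_nonneg (h2 n).le (hineq _ (h1 n))
  norm_num at h10

/-- **Mignot's theorem** on an arbitrary set: a map that is monotone on `B` is differentiable within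
`B` at almost every point of `B`. -/
theorem ae_differentiableWithinAt_of_mono {B : Set E} {M : E → E}
    (hm : ∀ v ∈ B, ∀ w ∈ B, 0 ≤ inner ℝ (M v - M w) (v - w)) :
    μ {v | v ∈ B ∧ ¬ DifferentiableWithinAt ℝ M B v} = 0 := by
  classical
  rcases B.eq_empty_or_nonempty with he | hne
  · simp [he]
  have : Nonempty E := ⟨hne.some⟩
  set Φ : E → E := fun v => v + M v with hΦ
  have hmΦ : ∀ v ∈ B, ∀ w ∈ B, 0 ≤ inner ℝ ((Φ v - v) - (Φ w - w)) (v - w) := by
    intro v hv w hw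
    have := hm v hv w hw
    simp only [hΦ, add_sub_cancel_left]
    exact this
  have hexp : ∀ v ∈ B, ∀ w ∈ B, ‖v - w‖ ≤ ‖Φ v - Φ w‖ := by
    intro v hv w hw
    have h1 : ‖v - w‖ ^ 2 ≤ inner ℝ (Φ v - Φ w) (v - w) := by
      have e : Φ v - Φ w = (v - w) + (M v - M w) := by simp only [hΦ]; abel
      rw [e, inner_add_left, real_inner_self_eq_norm_sq]
      linarith [hm v hv w hw]
    have h2 : inner ℝ (Φ v - Φ w) (v - w) ≤ ‖Φ v - Φ w‖ * ‖v - w‖ := real_inner_le_norm _ _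
    by_contra hlt
    rw [not_le] at hlt
    have h3 : 0 < ‖v - w‖ := lt_of_le_of_lt (norm_nonneg _) hlt
    nlinarith
  have hinj : InjOn Φ B := by
    intro v hv w hw h
    have h1 := hexp v hv w hw
    rw [h, sub_self, norm_zero] at h1
    exact sub_eq_zero.1 (norm_eq_zero.1 (le_antisymm h1 (norm_nonneg _)))
  set R : E → E := Function.invFunOn Φ B with hRdef
  have hR : ∀ v ∈ B, R (Φ v) = v := fun v hv => hinj.leftInvOn_invFunOn hv
  have hlip : LipschitzOnWith 1 R (Φ '' B) := by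
    apply LipschitzOnWith.of_dist_le_mul
    rintro x ⟨v, hv, rfl⟩ y ⟨w, hw, rfl⟩
    rw [hR v hv, hR w hw, dist_eq_norm, dist_eq_norm, NNReal.coe_one, one_mul]
    exact hexp v hv w hw
  set G := Φ '' B with hG
  -- bad sets
  set G1 : Set E := {x | x ∈ G ∧ ¬ (DifferentiableWithinAt ℝ R G x ∧ Dens μ G x)} with hG1
  set G2 : Set E := {x | x ∈ G ∧ DifferentiableWithinAt ℝ R G x ∧ (fderivWithin ℝ R G x).det = 0}
    with hG2
  have hG1z : μ G1 = 0 := by
    have h1 : μ {x | x ∈ G ∧ ¬ DifferentiableWithinAt ℝ R G x} = 0 := by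
      have := hlip.ae_differentiableWithinAt_of_mem (μ := μ)
      rw [ae_iff] at this
      convert this using 2
      ext x
      simp
    have h2 : μ {x | x ∈ G ∧ ¬ Dens μ G x} = 0 := by
      have h3 := ae_dens μ G
      rw [ae_iff] at h3
      have h4 := le_restrict_apply (μ := μ) G {x | ¬ Dens μ G x}
      rw [h3, nonpos_iff_eq_zero] at h4
      convert h4 using 2
      ext x
      simp [and_comm]
    refine measure_mono_null ?_ (measure_union_null h1 h2)
    rintro x ⟨hx1, hx2⟩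
    by_cases h : DifferentiableWithinAt ℝ R G x
    · right; exact ⟨hx1, fun h' => hx2 ⟨h, h'⟩⟩
    · left; exact ⟨hx1, h⟩
  have hI1 : μ (R '' G1) = 0 :=
    null_image_of_lipschitz μ (hlip.mono (fun x hx => hx.1)) hG1z
  have hI2 : μ (R '' G2) = 0 := by
    apply addHaar_image_eq_zero_of_det_fderivWithin_eq_zero μ (f' := fun x => fderivWithin ℝ R G x)
    · intro x hx
      exact hx.2.1.hasFDerivWithinAt.mono (fun y hy => hy.1)
    · intro x hx
      exact hx.2.2
  refine measure_mono_null ?_ (measure_union_null hI1 hI2)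
  rintro v ⟨hv, hnd⟩
  by_contra hcon
  apply hnd
  have hx : Φ v ∈ G := mem_image_of_mem _ hv
  have h1 : Φ v ∉ G1 := fun h => hcon (Or.inl ⟨Φ v, h, hR v hv⟩)
  have h2 : Φ v ∉ G2 := fun h => hcon (Or.inr ⟨Φ v, h, hR v hv⟩)
  have h3 : DifferentiableWithinAt ℝ R G (Φ v) ∧ Dens μ G (Φ v) := by
    by_contra h; exact h1 ⟨hx, h⟩
  have h4 : (fderivWithin ℝ R G (Φ v)).det ≠ 0 := by
    intro h; exact h2 ⟨hx, h3.1, h⟩
  have hten := tendsto_of_mono μ hR hmΦ hv h3.1.hasFDerivWithinAt h4 h3.2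
  have hten' : Tendsto Φ (𝓝[B] v) (𝓝[G] (Φ v)) := by
    rw [tendsto_nhdsWithin_iff]
    exact ⟨hten, eventually_mem_nhdsWithin.mono (fun w hw => mem_image_of_mem _ hw)⟩
  have hder : HasFDerivWithinAt R
      (((fderivWithin ℝ R G (Φ v)).toContinuousLinearEquivOfDetNeZero h4 : E ≃L[ℝ] E) : E →L[ℝ] E) G
      (Φ v) := by
    have : (((fderivWithin ℝ R G (Φ v)).toContinuousLinearEquivOfDetNeZero h4 : E ≃L[ℝ] E) : E →L[ℝ] E)
        = fderivWithin ℝ R G (Φ v) := by ext x; simp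
    rw [this]
    exact h3.1.hasFDerivWithinAt
  have hΦd := HasFDerivWithinAt.of_local_left_inverse hten' hder hv
    (eventually_mem_nhdsWithin.mono (fun w hw => hR w hw))
  have h5 : M = fun w => Φ w - w := by ext w; simp [hΦ]
  rw [h5]
  exact (hΦd.sub (hasFDerivWithinAt_id v B)).differentiableWithinAt

end Pool.Agent.H805R3.Kk
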