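import Pool.Agent.H803R2.KakFTO
import Pool.Agent.H805R3.Kk.Mono

set_option autoImplicit false

/-!
Versions of the area inequality and of the integrated line estimate of `Pool.Agent.H803R2.Kak` with
derivatives within the set of parameters only.
-/

open MeasureTheory Set Filter Topology ENNReal NNReal Metric

namespace Pool.Agent.H805R3.Kk

open Pool.Agent.H803R2.Kak

section area

variable {E : Type*} [NormedAddCommGroup E] [NormedSpace ℝ E] [FiniteDimensional ℝ E]
  [MeasurableSpace E] [BorelSpace E] (μ : Measure E) [μ.IsAddHaarMeasure]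

theorem lintegral_det_le_mulW {φ : E → E} {φ' : E → E →L[ℝ] E} {s U : Set E} {N : ℕ}
    (hs : MeasurableSet s) (hU : MeasurableSet U) (hφ : ∀ x ∈ s, HasFDerivWithinAt φ (φ' x) s x)
    (hm : Measurable φ')
    (hN : ∀ᵐ y ∂μ, {x | x ∈ s ∧ φ x = y}.encard ≤ N) :
    ∫⁻ x in {x | x ∈ s ∧ φ x ∈ U}, ENNReal.ofReal |(φ' x).det| ∂μ ≤ N * μ U := by
  classical
  -- the set where the determinant does not vanish
  set s' : Set E := {x | x ∈ s ∧ (φ' x).det ≠ 0} with hs'
  have hdet : Measurable (fun x => (φ' x).det) :=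
    ContinuousLinearMap.continuous_det.measurable.comp hm
  have hs'm : MeasurableSet s' := by
    have : s' = s ∩ {x | (φ' x).det ≠ 0} := rfl
    rw [this]
    exact hs.inter (hdet (measurableSet_singleton (0:ℝ)).compl)
  let r : (E →L[ℝ] E) → ℝ≥0 := fun A =>
    if h : A.det ≠ 0 then
      (if Subsingleton E then 1 else ‖((A.toContinuousLinearEquivOfDetNeZero h).symm : E →L[ℝ] E)‖₊⁻¹ / 2)
    else 1
  have hr : ∀ A, r A ≠ 0 := by
    intro A
    simp only [r]
    split_ifs with h1 h2
    · exact one_ne_zero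
    · have hne : Nontrivial E := not_subsingleton_iff_nontrivial.1 h2
      have : 0 < ‖((A.toContinuousLinearEquivOfDetNeZero h1).symm : E →L[ℝ] E)‖₊ := by
        have := (A.toContinuousLinearEquivOfDetNeZero h1).symm.norm_pos
        exact_mod_cast this
      positivity
    · exact one_ne_zero
  obtain ⟨t, A, hdisj, htm, hcov, happ, hA⟩ :=
    exists_partition_approximatesLinearOn_of_hasFDerivWithinAt φ s' φ'
      (fun x hx => (hφ x hx.1).mono (fun y hy => hy.1)) r hr
  have hinj : ∀ n, InjOn φ (s' ∩ t n) := by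
    intro n
    rcases s'.eq_empty_or_nonempty with he | hne
    · simp [he]
    obtain ⟨y, hy, hAy⟩ := hA hne n
    have hdy : (A n).det ≠ 0 := by rw [hAy]; exact hy.2
    have happn := happ n
    set e := (A n).toContinuousLinearEquivOfDetNeZero hdy with he
    have hcoe : (e : E →L[ℝ] E) = A n := by
      ext x; simp [he]
    have h1 : ApproximatesLinearOn φ (e : E →L[ℝ] E) (s' ∩ t n) (r (A n)) := by
      rw [hcoe]; exact happn
    refine h1.injOn ?_
    by_cases hsub : Subsingleton E
    · exact Or.inl hsub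
    · right
      have hne' : Nontrivial E := not_subsingleton_iff_nontrivial.1 hsub
      have hpos : 0 < ‖(e.symm : E →L[ℝ] E)‖₊ := by
        have := e.symm.norm_pos
        exact_mod_cast this
      have : r (A n) = ‖(e.symm : E →L[ℝ] E)‖₊⁻¹ / 2 := by
        simp only [r, dif_pos hdy, if_neg hsub, he]
      rw [this]
      exact NNReal.half_lt_self (by positivity)
  -- restrict to `U`
  have hmeasφ : Measurable (s.indicator φ) := by
    have hc : ContinuousOn φ s := fun x hx => (hφ x hx).continuousWithinAt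
    have h3 := hc.measurable_piecewise (g := fun _ => (0:E)) continuousOn_const hs
    have h4 : s.indicator φ = s.piecewise φ (fun _ => (0:E)) := by
      rw [← Set.piecewise_eq_indicator]; rfl
    rw [h4]; exact h3
  have hpre : MeasurableSet {x | x ∈ s ∧ φ x ∈ U} := by
    have : {x | x ∈ s ∧ φ x ∈ U} = s ∩ (s.indicator φ) ⁻¹' U := by
      ext x
      constructor
      · rintro ⟨h1, h2⟩; exact ⟨h1, by simpa [h1] using h2⟩
      · rintro ⟨h1, h2⟩; exact ⟨h1, by simpa [h1] using h2⟩
    rw [this]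
    exact hs.inter (hmeasφ hU)
  have hsplit : ∫⁻ x in {x | x ∈ s ∧ φ x ∈ U}, ENNReal.ofReal |(φ' x).det| ∂μ
      = ∫⁻ x in (s' ∩ {x | x ∈ s ∧ φ x ∈ U}), ENNReal.ofReal |(φ' x).det| ∂μ := by
    rw [← lintegral_indicator hpre, ← lintegral_indicator (hs'm.inter hpre)]
    congr 1
    ext x
    by_cases hx : x ∈ {x | x ∈ s ∧ φ x ∈ U}
    · by_cases hx' : (φ' x).det = 0
      · have h2 : x ∉ s' ∩ {x | x ∈ s ∧ φ x ∈ U} := fun h => h.1.2 hx'
        rw [indicator_of_mem hx, indicator_of_notMem h2, hx']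
        simp
      · have h2 : x ∈ s' ∩ {x | x ∈ s ∧ φ x ∈ U} := ⟨⟨hx.1, hx'⟩, hx⟩
        rw [indicator_of_mem hx, indicator_of_mem h2]
    · have h2 : x ∉ s' ∩ {x | x ∈ s ∧ φ x ∈ U} := fun h => hx h.2
      rw [indicator_of_notMem hx, indicator_of_notMem h2]
  rw [hsplit]
  set V : ℕ → Set E := fun n => (s' ∩ t n) ∩ {x | x ∈ s ∧ φ x ∈ U} with hV
  have hVm : ∀ n, MeasurableSet (V n) := fun n => (hs'm.inter (htm n)).inter hpre
  have hVU : s' ∩ {x | x ∈ s ∧ φ x ∈ U} = ⋃ n, V n := by
    ext x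
    constructor
    · rintro ⟨h1, h2⟩
      obtain ⟨n, hn⟩ := mem_iUnion.1 (hcov h1)
      exact mem_iUnion.2 ⟨n, ⟨⟨h1, hn⟩, h2⟩⟩
    · intro h
      obtain ⟨n, hn⟩ := mem_iUnion.1 h
      exact ⟨hn.1.1, hn.2⟩
  have hVd : Pairwise (Function.onFun Disjoint V) := by
    intro i j hij
    have := hdisj hij
    exact Set.disjoint_left.2 fun x hx hx' => (Set.disjoint_left.1 this) hx.1.2 hx'.1.2
  rw [hVU, lintegral_iUnion hVm hVd]
  have himg : ∀ n, ∫⁻ x in V n, ENNReal.ofReal |(φ' x).det| ∂μ = μ (φ '' V n) := by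
    intro n
    exact lintegral_abs_det_fderiv_eq_addHaar_image μ (hVm n)
      (fun x hx => (hφ x hx.1.1.1).mono (fun y hy => hy.1.1.1)) ((hinj n).mono inter_subset_left)
  have himgm : ∀ n, MeasurableSet (φ '' V n) := by
    intro n
    exact measurable_image_of_fderivWithin (hVm n)
      (fun x hx => (hφ x hx.1.1.1).mono (fun y hy => hy.1.1.1)) ((hinj n).mono inter_subset_left)
  calc ∑' n, ∫⁻ x in V n, ENNReal.ofReal |(φ' x).det| ∂μ
      = ∑' n, μ (φ '' V n) := by simp_rw [himg]
    _ = ∑' n, ∫⁻ y, (φ '' V n).indicator (fun _ => (1:ℝ≥0∞)) y ∂μ := by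
        congr 1; ext n; rw [lintegral_indicator_const (himgm n), one_mul]
    _ = ∫⁻ y, ∑' n, (φ '' V n).indicator (fun _ => (1:ℝ≥0∞)) y ∂μ := by
        rw [lintegral_tsum]
        intro n
        exact (measurable_const.indicator (himgm n)).aemeasurable
    _ ≤ ∫⁻ y, U.indicator (fun _ => (N:ℝ≥0∞)) y ∂μ := by
        apply lintegral_mono_ae
        filter_upwards [hN] with y hNy
        by_cases hy : y ∈ U
        · rw [indicator_of_mem hy]
          -- each n with y in the image gives a distinct preimage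
          show ∑' n, (φ '' V n).indicator (fun _ => (1:ℝ≥0∞)) y ≤ N
          rw [ENNReal.tsum_eq_iSup_sum]
          apply iSup_le
          intro S
          have hsum : ∑ n ∈ S, (φ '' V n).indicator (fun _ => (1:ℝ≥0∞)) y
              = ((S.filter (fun n => y ∈ φ '' V n)).card : ℝ≥0∞) := by
            rw [Finset.card_filter]
            push_cast
            apply Finset.sum_congr rfl
            intro n _
            by_cases h : y ∈ φ '' V n
            · simp [h]
            · simp [h]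
          rw [hsum]
          have hcard : ((S.filter (fun n => y ∈ φ '' V n)).card : ℕ∞) ≤ N := by
            refine le_trans ?_ hNy
            choose! g hg using fun n (h : y ∈ φ '' V n) => h
            have hinjg : InjOn g (S.filter (fun n => y ∈ φ '' V n) : Set ℕ) := by
              intro i hi j hj hij
              by_contra hne
              have h1 := (Finset.mem_filter.1 (Finset.mem_coe.1 hi)).2
              have h2 := (Finset.mem_filter.1 (Finset.mem_coe.1 hj)).2
              have h3 := hg i h1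
              have h4 := hg j h2
              rw [hij] at h3
              exact (Set.disjoint_left.1 (hVd hne)) h3.1 h4.1
            have himg2 : g '' (S.filter (fun n => y ∈ φ '' V n) : Set ℕ) ⊆ {x | x ∈ s ∧ φ x = y} := by
              rintro x ⟨n, hn, rfl⟩
              have h1 := (Finset.mem_filter.1 (Finset.mem_coe.1 hn)).2
              have h3 := hg n h1
              exact ⟨h3.1.2.1, h3.2⟩
            have := Set.encard_le_encard himg2
            rw [hinjg.encard_image, Set.encard_coe_eq_coe_finsetCard] at this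
            exact this
          exact_mod_cast hcard
        · rw [indicator_of_notMem hy]
          have : ∀ n, (φ '' V n).indicator (fun _ => (1:ℝ≥0∞)) y = 0 := by
            intro n
            apply indicator_of_notMem
            rintro ⟨x, hx, rfl⟩
            exact hy hx.2.2
          simp [this]
    _ = N * μ U := by rw [lintegral_indicator_const hU]

/-- Area inequality for functions; only the non-degenerate points are counted. -/
theorem lintegral_comp_det_leW {φ : E → E} {φ' : E → E →L[ℝ] E} {s : Set E} {N : ℕ}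
    (hs : MeasurableSet s) (hφ : ∀ x ∈ s, HasFDerivWithinAt φ (φ' x) s x) (hm : Measurable φ')
    (hN : ∀ᵐ y ∂μ, {x | x ∈ s ∧ φ x = y ∧ (φ' x).det ≠ 0}.encard ≤ N)
    {H : E → ℝ≥0∞} (hH : Measurable H) :
    ∫⁻ x in s, H (φ x) * ENNReal.ofReal |(φ' x).det| ∂μ ≤ N * ∫⁻ y, H y ∂μ := by
  classical
  have hdet : Measurable (fun x => (φ' x).det) :=
    ContinuousLinearMap.continuous_det.measurable.comp hm
  set s' : Set E := {x | x ∈ s ∧ (φ' x).det ≠ 0} with hs'
  have hs'm : MeasurableSet s' := hs.inter (hdet (measurableSet_singleton (0:ℝ)).compl)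
  have hJm : Measurable (fun x => ENNReal.ofReal |(φ' x).det|) :=
    (hdet.abs).ennreal_ofReal
  have hcont : ContinuousOn φ s' := fun x hx => (hφ x hx.1).continuousWithinAt.mono (fun y hy => hy.1)
  have hae : AEMeasurable φ (μ.restrict s') := hcont.aemeasurable hs'm
  -- restrict to `s'`
  have h1 : ∫⁻ x in s, H (φ x) * ENNReal.ofReal |(φ' x).det| ∂μ
      = ∫⁻ x in s', H (φ x) * ENNReal.ofReal |(φ' x).det| ∂μ := by
    rw [← lintegral_indicator hs, ← lintegral_indicator hs'm]
    congr 1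
    ext x
    by_cases hx : x ∈ s
    · by_cases hx2 : (φ' x).det = 0
      · have : x ∉ s' := fun h => h.2 hx2
        rw [indicator_of_mem hx, indicator_of_notMem this, hx2]
        simp
      · have : x ∈ s' := ⟨hx, hx2⟩
        rw [indicator_of_mem hx, indicator_of_mem this]
    · have : x ∉ s' := fun h => hx h.1
      rw [indicator_of_notMem hx, indicator_of_notMem this]
  rw [h1]
  set ν := (μ.restrict s').withDensity (fun x => ENNReal.ofReal |(φ' x).det|) with hν
  have haeν : AEMeasurable φ ν := hae.mono_ac (withDensity_absolutelyContinuous _ _)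
  have hmap : Measure.map φ ν ≤ (N : ℝ≥0∞) • μ := by
    rw [Measure.le_iff]
    intro U hU
    rw [Measure.map_apply_of_aemeasurable haeν hU, hν, withDensity_apply',
      Measure.restrict_restrict' hs'm, Measure.smul_apply, smul_eq_mul]
    have h2 := lintegral_det_le_mulW μ (s := s') (U := U) (N := N) (φ := φ) (φ' := φ') hs'm hU
      (fun x hx => (hφ x hx.1).mono (fun y hy => hy.1)) hm (by
        filter_upwards [hN] with y hNy
        refine le_trans (Set.encard_le_encard ?_) hNy
        rintro x ⟨⟨hx1, hx2⟩, hx3⟩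
        exact ⟨hx1, hx3, hx2⟩)
    have h3 : φ ⁻¹' U ∩ s' = {x | x ∈ s' ∧ φ x ∈ U} := by
      ext x; simp [and_comm]
    rw [h3]
    exact h2
  have hHae : AEMeasurable (fun x => H (φ x)) (μ.restrict s') := hH.comp_aemeasurable hae
  calc ∫⁻ x in s', H (φ x) * ENNReal.ofReal |(φ' x).det| ∂μ
      = ∫⁻ x, H (φ x) ∂ν := by
        rw [hν, lintegral_withDensity_eq_lintegral_mul₀ hJm.aemeasurable hHae]
        simp only [Pi.mul_apply, mul_comm]
    _ = ∫⁻ y, H y ∂(Measure.map φ ν) := (lintegral_map' hH.aemeasurable haeν).symm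
    _ ≤ ∫⁻ y, H y ∂((N : ℝ≥0∞) • μ) := lintegral_mono' hmap le_rfl
    _ = N * ∫⁻ y, H y ∂μ := by rw [lintegral_smul_measure, smul_eq_mul]

end area

variable {d : ℕ}

theorem measurable_indicator_of_continuousOn {B : Set (EuclideanSpace ℝ (Fin d))}
    (hB : MeasurableSet B) {b : (EuclideanSpace ℝ (Fin d)) → (EuclideanSpace ℝ (Fin d))}
    (hc : ContinuousOn b B) : Measurable (B.indicator b) := by
  classical
  have := hc.measurable_piecewise (g := fun _ => (0:(EuclideanSpace ℝ (Fin d)))) continuousOn_const hB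
  convert this using 1
  ext v
  by_cases hv : v ∈ B
  · simp [hv]
  · simp [hv]

theorem integratedW (hd : 1 ≤ d) {N : ℕ} {B : Set (EuclideanSpace ℝ (Fin d))} (hB : MeasurableSet B)
    (hB1 : B ⊆ closedBall 0 1) {b : (EuclideanSpace ℝ (Fin d)) → (EuclideanSpace ℝ (Fin d))} {b' : (EuclideanSpace ℝ (Fin d)) → (EuclideanSpace ℝ (Fin d)) →L[ℝ] (EuclideanSpace ℝ (Fin d))}
    (hb : ∀ v ∈ B, HasFDerivWithinAt b (b' v) B v) (hfd : Measurable b')
    {T : Set ℝ}
    (hN : ∀ᵐ t : ℝ, t ∈ T → ∀ᵐ y : (EuclideanSpace ℝ (Fin d)), {v | v ∈ B ∧ b v + t • v = y ∧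
      (b' v + t • ContinuousLinearMap.id ℝ (EuclideanSpace ℝ (Fin d))).det ≠ 0}.encard ≤ N)
    {δ : ℝ} (hδ : 0 < δ) {f : (EuclideanSpace ℝ (Fin d)) × ℝ → ℝ≥0∞} (hf : Measurable f)
    (hfT : ∀ y t, t ∉ T → f (y, t) = 0) :
    ∫⁻ v in B, (⨆ h : ℝ, (∫⁻ t in Icc h (h+3), moll (2*δ) f (b v + t • v, t)) ^ (d+1))
      ≤ 2^(d+1) * ((2 * d * ENNReal.ofReal (Real.log (1 + 3/δ)))^d * N + d^d)
        * ∫⁻ p, f p ^ (d+1) := by
  classical
  set b₀ := B.indicator b with hb₀
  have hb₀m : Measurable b₀ := measurable_indicator_of_continuousOn hB (fun v hv => (hb v hv).continuousWithinAt)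
  have hbb : ∀ v ∈ B, b₀ v = b v := fun v hv => indicator_of_mem hv b
  set A : ℝ≥0∞ := (2 * d * ENNReal.ofReal (Real.log (1 + 3/δ)))^d with hA
  set D : ℝ≥0∞ := (2 * d * ENNReal.ofReal δ) ^ d with hD
  have h2δ : 0 < 2 * δ := by linarith
  set G : (EuclideanSpace ℝ (Fin d)) → ℝ → ℝ≥0∞ := fun v t => moll (2*δ) f (b₀ v + t • v, t) with hG
  set J : (EuclideanSpace ℝ (Fin d)) → ℝ → ℝ≥0∞ := fun v t =>
    ENNReal.ofReal |(b' v + t • ContinuousLinearMap.id ℝ (EuclideanSpace ℝ (Fin d))).det| with hJ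
  have hmm := measurable_moll (r := 2*δ) hf
  have hGm : Measurable (fun q : (EuclideanSpace ℝ (Fin d)) × ℝ => G q.1 q.2) := by
    apply hmm.comp
    fun_prop
  have hJm : Measurable (fun q : (EuclideanSpace ℝ (Fin d)) × ℝ => J q.1 q.2) := by
    apply Measurable.ennreal_ofReal
    apply Measurable.abs
    apply ContinuousLinearMap.continuous_det.measurable.comp
    have h1 : Measurable (fun q : (EuclideanSpace ℝ (Fin d)) × ℝ => b' q.1) := hfd.comp measurable_fst
    have h2 : Measurable (fun q : (EuclideanSpace ℝ (Fin d)) × ℝ => q.2 • ContinuousLinearMap.id ℝ (EuclideanSpace ℝ (Fin d))) := by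
      have hc : Continuous (fun q : (EuclideanSpace ℝ (Fin d)) × ℝ => q.2 • ContinuousLinearMap.id ℝ (EuclideanSpace ℝ (Fin d))) := by fun_prop
      exact hc.measurable
    exact h1.add h2
  have hGeq : ∀ v ∈ B, ∀ t, G v t = moll (2*δ) f (b v + t • v, t) := by
    intro v hv t
    rw [hG]; simp only; rw [hbb v hv]
  have hGmoll : ∀ v t, ∃ y : (EuclideanSpace ℝ (Fin d)), G v t = moll (2*δ) f (y, t) := fun v t => ⟨_, rfl⟩
  have hJeq : ∀ v t, J v t
      = ENNReal.ofReal |(b' v + t • ContinuousLinearMap.id ℝ (EuclideanSpace ℝ (Fin d))).det| := fun v t => rfl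
  clear_value G J
  have hpt : ∀ v ∈ B, (⨆ h : ℝ, (∫⁻ t in Icc h (h+3), moll (2*δ) f (b v + t • v, t)) ^ (d+1))
      ≤ 2^(d+1) * (A * (∫⁻ t, G v t ^ (d+1) * J v t) + D * (∫⁻ t, G v t ^ (d+1))) := by
    intro v hv
    apply iSup_le
    intro h
    obtain ⟨μ, hμc, hμ⟩ := det_centers (b' v)
    rw [finrank_euclideanSpace_fin] at hμc
    have hGv : Measurable (G v) := hGm.comp measurable_prodMk_left
    have hJv : Measurable (J v) := hJm.comp measurable_prodMk_left
    have := line_estimate hd hμc hδ hJv (fun t => by rw [hJeq]; exact ENNReal.ofReal_ne_top)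
      (fun t => by rw [hJeq]; exact ENNReal.ofReal_le_ofReal (hμ t)) hGv h
    have he : (fun t => moll (2*δ) f (b v + t • v, t)) = G v := by
      ext t; rw [hGeq v hv]
    calc (∫⁻ t in Icc h (h+3), moll (2*δ) f (b v + t • v, t)) ^ (d+1)
        = (∫⁻ t in Icc h (h+3), G v t) ^ (d+1) := by rw [← he]
      _ ≤ _ := this
  have hI1m : Measurable (fun v => ∫⁻ t, G v t ^ (d+1) * J v t) :=
    ((hGm.pow_const (d+1)).mul hJm).lintegral_prod_right'
  have hI2m : Measurable (fun v => ∫⁻ t, G v t ^ (d+1)) :=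
    (hGm.pow_const (d+1)).lintegral_prod_right'
  have hfp : Measurable (fun q => f q ^ (d+1)) := hf.pow_const (d+1)
  set S := ∫⁻ p, f p ^ (d+1) with hS
  have hS2 : S = ∫⁻ t : ℝ, ∫⁻ y : (EuclideanSpace ℝ (Fin d)), f (y, t) ^ (d+1) := by
    rw [hS, Measure.volume_eq_prod, lintegral_prod_symm _ hfp.aemeasurable]
  have hI1 : ∫⁻ v in B, ∫⁻ t, G v t ^ (d+1) * J v t ≤ N * S := by
    rw [lintegral_lintegral_swap ((hGm.pow_const (d+1)).mul hJm).aemeasurable]
    rw [hS2, ← lintegral_const_mul _ (hfp.lintegral_prod_left')]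
    apply lintegral_mono_ae
    filter_upwards [hN] with t ht
    by_cases htT : t ∈ T
    swap
    · have h0 : ∀ v, G v t = 0 := by
        intro v
        obtain ⟨y, hy⟩ := hGmoll v t
        rw [hy]
        simp [moll, hfT _ t htT]
      simp [h0]
    replace ht := ht htT
    have hder : ∀ v ∈ B, HasFDerivWithinAt (fun v => b v + t • v)
        (b' v + t • ContinuousLinearMap.id ℝ (EuclideanSpace ℝ (Fin d))) B v := by
      intro v hv
      exact (hb v hv).add ((hasFDerivWithinAt_id v B).const_smul t)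
    have hH : Measurable (fun y : (EuclideanSpace ℝ (Fin d)) => moll (2*δ) f (y, t) ^ (d+1)) :=
      (hmm.comp measurable_prodMk_right).pow_const _
    have h1 := lintegral_comp_det_leW (volume : Measure (EuclideanSpace ℝ (Fin d))) hB hder
      (hfd.add_const _) ht hH
    calc ∫⁻ v in B, G v t ^ (d+1) * J v t
        = ∫⁻ v in B, moll (2*δ) f (b v + t • v, t) ^ (d+1) *
          ENNReal.ofReal |(b' v + t • ContinuousLinearMap.id ℝ (EuclideanSpace ℝ (Fin d))).det| := by
          apply setLIntegral_congr_fun hB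
          intro v hv
          simp only
          rw [hGeq v hv, hJeq]
      _ ≤ N * ∫⁻ y : (EuclideanSpace ℝ (Fin d)), moll (2*δ) f (y, t) ^ (d+1) := h1
      _ ≤ N * ∫⁻ y : (EuclideanSpace ℝ (Fin d)), moll (2*δ) (fun q => f q ^ (d+1)) (y, t) := by
          gcongr with y
          exact moll_pow_le hd h2δ hf (y, t)
      _ = N * ∫⁻ y : (EuclideanSpace ℝ (Fin d)), f (y, t) ^ (d+1) := by rw [lintegral_moll h2δ hfp t]
  have hV0 := (vol_pos (d := d) h2δ).ne'
  have hVt := (vol_lt_top (d := d) (r := 2*δ)).ne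
  have hI2 : D * ∫⁻ v in B, ∫⁻ t, G v t ^ (d+1) ≤ d ^ d * S := by
    have h1 : ∀ v, ∫⁻ t, G v t ^ (d+1) ≤ (volume (closedBall (0:(EuclideanSpace ℝ (Fin d))) (2*δ)))⁻¹ * S := by
      intro v
      rw [hS2, ← lintegral_const_mul _ (hfp.lintegral_prod_left')]
      apply lintegral_mono
      intro t
      obtain ⟨y, hy⟩ := hGmoll v t
      simp only
      rw [hy]
      exact (moll_pow_le hd h2δ hf _).trans (moll_le _ _ _)
    calc D * ∫⁻ v in B, ∫⁻ t, G v t ^ (d+1)
        ≤ D * ∫⁻ v in B, (volume (closedBall (0:(EuclideanSpace ℝ (Fin d))) (2*δ)))⁻¹ * S := by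
          gcongr with v
          exact h1 v
      _ = D * ((volume (closedBall (0:(EuclideanSpace ℝ (Fin d))) (2*δ)))⁻¹ * S * volume B) := by
          rw [lintegral_const, Measure.restrict_apply_univ]
      _ ≤ D * ((volume (closedBall (0:(EuclideanSpace ℝ (Fin d))) (2*δ)))⁻¹ * S * volume (closedBall (0:(EuclideanSpace ℝ (Fin d))) 1)) := by
          gcongr
      _ = d ^ d * S := by
          rw [vol_ball_scale h2δ, hD]
          have hω0 := (vol_pos (d := d) one_pos).ne'
          have hωt := (vol_lt_top (d := d) (r := 1)).ne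
          set ω := volume (closedBall (0:(EuclideanSpace ℝ (Fin d))) 1)
          have h3 : (2 * (d:ℝ≥0∞) * ENNReal.ofReal δ) ^ d
              = d ^ d * (ENNReal.ofReal (2*δ)) ^ d := by
            rw [← mul_pow, ENNReal.ofReal_mul (by norm_num)]
            congr 1
            rw [show ENNReal.ofReal 2 = 2 by simp]
            ring
          have h4 : (ENNReal.ofReal (2*δ)) ^ d ≠ 0 := by
            apply pow_ne_zero
            simpa using h2δ
          have h5 : (ENNReal.ofReal (2*δ)) ^ d ≠ ∞ := ENNReal.pow_ne_top ENNReal.ofReal_ne_top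
          rw [h3, ENNReal.mul_inv (Or.inl h4) (Or.inl h5)]
          set P := (ENNReal.ofReal (2*δ)) ^ d
          calc (d:ℝ≥0∞) ^ d * P * (P⁻¹ * ω⁻¹ * S * ω)
              = (d:ℝ≥0∞) ^ d * S * (P * P⁻¹) * (ω⁻¹ * ω) := by ring
            _ = d ^ d * S := by
              rw [ENNReal.mul_inv_cancel h4 h5, ENNReal.inv_mul_cancel hω0 hωt, mul_one, mul_one]
  calc ∫⁻ v in B, (⨆ h : ℝ, (∫⁻ t in Icc h (h+3), moll (2*δ) f (b v + t • v, t)) ^ (d+1))
      ≤ ∫⁻ v in B, 2^(d+1) * (A * (∫⁻ t, G v t ^ (d+1) * J v t)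
          + D * (∫⁻ t, G v t ^ (d+1))) := setLIntegral_mono' hB hpt
    _ = 2^(d+1) * (A * (∫⁻ v in B, ∫⁻ t, G v t ^ (d+1) * J v t)
          + D * (∫⁻ v in B, ∫⁻ t, G v t ^ (d+1))) := by
        exact lintegral_comb _ hI1m hI2m _ _ _
    _ ≤ 2^(d+1) * (A * (N * S) + d ^ d * S) := by gcongr
    _ = 2^(d+1) * (A * N + d ^ d) * S := by ring

end Pool.Agent.H805R3.Kk
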