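import Pool.Agent.H805R3.Kk.Schur

set_option autoImplicit false

/-!
The expected multiplicity of a randomly perturbed family of lines.
-/

open MeasureTheory Set Filter Topology ENNReal NNReal Metric

namespace Pool.Agent.H805R3.Kk.Gen

open Pool.Agent.H803R2.Kak Pool.Agent.H803R2.KakFTO Pool.Agent.H805R3.Kk

variable {d : ℕ}

/-- The family `a` perturbed by the diagonal linear map with entries `l`. -/
noncomputable def perturb (a : Vec d → Vec d) (l : Fin d → ℝ) (v : Vec d) : Vec d :=
  a v + WithLp.toLp 2 (fun i => l i * v i)

theorem lint_prod (μ : Measure ℝ) [SigmaFinite μ] : ∀ (n : ℕ) (f : Fin n → ℝ → ℝ≥0∞),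
    (∀ i, Measurable (f i)) →
    ∫⁻ x : Fin n → ℝ, ∏ i, f i (x i) ∂(Measure.pi fun _ => μ) = ∏ i, ∫⁻ x, f i x ∂μ := by
  intro n
  induction n with
  | zero => intro f _; simp
  | succ n ih =>
    intro f hf
    have hmp := (measurePreserving_piFinSuccAbove (fun _ : Fin (n + 1) => μ) 0).symm
    rw [← hmp.lintegral_comp_emb (MeasurableEquiv.measurableEmbedding _)]
    simp_rw [MeasurableEquiv.piFinSuccAbove_symm_apply, Fin.insertNthEquiv,
      Fin.prod_univ_succ, Fin.insertNth_zero]
    simp only [Equiv.coe_fn_mk, Fin.cons_succ, Fin.cons_zero, cast_eq]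
    have h := lintegral_prod_mul (μ := μ) (ν := Measure.pi fun _ : Fin n => μ)
      (f := fun x => f 0 x) (g := fun y => ∏ i : Fin n, f i.succ (y i))
      (hf 0).aemeasurable
      (Finset.measurable_prod _ (fun i _ => (hf i.succ).comp (measurable_pi_apply i))).aemeasurable
    rw [← ih (fun i => f i.succ) (fun i => hf i.succ)]
    exact h

/-- One-dimensional small ball bound. -/
noncomputable def kap (L r u : ℝ) : ℝ≥0∞ :=
  min (ENNReal.ofReal (2*L)) (ENNReal.ofReal (4*r) * (ENNReal.ofReal |u|)⁻¹)

theorem measurable_kap (L r : ℝ) : Measurable (kap L r) := by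
  unfold kap
  exact measurable_const.min ((measurable_id.abs.ennreal_ofReal.inv).const_mul _)

/-- indicator of an interval -/
noncomputable def slab (r x : ℝ) : ℝ≥0∞ :=
  (Icc (-(2*r)) (2*r)).indicator (fun _ => (1:ℝ≥0∞)) x

theorem measurable_slab (r : ℝ) : Measurable (slab r) :=
  measurable_const.indicator measurableSet_Icc

theorem slab_le_one (r x : ℝ) : slab r x ≤ 1 := by
  unfold slab
  by_cases h : x ∈ Icc (-(2*r)) (2*r)
  · rw [indicator_of_mem h]
  · rw [indicator_of_notMem h]; exact zero_le

theorem slab_int {L r : ℝ} (hr : 0 < r) (c u : ℝ) :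
    ∫⁻ x in Icc (-L) L, slab r (c + x * u) ≤ kap L r u := by
  apply le_min
  · calc ∫⁻ x in Icc (-L) L, slab r (c + x * u) ≤ ∫⁻ _x in Icc (-L) L, 1 :=
          lintegral_mono (fun x => slab_le_one _ _)
      _ = ENNReal.ofReal (2*L) := by
          rw [lintegral_one, Measure.restrict_apply_univ, Real.volume_Icc]
          congr 1; ring
  · by_cases hu : u = 0
    · rw [hu, abs_zero, ENNReal.ofReal_zero, ENNReal.inv_zero, ENNReal.mul_top]
      · exact le_top
      · simpa using hr
    · have hau : 0 < |u| := abs_pos.2 hu
      calc ∫⁻ x in Icc (-L) L, slab r (c + x * u) ≤ ∫⁻ x, slab r (c + x * u) :=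
            setLIntegral_le_lintegral _ _
        _ ≤ ∫⁻ x, (closedBall (-c/u) (2*r/|u|)).indicator (fun _ => (1:ℝ≥0∞)) x := by
            apply lintegral_mono
            intro x
            unfold slab
            by_cases h : c + x * u ∈ Icc (-(2*r)) (2*r)
            · have hx : x ∈ closedBall (-c/u) (2*r/|u|) := by
                rw [mem_closedBall, Real.dist_eq, le_div_iff₀ hau, ← abs_mul]
                have e : (x - -c / u) * u = c + x * u := by field_simp; ring
                rw [e, abs_le]
                exact ⟨h.1, h.2⟩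
              simp only
              rw [indicator_of_mem h, indicator_of_mem hx]
            · simp only
              rw [indicator_of_notMem h]; exact zero_le
        _ = ENNReal.ofReal (2 * (2*r/|u|)) := by
            rw [lintegral_indicator_const measurableSet_closedBall, one_mul, Real.volume_closedBall]
        _ = ENNReal.ofReal (4*r) * (ENNReal.ofReal |u|)⁻¹ := by
            rw [← ENNReal.ofReal_inv_of_pos hau, ← ENNReal.ofReal_mul (by positivity)]
            congr 1
            field_simp
            ring

theorem kap_int {L r : ℝ} (hL : 0 < L) (hr : 0 < r) (m : ℝ) :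
    ∫⁻ x in Icc (-1:ℝ) 1, kap L r (m - x)
      ≤ ENNReal.ofReal (r * (4 * L + 8 * Real.log (1 + 3 / r))) := by
  have hlog : 0 ≤ Real.log (1 + 3 / r) := Real.log_nonneg (by
    have : 0 < 3 / r := by positivity
    linarith)
  have hsub : Icc (-1:ℝ) 1 ⊆ closedBall m r ∪ {t | t ∈ Icc (-1:ℝ) (-1 + 3) ∧ r ≤ |t - m|} := by
    intro x hx
    by_cases h : |x - m| ≤ r
    · left; rw [mem_closedBall, Real.dist_eq]; exact h
    · right; exact ⟨⟨hx.1, by linarith [hx.2]⟩, le_of_lt (not_le.1 h)⟩
  calc ∫⁻ x in Icc (-1:ℝ) 1, kap L r (m - x)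
      ≤ ∫⁻ x in closedBall m r ∪ {t | t ∈ Icc (-1:ℝ) (-1 + 3) ∧ r ≤ |t - m|}, kap L r (m - x) :=
        lintegral_mono_set hsub
    _ ≤ (∫⁻ x in closedBall m r, kap L r (m - x))
        + (∫⁻ x in {t | t ∈ Icc (-1:ℝ) (-1 + 3) ∧ r ≤ |t - m|}, kap L r (m - x)) :=
        lintegral_union_le _ _ _
    _ ≤ ENNReal.ofReal (2*L) * ENNReal.ofReal (2*r)
        + ENNReal.ofReal (4*r) * (2 * ENNReal.ofReal (Real.log (1 + 3 / r))) := by
        apply add_le_add
        · calc ∫⁻ x in closedBall m r, kap L r (m - x)
              ≤ ∫⁻ _x in closedBall m r, ENNReal.ofReal (2*L) :=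
                lintegral_mono (fun x => min_le_left _ _)
            _ = _ := by
                rw [lintegral_const, Measure.restrict_apply_univ, Real.volume_closedBall]
        · calc ∫⁻ x in {t | t ∈ Icc (-1:ℝ) (-1 + 3) ∧ r ≤ |t - m|}, kap L r (m - x)
              ≤ ∫⁻ x in {t | t ∈ Icc (-1:ℝ) (-1 + 3) ∧ r ≤ |t - m|},
                  ENNReal.ofReal (4*r) * (ENNReal.ofReal |x - m|)⁻¹ := by
                apply lintegral_mono
                intro x
                have : |m - x| = |x - m| := abs_sub_comm m x
                show kap L r (m - x) ≤ _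
                unfold kap
                rw [this]
                exact min_le_right _ _
            _ = ENNReal.ofReal (4*r) * ∫⁻ x in {t | t ∈ Icc (-1:ℝ) (-1 + 3) ∧ r ≤ |t - m|},
                  (ENNReal.ofReal |x - m|)⁻¹ := by
                rw [lintegral_const_mul' _ _ ENNReal.ofReal_ne_top]
            _ ≤ _ := by
                gcongr
                exact lint_away hr
    _ = _ := by
        have e2 : (2:ℝ≥0∞) = ENNReal.ofReal 2 := by simp
        rw [e2, ← ENNReal.ofReal_mul (by positivity), ← ENNReal.ofReal_mul (by norm_num),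
          ← ENNReal.ofReal_mul (by positivity), ← ENNReal.ofReal_add (by positivity) (by positivity)]
        congr 1
        ring

theorem measurable_perturb {a : Vec d → Vec d} (ha : Measurable a) {α : Type*} [MeasurableSpace α]
    {f : α → Fin d → ℝ} {g : α → Vec d} (hf : Measurable f) (hg : Measurable g) :
    Measurable (fun x => perturb a (f x) (g x)) := by
  unfold perturb
  refine (ha.comp hg).add ?_
  have h1 : Measurable (fun x => (fun i => f x i * (g x) i : Fin d → ℝ)) := by
    rw [measurable_pi_iff]
    intro i
    exact ((measurable_pi_apply i).comp hf).mul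
      (((PiLp.continuous_apply 2 _ i).measurable).comp hg)
  exact (WithLp.measurable_toLp 2 (Fin d → ℝ)).comp h1

theorem ind_le_prod (r : ℝ) (x : Vec d) : ind (2*r) x ≤ ∏ i, slab r (x i) := by
  by_cases h : ‖x‖ ≤ 2 * r
  · rw [ind_of_le h]
    apply le_of_eq
    symm
    apply Finset.prod_eq_one
    intro i _
    unfold slab
    apply indicator_of_mem
    have h1 : |x i| ≤ ‖x‖ := by
      have := PiLp.norm_apply_le x i
      simpa using this
    rw [mem_Icc]
    exact abs_le.1 (h1.trans h)
  · rw [ind_of_not h]; exact zero_le

/-- The expected measure of the set of lines that come near a given line at a given height. -/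
theorem expect {L r : ℝ} (hL : 0 < L) (hr : 0 < r) {a : Vec d → Vec d} (ha : Measurable a)
    (v : Vec d) (t : ℝ) :
    ∫⁻ l : Fin d → ℝ, (∫⁻ w in closedBall (0:Vec d) 1,
      ind (2*r) ((perturb a l v + t • v) - (perturb a l w + t • w)))
        ∂(Measure.pi fun _ : Fin d => volume.restrict (Icc (-L) L))
      ≤ (ENNReal.ofReal (r * (4 * L + 8 * Real.log (1 + 3 / r)))) ^ d := by
  set lam := Measure.pi fun _ : Fin d => (volume : Measure ℝ).restrict (Icc (-L) L) with hlam
  have hm : Measurable (fun q : (Fin d → ℝ) × Vec d =>
      ind (2*r) ((perturb a q.1 v + t • v) - (perturb a q.1 q.2 + t • q.2))) := by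
    apply measurable_ind_comp
    exact ((measurable_perturb ha measurable_fst measurable_const).add measurable_const).sub
      ((measurable_perturb ha measurable_fst measurable_snd).add (measurable_snd.const_smul t))
  rw [lintegral_lintegral_swap hm.aemeasurable]
  have hinner : ∀ w : Vec d, ∫⁻ l : Fin d → ℝ,
      ind (2*r) ((perturb a l v + t • v) - (perturb a l w + t • w)) ∂lam
      ≤ ∏ i, kap L r (v i - w i) := by
    intro w
    calc ∫⁻ l : Fin d → ℝ, ind (2*r) ((perturb a l v + t • v) - (perturb a l w + t • w)) ∂lam
        ≤ ∫⁻ l : Fin d → ℝ, ∏ i, slab r ((a v i - a w i + t * (v i - w i)) + l i * (v i - w i))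
            ∂lam := by
          apply lintegral_mono
          intro l
          refine (ind_le_prod r _).trans (le_of_eq ?_)
          apply Finset.prod_congr rfl
          intro i _
          congr 1
          simp only [perturb, PiLp.sub_apply, PiLp.add_apply, PiLp.smul_apply, smul_eq_mul]
          ring
      _ = ∏ i, ∫⁻ x in Icc (-L) L, slab r ((a v i - a w i + t * (v i - w i)) + x * (v i - w i)) := by
          rw [hlam]
          exact lint_prod _ d (fun i x => slab r ((a v i - a w i + t * (v i - w i))
            + x * (v i - w i))) (fun i => (measurable_slab r).comp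
              ((measurable_id.mul_const _).const_add _))
      _ ≤ _ := Finset.prod_le_prod' (fun i _ => slab_int hr _ _)
  calc ∫⁻ w in closedBall (0:Vec d) 1, ∫⁻ l : Fin d → ℝ,
        ind (2*r) ((perturb a l v + t • v) - (perturb a l w + t • w)) ∂lam
      ≤ ∫⁻ w in closedBall (0:Vec d) 1, ∏ i, kap L r (v i - w i) := lintegral_mono hinner
    _ ≤ ∫⁻ w : Vec d, ∏ i, (Icc (-1:ℝ) 1).indicator (fun x => kap L r (v i - x)) (w i) := by
        rw [← lintegral_indicator measurableSet_closedBall]
        apply lintegral_mono
        intro w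
        by_cases hw : w ∈ closedBall (0:Vec d) 1
        · rw [indicator_of_mem hw]
          apply le_of_eq
          apply Finset.prod_congr rfl
          intro i _
          rw [indicator_of_mem]
          have h1 : |w i| ≤ ‖w‖ := by
            have := PiLp.norm_apply_le w i
            simpa using this
          have h2 : ‖w‖ ≤ 1 := by simpa using hw
          rw [mem_Icc]
          exact abs_le.1 (h1.trans h2)
        · rw [indicator_of_notMem hw]; exact zero_le
    _ = ∫⁻ x : Fin d → ℝ, ∏ i, (Icc (-1:ℝ) 1).indicator (fun x => kap L r (v i - x)) (x i) := by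
        have hmp := PiLp.volume_preserving_ofLp (Fin d)
        have hmeas : Measurable (fun x : Fin d → ℝ =>
            ∏ i, (Icc (-1:ℝ) 1).indicator (fun x => kap L r (v i - x)) (x i)) := by
          apply Finset.measurable_prod
          intro i _
          exact (((measurable_kap L r).comp (measurable_id.const_sub (v i))).indicator
            measurableSet_Icc).comp (measurable_pi_apply i)
        exact hmp.lintegral_comp hmeas
    _ = ∏ i, ∫⁻ x, (Icc (-1:ℝ) 1).indicator (fun x => kap L r (v i - x)) x := by
        rw [volume_pi]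
        exact lint_prod volume d (fun i => (Icc (-1:ℝ) 1).indicator (fun x => kap L r (v i - x)))
          (fun i => ((measurable_kap L r).comp (measurable_id.const_sub (v i))).indicator
            measurableSet_Icc)
    _ ≤ ∏ _i : Fin d, ENNReal.ofReal (r * (4 * L + 8 * Real.log (1 + 3 / r))) := by
        apply Finset.prod_le_prod'
        intro i _
        rw [lintegral_indicator measurableSet_Icc]
        exact kap_int hL hr (v i)
    _ = _ := by simp

end Pool.Agent.H805R3.Kk.Gen
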