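import Pool.Agent.H805R3.Kk.Schur

set_option autoImplicit false

/-!
The weighted estimate for the tube maximal function, exponents `p ≥ 2`.
-/

open MeasureTheory Set Filter Topology ENNReal NNReal Metric

namespace Pool.Agent.H805R3.Kk.Gen

open Pool.Agent.H803R2.Kak Pool.Agent.H803R2.KakFTO Pool.Agent.H805R3.Kk

variable {d : ℕ}

theorem lintegral_rpow_le1 {α : Type*} [MeasurableSpace α] (ν : Measure α) {q : ℝ} (hq : 1 ≤ q)
    {f : α → ℝ≥0∞} (hf : AEMeasurable f ν) :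
    (∫⁻ a, f a ∂ν) ^ q ≤ (∫⁻ a, f a ^ q ∂ν) * (ν univ) ^ (q - 1) := by
  rcases hq.eq_or_lt with h | h
  · subst h; simp
  · exact lintegral_rpow_le ν h hf

theorem moll_rpow_le1 {q : ℝ} (hq : 1 ≤ q) {r : ℝ} (hr : 0 < r)
    {f : Vec d × ℝ → ℝ≥0∞} (hf : Measurable f) (z : Vec d × ℝ) :
    moll r f z ^ q ≤ moll r (fun z => f z ^ q) z := by
  rcases hq.eq_or_lt with h | h
  · subst h; simp
  · exact moll_rpow_le h hr hf z

/-- Passing from exponent `p` to exponent `2` on one line. -/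
theorem line_pow {p : ℝ} (hp : 2 ≤ p) {r : ℝ} (hr : 0 < r) {b : Vec d → Vec d}
    {F : Vec d × ℝ → ℝ≥0∞} (hF : Measurable F) (v : Vec d) (h : ℝ) :
    (∫⁻ t in Icc h (h+3), moll r F (b v + t • v, t)) ^ p
      ≤ 3 ^ (p - 2) * (∫⁻ t in Icc h (h+3), moll r (fun z => F z ^ (p/2)) (b v + t • v, t)) ^ 2 := by
  have hq : 1 ≤ p / 2 := by linarith
  have hline : Measurable (fun t : ℝ => (b v + t • v, t)) :=
    (measurable_const.add (measurable_id.smul measurable_const)).prodMk measurable_id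
  have hG : Measurable (fun t : ℝ => moll r F (b v + t • v, t)) := (measurable_moll hF).comp hline
  have h1 := lintegral_rpow_le1 (volume.restrict (Icc h (h+3))) hq hG.aemeasurable
  rw [Measure.restrict_apply_univ, Real.volume_Icc] at h1
  have e3 : ENNReal.ofReal (h + 3 - h) = 3 := by
    have : h + 3 - h = 3 := by ring
    rw [this]; simp
  rw [e3] at h1
  have h2 : (∫⁻ t in Icc h (h+3), moll r F (b v + t • v, t)) ^ (p/2)
      ≤ (∫⁻ t in Icc h (h+3), moll r (fun z => F z ^ (p/2)) (b v + t • v, t)) * 3 ^ (p/2 - 1) := by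
    refine h1.trans ?_
    gcongr with t
    exact moll_rpow_le1 hq hr hF _
  calc (∫⁻ t in Icc h (h+3), moll r F (b v + t • v, t)) ^ p
      = ((∫⁻ t in Icc h (h+3), moll r F (b v + t • v, t)) ^ (p/2)) ^ 2 := by
        rw [← ENNReal.rpow_natCast, ← ENNReal.rpow_mul]
        congr 1
        push_cast
        ring
    _ ≤ ((∫⁻ t in Icc h (h+3), moll r (fun z => F z ^ (p/2)) (b v + t • v, t))
          * 3 ^ (p/2 - 1)) ^ 2 := by gcongr
    _ = 3 ^ (p - 2) * (∫⁻ t in Icc h (h+3), moll r (fun z => F z ^ (p/2)) (b v + t • v, t)) ^ 2 := by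
        rw [mul_pow, mul_comm]
        congr 1
        rw [← ENNReal.rpow_natCast, ← ENNReal.rpow_mul]
        congr 1
        push_cast
        ring

theorem moll_compare {δ r : ℝ} (hδ : 0 < δ) (h1 : 2 * δ ≤ r) (h2 : r ≤ 4 * δ)
    (F : Vec d × ℝ → ℝ≥0∞) (y : Vec d) (t : ℝ) :
    moll (2*δ) F (y, t) ≤ 2 ^ d * moll r F (y, t) := by
  have h := moll_le_moll (r := 2*δ) (r' := r) (by linarith) h1 F (y := y) (y' := y)
    (by simp only [sub_self, norm_zero]; linarith) t
  refine h.trans ?_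
  gcongr
  have hV0 := (vol_pos (d := d) (r := 2 * δ) (by linarith)).ne'
  have hVt := (vol_lt_top (d := d) (r := 2 * δ)).ne
  have h4 : volume (closedBall (0:Vec d) r) ≤ 2 ^ d * volume (closedBall (0:Vec d) (2*δ)) := by
    rw [vol_ball_scale (d := d) (r := r) (by linarith),
      vol_ball_scale (d := d) (r := 2*δ) (by linarith), ← mul_assoc, ← mul_pow]
    gcongr
    have h5 : (2:ℝ≥0∞) * ENNReal.ofReal (2*δ) = ENNReal.ofReal (4*δ) := by
      have : (2:ℝ≥0∞) = ENNReal.ofReal 2 := by simp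
      rw [this, ← ENNReal.ofReal_mul (by norm_num)]
      congr 1
      ring
    rw [h5]
    exact ENNReal.ofReal_le_ofReal h2
  calc (volume (closedBall (0:Vec d) (2*δ)))⁻¹ * volume (closedBall (0:Vec d) r)
      ≤ (volume (closedBall (0:Vec d) (2*δ)))⁻¹ * (2 ^ d * volume (closedBall (0:Vec d) (2*δ))) := by
        gcongr
    _ = 2 ^ d * ((volume (closedBall (0:Vec d) (2*δ)))⁻¹ * volume (closedBall (0:Vec d) (2*δ))) := by
        ring
    _ = 2 ^ d := by rw [ENNReal.inv_mul_cancel hV0 hVt, mul_one]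

/-- The weighted estimate for tubes. -/
theorem tube_weighted {δ r : ℝ} (hδ : 0 < δ) (hδ1 : δ < 1) (h1 : 2 * δ ≤ r) (h2 : r ≤ 4 * δ)
    {b : Vec d → Vec d} (hb : Measurable b) {T : Set ℝ} (hT : MeasurableSet T)
    {ω : Vec d → ℝ≥0∞}
    (hω : ∀ v ∈ closedBall (0:Vec d) 1,
      ω v * ∫⁻ t in T, JJ r b (closedBall 0 1) (b v + t • v) t ≤ 1)
    {p : ℝ} (hp : 2 ≤ p) {f : Space d → ℝ} (hf : Measurable f)
    (hfT : ∀ (y : Vec d) (t : ℝ), t ∉ T → f (WithLp.toLp 2 (y, t)) = 0) :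
    ∫⁻ v in closedBall (0:Vec d) 1, ω v * lineMax δ b f v ^ p
      ≤ (4 * 16 ^ d) ^ p * 3 ^ (p - 2) * ∫⁻ y, ‖f y‖ₑ ^ p := by
  have hr : 0 < r := by linarith
  have hp0 : 0 < p := by linarith
  have hmp := WithLp.volume_preserving_toLp (Vec d) ℝ
  have hf2 : Measurable (fun q : Vec d × ℝ => ‖f (WithLp.toLp 2 q)‖ₑ) :=
    (hf.comp hmp.measurable).enorm
  set F : Vec d × ℝ → ℝ≥0∞ := fun q => ‖f (WithLp.toLp 2 q)‖ₑ with hFdef
  have hFT : ∀ y t, t ∉ T → F (y, t) = 0 := fun y t ht => by simp [hFdef, hfT y t ht]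
  have hFp : Measurable (fun z => F z ^ (p/2)) := hf2.pow_const _
  have hsch := schur hr hb measurableSet_closedBall (measure_closedBall_lt_top.ne) hT hω hFp
    (fun y t ht => by
      rw [hFT y t ht]
      exact ENNReal.zero_rpow_of_pos (by linarith))
  have hS : ∫⁻ q : Vec d × ℝ, (F q ^ (p/2)) ^ 2 = ∫⁻ y : Space d, ‖f y‖ₑ ^ p := by
    have e1 : ∀ q : Vec d × ℝ, (F q ^ (p/2)) ^ 2 = ‖f (WithLp.toLp 2 q)‖ₑ ^ p := by
      intro q
      rw [← ENNReal.rpow_natCast, ← ENNReal.rpow_mul]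
      have : p / 2 * ((2:ℕ):ℝ) = p := by push_cast; ring
      rw [this]
    simp only [e1]
    exact hmp.lintegral_comp (f := fun y : Space d => ‖f y‖ₑ ^ p) (hf.enorm.pow_const _)
  rw [hS] at hsch
  have hpt : ∀ v ∈ closedBall (0:Vec d) 1, ω v * lineMax δ b f v ^ p
      ≤ ((4 * 16 ^ d) ^ p * 3 ^ (p - 2)) * (ω v * (⨆ h : ℝ,
        (∫⁻ t in Icc h (h+3), moll r (fun z => F z ^ (p/2)) (b v + t • v, t)) ^ 2)) := by
    intro v hv
    have hv1 : ‖v‖ ≤ 1 := by simpa using hv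
    have hkey : lineMax δ b f v ≤ (4 * 16 ^ d) * ⨆ h : ℝ, ∫⁻ t in Icc h (h + 3),
          moll r F (b v + t • v, t) := by
      calc lineMax δ b f v ≤ (4 * 8 ^ d) * ⨆ h : ℝ, ∫⁻ t in Icc h (h + 3),
            moll (2*δ) F (b v + t • v, t) := lineMax_le hδ hδ1 b hv1 hf
        _ ≤ (4 * 8 ^ d) * (2 ^ d * ⨆ h : ℝ, ∫⁻ t in Icc h (h + 3),
            moll r F (b v + t • v, t)) := by
            gcongr
            apply iSup_le
            intro h
            calc ∫⁻ t in Icc h (h + 3), moll (2*δ) F (b v + t • v, t)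
                ≤ ∫⁻ t in Icc h (h + 3), 2 ^ d * moll r F (b v + t • v, t) :=
                  lintegral_mono (fun t => moll_compare hδ h1 h2 F _ t)
              _ = 2 ^ d * ∫⁻ t in Icc h (h + 3), moll r F (b v + t • v, t) := by
                  rw [lintegral_const_mul' _ _ (ENNReal.pow_ne_top (by simp))]
              _ ≤ _ := by
                  gcongr
                  exact le_iSup (fun h : ℝ => ∫⁻ t in Icc h (h + 3),
                    moll r F (b v + t • v, t)) h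
        _ = _ := by
            have : (16:ℝ≥0∞) ^ d = 8 ^ d * 2 ^ d := by rw [← mul_pow]; norm_num
            rw [this]
            ring
    calc ω v * lineMax δ b f v ^ p
        ≤ ω v * ((4 * 16 ^ d) * ⨆ h : ℝ, ∫⁻ t in Icc h (h + 3),
          moll r F (b v + t • v, t)) ^ p := by
          gcongr
      _ = ω v * ((4 * 16 ^ d) ^ p * ⨆ h : ℝ, (∫⁻ t in Icc h (h + 3),
          moll r F (b v + t • v, t)) ^ p) := by
          rw [ENNReal.mul_rpow_of_nonneg _ _ hp0.le, iSup_rpow _ hp0]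
      _ ≤ ω v * ((4 * 16 ^ d) ^ p * (3 ^ (p - 2) * ⨆ h : ℝ, (∫⁻ t in Icc h (h + 3),
          moll r (fun z => F z ^ (p/2)) (b v + t • v, t)) ^ 2)) := by
          gcongr
          apply iSup_le
          intro h
          refine (line_pow hp hr hf2 v h).trans ?_
          gcongr
          exact le_iSup (fun h : ℝ => (∫⁻ t in Icc h (h + 3),
            moll r (fun z => F z ^ (p/2)) (b v + t • v, t)) ^ 2) h
      _ = _ := by ring
  calc ∫⁻ v in closedBall (0:Vec d) 1, ω v * lineMax δ b f v ^ p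
      ≤ ∫⁻ v in closedBall (0:Vec d) 1, ((4 * 16 ^ d) ^ p * 3 ^ (p - 2)) * (ω v * (⨆ h : ℝ,
        (∫⁻ t in Icc h (h+3), moll r (fun z => F z ^ (p/2)) (b v + t • v, t)) ^ 2)) :=
        setLIntegral_mono' measurableSet_closedBall hpt
    _ = ((4 * 16 ^ d) ^ p * 3 ^ (p - 2)) * ∫⁻ v in closedBall (0:Vec d) 1, (ω v * (⨆ h : ℝ,
        (∫⁻ t in Icc h (h+3), moll r (fun z => F z ^ (p/2)) (b v + t • v, t)) ^ 2)) := by
        rw [lintegral_const_mul']
        apply ENNReal.mul_ne_top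
        · exact ENNReal.rpow_ne_top_of_nonneg hp0.le
            (ENNReal.mul_ne_top (by simp) (ENNReal.pow_ne_top (by simp)))
        · exact ENNReal.rpow_ne_top_of_nonneg (by linarith) (by simp)
    _ ≤ _ := by gcongr

end Pool.Agent.H805R3.Kk.Gen
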