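import Pool.Agent.H805R3.Kk.Expect
import Pool.Agent.H805R3.Kk.Tube

set_option autoImplicit false

/-!
The weighted Kakeya maximal estimates for almost every diagonal perturbation of a family of lines.
-/

open MeasureTheory Set Filter Topology ENNReal NNReal Metric

namespace Pool.Agent.H805R3.Kk.Gen

open Pool.Agent.H803R2.Kak Pool.Agent.H803R2.KakFTO Pool.Agent.H805R3.Kk

variable {d : ℕ}

/-- Dyadic radii. -/
noncomputable def rad (k : ℕ) : ℝ := 2 * (1/2:ℝ)^k

theorem rad_pos (k : ℕ) : 0 < rad k := by unfold rad; positivity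

/-- The law of the perturbation: Lebesgue measure on a cube. -/
noncomputable def lam (d : ℕ) (L : ℝ) : Measure (Fin d → ℝ) :=
  Measure.pi fun _ : Fin d => (volume : Measure ℝ).restrict (Icc (-L) L)

instance (L : ℝ) : SFinite (lam d L) := by unfold lam; infer_instance

theorem lam_univ (L : ℝ) : lam d L univ = ENNReal.ofReal (2*L) ^ d := by
  unfold lam
  rw [Measure.pi_univ]
  simp only [Measure.restrict_apply_univ, Real.volume_Icc, Finset.prod_const, Finset.card_univ,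
    Fintype.card_fin]
  congr 2
  ring

noncomputable def Phi (a : Vec d → Vec d) (k : ℕ) (l : Fin d → ℝ) (v : Vec d) (t : ℝ) : ℝ≥0∞ :=
  JJ (rad k) (perturb a l) (closedBall 0 1) (perturb a l v + t • v) t

theorem measurable_Phi {a : Vec d → Vec d} (ha : Measurable a) (k : ℕ) :
    Measurable (fun z : (Fin d → ℝ) × (Vec d × ℝ) => Phi a k z.1 z.2.1 z.2.2) := by
  unfold Phi
  simp only [JJ_def']
  apply Measurable.const_add
  apply Measurable.const_mul
  have : Measurable (fun q : ((Fin d → ℝ) × (Vec d × ℝ)) × Vec d =>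
      ind (2 * rad k) ((perturb a q.1.1 q.1.2.1 + q.1.2.2 • q.1.2.1)
        - (perturb a q.1.1 q.2 + q.1.2.2 • q.2))) := by
    apply measurable_ind_comp
    have m1 : Measurable (fun q : ((Fin d → ℝ) × (Vec d × ℝ)) × Vec d => q.1.1) :=
      measurable_fst.comp measurable_fst
    have m2 : Measurable (fun q : ((Fin d → ℝ) × (Vec d × ℝ)) × Vec d => q.1.2.1) :=
      measurable_fst.comp (measurable_snd.comp measurable_fst)
    have m3 : Measurable (fun q : ((Fin d → ℝ) × (Vec d × ℝ)) × Vec d => q.1.2.2) :=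
      measurable_snd.comp (measurable_snd.comp measurable_fst)
    exact ((measurable_perturb ha m1 m2).add (m3.smul m2)).sub
      ((measurable_perturb ha m1 measurable_snd).add (m3.smul measurable_snd))
  exact this.lintegral_prod_right'

theorem log_rad (k : ℕ) : Real.log (1 + 3 / rad k) ≤ 2 + k := by
  have h1 : 1 + 3 / rad k ≤ 4 * 2 ^ k := by
    unfold rad
    have e : 3 / (2 * (1/2:ℝ)^k) = 3/2 * 2 ^ k := by
      rw [one_div, inv_pow]
      field_simp
    rw [e]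
    have : (1:ℝ) ≤ 2 ^ k := one_le_pow₀ (by norm_num)
    linarith
  have h0 : 0 < 1 + 3 / rad k := by
    have := rad_pos k
    positivity
  have h2 : Real.log 4 ≤ 2 := by
    have h3 : (4:ℝ) = 2 ^ 2 := by norm_num
    rw [h3, Real.log_pow]
    have := Real.log_two_lt_d9
    push_cast
    linarith
  calc Real.log (1 + 3 / rad k) ≤ Real.log (4 * 2 ^ k) := Real.log_le_log h0 h1
    _ = Real.log 4 + k * Real.log 2 := by
        rw [Real.log_mul (by norm_num) (by positivity), Real.log_pow]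
    _ ≤ 2 + k := by
        have := Real.log_two_lt_d9
        have h4 : (k:ℝ) * Real.log 2 ≤ k * 1 := by
          apply mul_le_mul_of_nonneg_left _ (Nat.cast_nonneg k)
          linarith
        linarith

theorem Phi_expect {L : ℝ} (hL : 0 < L) {a : Vec d → Vec d} (ha : Measurable a) (k : ℕ)
    (v : Vec d) (t : ℝ) :
    ∫⁻ l, Phi a k l v t ∂(lam d L) ≤ (ENNReal.ofReal (2*L) ^ d
      + (volume (closedBall (0:Vec d) 1))⁻¹ * ENNReal.ofReal (4*L+16) ^ d) * ((k:ℝ≥0∞)+1)^d := by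
  have hr := rad_pos k
  have hexp := expect hL hr ha v t
  have hlog := log_rad k
  have hlog0 : 0 ≤ Real.log (1 + 3 / rad k) := Real.log_nonneg (by
    have : 0 < 3 / rad k := by positivity
    linarith)
  have hV0 := (vol_pos (d := d) hr).ne'
  have hVt := (vol_lt_top (d := d) (r := rad k)).ne
  have hω0 := (vol_pos (d := d) one_pos).ne'
  have hωt := (vol_lt_top (d := d) (r := 1)).ne
  unfold Phi
  simp only [JJ_def']
  rw [lintegral_add_left measurable_const, lintegral_const_mul' _ _ (ENNReal.inv_ne_top.2 hV0),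
    lintegral_one, lam_univ]
  have hk1 : (1:ℝ≥0∞) ≤ ((k:ℝ≥0∞)+1)^d := one_le_pow₀ le_add_self
  have h2 : (volume (closedBall (0:Vec d) (rad k)))⁻¹ *
      (ENNReal.ofReal (rad k * (4 * L + 8 * Real.log (1 + 3 / rad k)))) ^ d
      ≤ (volume (closedBall (0:Vec d) 1))⁻¹ * ENNReal.ofReal (4*L+16) ^ d * ((k:ℝ≥0∞)+1)^d := by
    rw [vol_ball_scale hr, ENNReal.ofReal_mul hr.le, mul_pow]
    have h4 : (ENNReal.ofReal (rad k)) ^ d ≠ 0 := by
      apply pow_ne_zero
      simpa using hr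
    have h5 : (ENNReal.ofReal (rad k)) ^ d ≠ ∞ := ENNReal.pow_ne_top ENNReal.ofReal_ne_top
    rw [ENNReal.mul_inv (Or.inl h4) (Or.inl h5)]
    have h6 : ENNReal.ofReal (4 * L + 8 * Real.log (1 + 3 / rad k))
        ≤ ENNReal.ofReal (4*L+16) * ((k:ℝ≥0∞)+1) := by
      have e : ((k:ℝ≥0∞)+1) = ENNReal.ofReal ((k:ℝ)+1) := by
        rw [ENNReal.ofReal_add (by positivity) (by norm_num)]
        simp
      rw [e, ← ENNReal.ofReal_mul (by positivity)]
      apply ENNReal.ofReal_le_ofReal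
      have : (0:ℝ) ≤ k := Nat.cast_nonneg k
      nlinarith
    calc ((ENNReal.ofReal (rad k)) ^ d)⁻¹ * (volume (closedBall (0:Vec d) 1))⁻¹ *
          ((ENNReal.ofReal (rad k)) ^ d
            * (ENNReal.ofReal (4 * L + 8 * Real.log (1 + 3 / rad k))) ^ d)
        = (((ENNReal.ofReal (rad k)) ^ d)⁻¹ * (ENNReal.ofReal (rad k)) ^ d)
          * ((volume (closedBall (0:Vec d) 1))⁻¹
            * (ENNReal.ofReal (4 * L + 8 * Real.log (1 + 3 / rad k))) ^ d) := by ring
      _ = (volume (closedBall (0:Vec d) 1))⁻¹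
            * (ENNReal.ofReal (4 * L + 8 * Real.log (1 + 3 / rad k))) ^ d := by
          rw [ENNReal.inv_mul_cancel h4 h5, one_mul]
      _ ≤ (volume (closedBall (0:Vec d) 1))⁻¹
            * (ENNReal.ofReal (4*L+16) * ((k:ℝ≥0∞)+1)) ^ d := by gcongr
      _ = _ := by rw [mul_pow]; ring
  calc ENNReal.ofReal (2*L) ^ d + (volume (closedBall (0:Vec d) (rad k)))⁻¹ *
        ∫⁻ l, (∫⁻ w in closedBall (0:Vec d) 1, ind (2 * rad k)
          ((perturb a l v + t • v) - (perturb a l w + t • w))) ∂(lam d L)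
      ≤ ENNReal.ofReal (2*L) ^ d * ((k:ℝ≥0∞)+1)^d
        + (volume (closedBall (0:Vec d) 1))⁻¹ * ENNReal.ofReal (4*L+16) ^ d * ((k:ℝ≥0∞)+1)^d := by
        apply add_le_add
        · exact le_mul_of_one_le_right zero_le hk1
        · refine le_trans ?_ h2
          gcongr
          exact hexp
    _ = _ := by ring

/-- Weights of the dyadic scales. -/
noncomputable def cc (d k : ℕ) : ℝ≥0∞ := (((k:ℝ≥0∞)+1)^(d+2))⁻¹

/-- Weighted total multiplicity. -/
noncomputable def Sig (a : Vec d → Vec d) (H : ℝ) (l : Fin d → ℝ) (v : Vec d) : ℝ≥0∞ :=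
  ∑' k, cc d k * ∫⁻ t in Icc (-H) H, Phi a k l v t

theorem measurable_inner {a : Vec d → Vec d} (ha : Measurable a) (H : ℝ) (k : ℕ) :
    Measurable (fun z : (Fin d → ℝ) × Vec d => ∫⁻ t in Icc (-H) H, Phi a k z.1 z.2 t) := by
  have h := (measurable_Phi ha k).comp (show Measurable
    (fun q : ((Fin d → ℝ) × Vec d) × ℝ => (q.1.1, (q.1.2, q.2))) from
      (measurable_fst.comp measurable_fst).prodMk
        ((measurable_snd.comp measurable_fst).prodMk measurable_snd))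
  exact h.lintegral_prod_right'

theorem measurable_Sig {a : Vec d → Vec d} (ha : Measurable a) (H : ℝ) :
    Measurable (fun z : (Fin d → ℝ) × Vec d => Sig a H z.1 z.2) := by
  unfold Sig
  exact Measurable.tsum (fun k => (measurable_inner ha H k).const_mul _)

theorem sum_ne_top : ∑' k : ℕ, (((k:ℝ≥0∞)+1)^2)⁻¹ ≠ ∞ := by
  have h1 : ∀ k : ℕ, (((k:ℝ≥0∞)+1)^2)⁻¹ = ENNReal.ofReal (1/((k:ℝ)+1)^2) := by
    intro k
    have e : ((k:ℝ≥0∞)+1) = ENNReal.ofReal ((k:ℝ)+1) := by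
      rw [ENNReal.ofReal_add (by positivity) (by norm_num)]
      simp
    rw [e, ← ENNReal.ofReal_pow (by positivity), ← ENNReal.ofReal_inv_of_pos (by positivity), one_div]
  simp only [h1]
  have h2 : Summable (fun k : ℕ => 1/((k:ℝ)+1)^2) := by
    have h3 := (_root_.summable_nat_add_iff (f := fun n : ℕ => 1/(n:ℝ)^2) 1).2
      (Real.summable_one_div_nat_pow.2 (_root_.one_lt_two))
    simpa using h3
  rw [← ENNReal.ofReal_tsum_of_nonneg (fun k => by positivity) h2]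
  exact ENNReal.ofReal_ne_top

theorem int_Sig {L : ℝ} (hL : 0 < L) {a : Vec d → Vec d} (ha : Measurable a) (H : ℝ) :
    ∫⁻ l, (∫⁻ v in closedBall (0:Vec d) 1, Sig a H l v) ∂(lam d L) ≠ ∞ := by
  have hωt := (vol_lt_top (d := d) (r := 1)).ne
  have hω0 := (vol_pos (d := d) one_pos).ne'
  set A : ℝ≥0∞ := ENNReal.ofReal (2*L) ^ d
      + (volume (closedBall (0:Vec d) 1))⁻¹ * ENNReal.ofReal (4*L+16) ^ d with hA
  have hAt : A ≠ ∞ := ENNReal.add_ne_top.2 ⟨ENNReal.pow_ne_top ENNReal.ofReal_ne_top,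
    ENNReal.mul_ne_top (ENNReal.inv_ne_top.2 hω0) (ENNReal.pow_ne_top ENNReal.ofReal_ne_top)⟩
  set D : ℝ≥0∞ := volume (closedBall (0:Vec d) 1) * volume (Icc (-H) H) with hD
  have hDt : D ≠ ∞ := ENNReal.mul_ne_top hωt (by rw [Real.volume_Icc]; exact ENNReal.ofReal_ne_top)
  have hm := fun k => measurable_inner ha H k
  have hone : ∀ k, ∫⁻ l, (∫⁻ v in closedBall (0:Vec d) 1, ∫⁻ t in Icc (-H) H, Phi a k l v t)
      ∂(lam d L) ≤ A * ((k:ℝ≥0∞)+1)^d * D := by
    intro k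
    have h1 : ∀ l, ∫⁻ v in closedBall (0:Vec d) 1, ∫⁻ t in Icc (-H) H, Phi a k l v t
        = ∫⁻ z : Vec d × ℝ, Phi a k l z.1 z.2
          ∂((volume.restrict (closedBall (0:Vec d) 1)).prod (volume.restrict (Icc (-H) H))) := by
      intro l
      have hml : Measurable (fun z : Vec d × ℝ => Phi a k l z.1 z.2) :=
        (measurable_Phi ha k).comp measurable_prodMk_left
      exact (lintegral_prod (fun z : Vec d × ℝ => Phi a k l z.1 z.2) hml.aemeasurable).symm
    simp only [h1]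
    rw [lintegral_lintegral_swap (measurable_Phi ha k).aemeasurable]
    calc ∫⁻ z : Vec d × ℝ, (∫⁻ l, Phi a k l z.1 z.2 ∂(lam d L))
          ∂((volume.restrict (closedBall (0:Vec d) 1)).prod (volume.restrict (Icc (-H) H)))
        ≤ ∫⁻ _z : Vec d × ℝ, A * ((k:ℝ≥0∞)+1)^d
          ∂((volume.restrict (closedBall (0:Vec d) 1)).prod (volume.restrict (Icc (-H) H))) :=
          lintegral_mono (fun z => Phi_expect hL ha k z.1 z.2)
      _ = A * ((k:ℝ≥0∞)+1)^d * D := by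
          rw [lintegral_const, ← univ_prod_univ, Measure.prod_prod, Measure.restrict_apply_univ,
            Measure.restrict_apply_univ]
  have h2 : ∫⁻ l, (∫⁻ v in closedBall (0:Vec d) 1, Sig a H l v) ∂(lam d L)
      = ∑' k, cc d k * ∫⁻ l, (∫⁻ v in closedBall (0:Vec d) 1, ∫⁻ t in Icc (-H) H, Phi a k l v t)
        ∂(lam d L) := by
    unfold Sig
    have e1 : ∀ l, ∫⁻ v in closedBall (0:Vec d) 1, ∑' k, cc d k * ∫⁻ t in Icc (-H) H, Phi a k l v t
        = ∑' k, cc d k * ∫⁻ v in closedBall (0:Vec d) 1, ∫⁻ t in Icc (-H) H, Phi a k l v t := by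
      intro l
      have hml : ∀ k, Measurable (fun v : Vec d => ∫⁻ t in Icc (-H) H, Phi a k l v t) :=
        fun k => (hm k).comp measurable_prodMk_left
      rw [lintegral_tsum (fun k => ((hml k).const_mul _).aemeasurable)]
      congr 1
      ext k
      exact lintegral_const_mul _ (hml k)
    have hml : ∀ k, Measurable (fun l : Fin d → ℝ =>
        ∫⁻ v in closedBall (0:Vec d) 1, ∫⁻ t in Icc (-H) H, Phi a k l v t) :=
      fun k => (hm k).lintegral_prod_right'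
    simp_rw [e1]
    rw [lintegral_tsum (fun k => ((hml k).const_mul _).aemeasurable)]
    congr 1
    ext k
    exact lintegral_const_mul _ (hml k)
  rw [h2]
  refine ne_top_of_le_ne_top ?_ (ENNReal.tsum_le_tsum (fun k =>
    (mul_le_mul_right (hone k) (cc d k))))
  have h3 : ∀ k : ℕ, cc d k * (A * ((k:ℝ≥0∞)+1)^d * D) = (A * D) * (((k:ℝ≥0∞)+1)^2)⁻¹ := by
    intro k
    unfold cc
    have h4 : (((k:ℝ≥0∞)+1)^d) ≠ 0 := pow_ne_zero _ (by positivity)
    have h5 : (((k:ℝ≥0∞)+1)^d) ≠ ∞ := ENNReal.pow_ne_top (by simp)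
    rw [pow_add, ENNReal.mul_inv (Or.inl h4) (Or.inl h5)]
    calc (((k:ℝ≥0∞)+1)^d)⁻¹ * (((k:ℝ≥0∞)+1)^2)⁻¹ * (A * ((k:ℝ≥0∞)+1)^d * D)
        = ((((k:ℝ≥0∞)+1)^d)⁻¹ * ((k:ℝ≥0∞)+1)^d) * ((A * D) * (((k:ℝ≥0∞)+1)^2)⁻¹) := by ring
      _ = _ := by rw [ENNReal.inv_mul_cancel h4 h5, one_mul]
  simp only [h3]
  rw [ENNReal.tsum_mul_left]
  exact ENNReal.mul_ne_top (ENNReal.mul_ne_top hAt hDt) sum_ne_top

theorem ae_of_cubes {P : (Fin d → ℝ) → Prop} (h : ∀ L : ℕ, ∀ᵐ l ∂(lam d ((L:ℝ)+1)), P l) :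
    ∀ᵐ l : Fin d → ℝ, P l := by
  have h1 : ∀ L : ℕ, ∀ᵐ l : Fin d → ℝ,
      l ∈ Set.pi univ (fun _ : Fin d => Icc (-((L:ℝ)+1)) ((L:ℝ)+1)) → P l := by
    intro L
    have h2 := h L
    unfold lam at h2
    rw [← Measure.restrict_pi_pi, ← volume_pi] at h2
    exact (ae_restrict_iff' (MeasurableSet.univ_pi fun _ => measurableSet_Icc)).1 h2
  filter_upwards [ae_all_iff.2 h1] with l hl
  obtain ⟨L, hL⟩ := exists_nat_ge ‖l‖
  apply hl L
  intro i _
  have h3 := norm_le_pi_norm l i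
  rw [Real.norm_eq_abs] at h3
  have h4 := abs_le.1 (h3.trans hL)
  exact ⟨by linarith [h4.1], by linarith [h4.2]⟩

theorem ae_Sig {a : Vec d → Vec d} (ha : Measurable a) :
    ∀ᵐ l : Fin d → ℝ, ∀ H : ℕ, ∫⁻ v in closedBall (0:Vec d) 1, Sig a H l v < ∞ := by
  apply ae_of_cubes
  intro L
  rw [ae_all_iff]
  intro H
  exact ae_lt_top ((measurable_Sig ha H).lintegral_prod_right') (int_Sig (by positivity) ha H)

/-- The constant. -/
noncomputable def cpr (d : ℕ) (p : ℝ) : ℝ := (4 * 16 ^ d) ^ p * 3 ^ (p - 2) * 2 ^ (d + 2)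

theorem main_est {a : Vec d → Vec d} (ha : Measurable a) (l : Fin d → ℝ) (H : ℝ) {p : ℝ}
    (hp : 2 ≤ p) {δ : ℝ} (hδ : 0 < δ) (hδ1 : δ < 1) {f : Space d → ℝ} (hf : Measurable f)
    (hfT : ∀ (y : Vec d) (t : ℝ), t ∉ Icc (-H) H → f (WithLp.toLp 2 (y, t)) = 0) :
    ∫⁻ v in closedBall (0:Vec d) 1, (Sig a H l v)⁻¹ * lineMax δ (perturb a l) f v ^ p
      ≤ ENNReal.ofReal (cpr d p * (1 + Real.log (1/δ)) ^ (d+2)) * ∫⁻ y, ‖f y‖ₑ ^ p := by
  obtain ⟨k, hk1, hk2⟩ := exists_nat_pow_near_of_lt_one hδ hδ1.le (by norm_num : (0:ℝ) < 1/2)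
    (by norm_num)
  have hr1 : 2 * δ ≤ rad k := by unfold rad; linarith
  have hr2 : rad k ≤ 4 * δ := by
    unfold rad
    rw [pow_succ] at hk1
    linarith
  have hb : Measurable (perturb a l) := measurable_perturb ha measurable_const measurable_id
  have hlog0 : 0 ≤ Real.log (1/δ) := Real.log_nonneg (by rw [le_div_iff₀ hδ]; linarith)
  have hklog : (k:ℝ) + 1 ≤ 2 * (1 + Real.log (1/δ)) := by
    have h1 : (2:ℝ)^k ≤ 1/δ := by
      rw [le_div_iff₀ hδ]
      have : δ ≤ ((2:ℝ)^k)⁻¹ := by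
        rw [← inv_pow]; simpa [one_div] using hk2
      calc (2:ℝ)^k * δ ≤ 2^k * ((2:ℝ)^k)⁻¹ := by gcongr
        _ = 1 := mul_inv_cancel₀ (by positivity)
    have h2 := Real.log_le_log (by positivity) h1
    rw [Real.log_pow] at h2
    have h3 := Real.log_two_gt_d9
    have h4 : (k:ℝ) * (1/2) ≤ k * Real.log 2 := by
      apply mul_le_mul_of_nonneg_left _ (Nat.cast_nonneg k)
      linarith
    linarith
  have hcc0 : cc d k ≠ 0 := ENNReal.inv_ne_zero.2 (ENNReal.pow_ne_top (by simp))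
  have hcct : cc d k ≠ ∞ := ENNReal.inv_ne_top.2
    (pow_ne_zero _ (by simp : ((k:ℝ≥0∞)+1) ≠ 0))
  have hω : ∀ v ∈ closedBall (0:Vec d) 1, (cc d k * (Sig a H l v)⁻¹) *
      ∫⁻ t in Icc (-H) H, JJ (rad k) (perturb a l) (closedBall 0 1) (perturb a l v + t • v) t
        ≤ 1 := by
    intro v _
    have h1 : cc d k * ∫⁻ t in Icc (-H) H, Phi a k l v t ≤ Sig a H l v := by
      unfold Sig
      exact ENNReal.le_tsum (f := fun k => cc d k * ∫⁻ t in Icc (-H) H, Phi a k l v t) k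
    calc (cc d k * (Sig a H l v)⁻¹) *
        ∫⁻ t in Icc (-H) H, JJ (rad k) (perturb a l) (closedBall 0 1) (perturb a l v + t • v) t
        = (Sig a H l v)⁻¹ * (cc d k * ∫⁻ t in Icc (-H) H, Phi a k l v t) := by
          unfold Phi
          ring
      _ ≤ (Sig a H l v)⁻¹ * Sig a H l v := by gcongr
      _ ≤ 1 := ENNReal.inv_mul_le_one _
  have h := tube_weighted hδ hδ1 hr1 hr2 hb measurableSet_Icc hω hp hf hfT
  have h2 : cc d k * ∫⁻ v in closedBall (0:Vec d) 1, (Sig a H l v)⁻¹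
      * lineMax δ (perturb a l) f v ^ p
      ≤ (4 * 16 ^ d) ^ p * 3 ^ (p - 2) * ∫⁻ y, ‖f y‖ₑ ^ p := by
    rw [← lintegral_const_mul' _ _ hcct]
    refine le_trans (le_of_eq ?_) h
    congr 1
    ext v
    ring
  have h3 : ∫⁻ v in closedBall (0:Vec d) 1, (Sig a H l v)⁻¹ * lineMax δ (perturb a l) f v ^ p
      = (cc d k)⁻¹ * (cc d k * ∫⁻ v in closedBall (0:Vec d) 1, (Sig a H l v)⁻¹
      * lineMax δ (perturb a l) f v ^ p) := by
    rw [← mul_assoc, ENNReal.inv_mul_cancel hcc0 hcct, one_mul]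
  rw [h3]
  have h4 : (cc d k)⁻¹ ≤ ENNReal.ofReal ((2 * (1 + Real.log (1/δ))) ^ (d+2)) := by
    unfold cc
    rw [inv_inv]
    have e : ((k:ℝ≥0∞)+1) = ENNReal.ofReal ((k:ℝ)+1) := by
      rw [ENNReal.ofReal_add (by positivity) (by norm_num)]
      simp
    rw [e, ← ENNReal.ofReal_pow (by positivity)]
    apply ENNReal.ofReal_le_ofReal
    gcongr
  have e5 : ((4 * 16 ^ d : ℝ≥0∞)) ^ p * 3 ^ (p - 2)
      = ENNReal.ofReal ((4 * 16 ^ d) ^ p * 3 ^ (p - 2)) := by
    rw [ENNReal.ofReal_mul (by positivity), ← ENNReal.ofReal_rpow_of_pos (by positivity),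
      ← ENNReal.ofReal_rpow_of_pos (by norm_num), ENNReal.ofReal_mul (by norm_num),
      ENNReal.ofReal_pow (by norm_num)]
    simp
  calc (cc d k)⁻¹ * (cc d k * ∫⁻ v in closedBall (0:Vec d) 1, (Sig a H l v)⁻¹
      * lineMax δ (perturb a l) f v ^ p)
      ≤ ENNReal.ofReal ((2 * (1 + Real.log (1/δ))) ^ (d+2))
        * ((4 * 16 ^ d) ^ p * 3 ^ (p - 2) * ∫⁻ y, ‖f y‖ₑ ^ p) := by gcongr
    _ = _ := by
        rw [e5, ← mul_assoc, ← ENNReal.ofReal_mul (by positivity)]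
        congr 2
        unfold cpr
        rw [mul_pow]
        ring

theorem main {a : Vec d → Vec d} (ha : Measurable a) :
    ∀ᵐ l : Fin d → ℝ, ∀ H : ℝ, ∃ ω : Vec d → ℝ≥0∞, Measurable ω ∧
      ∫⁻ v in closedBall (0:Vec d) 1, (ω v)⁻¹ < ∞ ∧
      ∀ (p δ : ℝ) (f : Space d → ℝ), 2 ≤ p → 0 < δ → δ < 1 → AEMeasurable f volume →
        (∀ (y : Vec d) (t : ℝ), H < |t| → f (WithLp.toLp 2 (y, t)) = 0) →
        ∫⁻ v in closedBall (0:Vec d) 1, ω v * lineMax δ (perturb a l) f v ^ p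
          ≤ ENNReal.ofReal (cpr d p * (1 + Real.log (1/δ)) ^ (d+2)) * ∫⁻ y, ‖f y‖ₑ ^ p := by
  filter_upwards [ae_Sig ha] with l hl
  intro H
  obtain ⟨H', hH'⟩ := exists_nat_ge H
  refine ⟨fun v => (Sig a H' l v)⁻¹, ((measurable_Sig ha H').comp measurable_prodMk_left).inv, ?_, ?_⟩
  · simp only [inv_inv]
    exact hl H'
  · intro p δ f hp hδ hδ1 hf hfH
    classical
    set T : Set ℝ := Icc (-(H':ℝ)) H' with hT
    have hfT : ∀ (y : Vec d) (t : ℝ), t ∉ T → f (WithLp.toLp 2 (y, t)) = 0 := by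
      intro y t ht
      apply hfH
      by_contra hcon
      apply ht
      rw [hT, mem_Icc]
      exact abs_le.1 ((not_lt.1 hcon).trans hH')
    set F : Space d → ℝ := fun y => if (WithLp.ofLp y).2 ∈ T then hf.mk f y else 0 with hF
    have hFm : Measurable F := by
      apply Measurable.ite _ hf.measurable_mk measurable_const
      have : Measurable (fun y : Space d => (WithLp.ofLp y).2) :=
        measurable_snd.comp (WithLp.volume_preserving_ofLp (Vec d) ℝ).measurable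
      exact this measurableSet_Icc
    have hFT : ∀ (y : Vec d) (t : ℝ), t ∉ T → F (WithLp.toLp 2 (y, t)) = 0 := by
      intro y t ht
      simp only [hF]
      rw [if_neg ht]
    have hfF : f =ᵐ[volume] F := by
      filter_upwards [hf.ae_eq_mk] with y hy
      simp only [hF]
      split_ifs with h
      · exact hy
      · exact hfT (WithLp.ofLp y).1 (WithLp.ofLp y).2 h
    have e1 : ∀ v, lineMax δ (perturb a l) f v = lineMax δ (perturb a l) F v :=
      fun v => lineMax_congr (perturb a l) v hfF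
    have e2 : ∫⁻ y, ‖f y‖ₑ ^ p = ∫⁻ y, ‖F y‖ₑ ^ p := by
      apply lintegral_congr_ae
      filter_upwards [hfF] with y hy
      rw [hy]
    simp only [e1]
    rw [e2]
    exact main_est ha l H' hp hδ hδ1 hFm hFT

end Pool.Agent.H805R3.Kk.Gen
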