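import Pool.Agent.H805R3.Kk.LineP

set_option autoImplicit false

/-!
The integrated estimates for exponents `p > d + 1`, without loss.
-/

open MeasureTheory Set Filter Topology ENNReal NNReal Metric

namespace Pool.Agent.H805R3.Kk

open Pool.Agent.H803R2.Kak Pool.Agent.H803R2.KakFTO

variable {d : ℕ}

theorem moll_rpow_le {p : ℝ} (hp : 1 < p) {r : ℝ} (hr : 0 < r)
    {f : (EuclideanSpace ℝ (Fin d)) × ℝ → ℝ≥0∞} (hf : Measurable f)
    (q : (EuclideanSpace ℝ (Fin d)) × ℝ) :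
    moll r f q ^ p ≤ moll r (fun q => f q ^ p) q := by
  have hp0 : (0:ℝ) < p := by linarith
  have hm : AEMeasurable (fun w : (EuclideanSpace ℝ (Fin d)) => f (q.1 + w, q.2))
      (volume.restrict (closedBall (0:(EuclideanSpace ℝ (Fin d))) r)) := by
    apply Measurable.aemeasurable
    apply hf.comp
    fun_prop
  have h := lintegral_rpow_le (volume.restrict (closedBall (0:(EuclideanSpace ℝ (Fin d))) r)) hp hm
  unfold moll
  rw [ENNReal.mul_rpow_of_nonneg _ _ hp0.le]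
  have hv0 := (vol_pos (d := d) hr).ne'
  have hvt := (vol_lt_top (d := d) (r := r)).ne
  rw [Measure.restrict_apply_univ] at h
  set V := volume (closedBall (0:(EuclideanSpace ℝ (Fin d))) r)
  have hV : V⁻¹ ^ p * V ^ (p - 1) = V⁻¹ := by
    rw [ENNReal.inv_rpow, ← ENNReal.rpow_neg, ← ENNReal.rpow_add _ _ hv0 hvt]
    have : -p + (p - 1) = -1 := by ring
    rw [this, ENNReal.rpow_neg_one]
  calc V⁻¹ ^ p * (∫⁻ w in closedBall (0:(EuclideanSpace ℝ (Fin d))) r, f (q.1 + w, q.2)) ^ p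
      ≤ V⁻¹ ^ p * ((∫⁻ w in closedBall (0:(EuclideanSpace ℝ (Fin d))) r, f (q.1 + w, q.2) ^ p)
          * V ^ (p - 1)) := by
        gcongr
    _ = (V⁻¹ ^ p * V ^ (p - 1)) *
          (∫⁻ w in closedBall (0:(EuclideanSpace ℝ (Fin d))) r, f (q.1 + w, q.2) ^ p) := by ring
    _ = V⁻¹ * ∫⁻ w in closedBall (0:(EuclideanSpace ℝ (Fin d))) r, f (q.1 + w, q.2) ^ p := by
        rw [hV]

theorem lintegral_moll_rpow_le {p : ℝ} (hp : 1 < p) {r : ℝ} (hr : 0 < r)
    {f : (EuclideanSpace ℝ (Fin d)) × ℝ → ℝ≥0∞} (hf : Measurable f) :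
    ∫⁻ q, moll r f q ^ p ≤ ∫⁻ q, f q ^ p := by
  have hfp : Measurable (fun q => f q ^ p) := hf.pow_const p
  have hmm := measurable_moll (r := r) hfp
  calc ∫⁻ q, moll r f q ^ p ≤ ∫⁻ q, moll r (fun q => f q ^ p) q :=
        lintegral_mono (fun q => moll_rpow_le hp hr hf q)
    _ = ∫⁻ t : ℝ, ∫⁻ y : (EuclideanSpace ℝ (Fin d)), moll r (fun q => f q ^ p) (y, t) := by
        rw [Measure.volume_eq_prod, lintegral_prod_symm _ hmm.aemeasurable]
    _ = ∫⁻ t : ℝ, ∫⁻ y : (EuclideanSpace ℝ (Fin d)), f (y, t) ^ p := by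
        congr 1
        ext t
        exact lintegral_moll hr hfp t
    _ = _ := by rw [Measure.volume_eq_prod, lintegral_prod_symm _ hfp.aemeasurable]

/-- Line integrals, exponents `p > 1`. -/
theorem integratedQ (hd : 1 ≤ d) {N : ℕ} {p : ℝ} (hp : 1 < p)
    {B : Set (EuclideanSpace ℝ (Fin d))} (hB : MeasurableSet B)
    {P : ℕ → Set (EuclideanSpace ℝ (Fin d))}
    (hP : ∀ k, MeasurableSet (P k)) (hPd : Pairwise (Function.onFun Disjoint P))
    (hPB : (⋃ k, P k) = B) {b : (EuclideanSpace ℝ (Fin d)) → (EuclideanSpace ℝ (Fin d))} {b' : (EuclideanSpace ℝ (Fin d)) → (EuclideanSpace ℝ (Fin d)) →L[ℝ] (EuclideanSpace ℝ (Fin d))}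
    (hb : ∀ k, ∀ v ∈ P k, HasFDerivWithinAt b (b' v) (P k) v) (hfd : Measurable b')
    {b₀ : (EuclideanSpace ℝ (Fin d)) → (EuclideanSpace ℝ (Fin d))} (hb₀m : Measurable b₀)
    (hbb : ∀ v ∈ B, b₀ v = b v)
    {T : Set ℝ}
    (hN : ∀ᵐ t : ℝ, t ∈ T → ∀ᵐ y : (EuclideanSpace ℝ (Fin d)), {v | v ∈ B ∧ b v + t • v = y ∧
      (b' v + t • ContinuousLinearMap.id ℝ (EuclideanSpace ℝ (Fin d))).det ≠ 0}.encard ≤ N)
    {F : (EuclideanSpace ℝ (Fin d)) × ℝ → ℝ≥0∞} (hF : Measurable F)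
    (hFT : ∀ y t, t ∉ T → F (y, t) = 0) :
    ∫⁻ v in B, (⨆ h : ℝ, (∫⁻ t in Icc h (h+3), F (b v + t • v, t)) ^ p)
      ≤ (d * Ksing (d / (p - 1))) ^ (p - 1) * (N * ∫⁻ q, F q ^ p) := by
  classical
  have hp0 : (0:ℝ) < p := by linarith
  have hp1 : (0:ℝ) < p - 1 := by linarith
  set A : ℝ≥0∞ := (d * Ksing (d / (p - 1))) ^ (p - 1) with hA
  set G : (EuclideanSpace ℝ (Fin d)) → ℝ → ℝ≥0∞ := fun v t => F (b₀ v + t • v, t) with hG
  set J : (EuclideanSpace ℝ (Fin d)) → ℝ → ℝ≥0∞ := fun v t =>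
    ENNReal.ofReal |(b' v + t • ContinuousLinearMap.id ℝ (EuclideanSpace ℝ (Fin d))).det| with hJ
  have hGm : Measurable (fun q : (EuclideanSpace ℝ (Fin d)) × ℝ => G q.1 q.2) := by
    apply hF.comp
    fun_prop
  have hJm : Measurable (fun q : (EuclideanSpace ℝ (Fin d)) × ℝ => J q.1 q.2) := by
    apply Measurable.ennreal_ofReal
    apply Measurable.abs
    apply ContinuousLinearMap.continuous_det.measurable.comp
    have h1 : Measurable (fun q : (EuclideanSpace ℝ (Fin d)) × ℝ => b' q.1) := hfd.comp measurable_fst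
    have h2 : Measurable (fun q : (EuclideanSpace ℝ (Fin d)) × ℝ => q.2 • ContinuousLinearMap.id ℝ (EuclideanSpace ℝ (Fin d))) := by
      have hc : Continuous (fun q : (EuclideanSpace ℝ (Fin d)) × ℝ => q.2 • ContinuousLinearMap.id ℝ (EuclideanSpace ℝ (Fin d))) := by fun_prop
      exact hc.measurable
    exact h1.add h2
  have hGeq : ∀ v ∈ B, ∀ t, G v t = F (b v + t • v, t) := by
    intro v hv t
    rw [hG]; simp only; rw [hbb v hv]
  have hG0 : ∀ t, t ∉ T → ∀ v, G v t = 0 := fun t ht v => hFT _ t ht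
  have hJeq : ∀ v t, J v t
      = ENNReal.ofReal |(b' v + t • ContinuousLinearMap.id ℝ (EuclideanSpace ℝ (Fin d))).det| := fun v t => rfl
  clear_value G J
  have hpt : ∀ v ∈ B, (⨆ h : ℝ, (∫⁻ t in Icc h (h+3), F (b v + t • v, t)) ^ p)
      ≤ A * (∫⁻ t, G v t ^ p * J v t) := by
    intro v hv
    apply iSup_le
    intro h
    obtain ⟨μ, hμc, hμ⟩ := det_centers (b' v)
    rw [finrank_euclideanSpace_fin] at hμc
    have hGv : Measurable (G v) := hGm.comp measurable_prodMk_left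
    have hJv : Measurable (J v) := hJm.comp measurable_prodMk_left
    have := line_estimate_p hd hμc hp hJv (fun t => by rw [hJeq]; exact ENNReal.ofReal_ne_top)
      (fun t => by rw [hJeq]; exact ENNReal.ofReal_le_ofReal (hμ t)) hGv h
    have he : (fun t => F (b v + t • v, t)) = G v := by
      ext t; rw [hGeq v hv]
    calc (∫⁻ t in Icc h (h+3), F (b v + t • v, t)) ^ p
        = (∫⁻ t in Icc h (h+3), G v t) ^ p := by rw [← he]
      _ ≤ _ := this
  have hI1m : Measurable (fun v => ∫⁻ t, G v t ^ p * J v t) :=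
    ((hGm.pow_const p).mul hJm).lintegral_prod_right'
  have hfp : Measurable (fun q => F q ^ p) := hF.pow_const p
  set S := ∫⁻ q, F q ^ p with hS
  have hS2 : S = ∫⁻ t : ℝ, ∫⁻ y : (EuclideanSpace ℝ (Fin d)), F (y, t) ^ p := by
    rw [hS, Measure.volume_eq_prod, lintegral_prod_symm _ hfp.aemeasurable]
  have hI1 : ∫⁻ v in B, ∫⁻ t, G v t ^ p * J v t ≤ N * S := by
    rw [lintegral_lintegral_swap ((hGm.pow_const p).mul hJm).aemeasurable]
    rw [hS2, ← lintegral_const_mul _ (hfp.lintegral_prod_left')]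
    apply lintegral_mono_ae
    filter_upwards [hN] with t ht
    by_cases htT : t ∈ T
    swap
    · have h0 : ∀ v, G v t = 0 := hG0 t htT
      simp [h0, ENNReal.zero_rpow_of_pos hp0]
    replace ht := ht htT
    have hder : ∀ k, ∀ v ∈ P k, HasFDerivWithinAt (fun v => b v + t • v)
        (b' v + t • ContinuousLinearMap.id ℝ (EuclideanSpace ℝ (Fin d))) (P k) v := by
      intro k v hv
      exact (hb k v hv).add ((hasFDerivWithinAt_id v (P k)).const_smul t)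
    have hH : Measurable (fun y : (EuclideanSpace ℝ (Fin d)) => F (y, t) ^ p) :=
      (hF.comp measurable_prodMk_right).pow_const _
    have h1 := lintegral_comp_det_leP (volume : Measure (EuclideanSpace ℝ (Fin d))) hP hPd hder
      (hfd.add_const _) (by rw [hPB]; exact ht) hH
    rw [hPB] at h1
    calc ∫⁻ v in B, G v t ^ p * J v t
        = ∫⁻ v in B, F (b v + t • v, t) ^ p *
          ENNReal.ofReal |(b' v + t • ContinuousLinearMap.id ℝ (EuclideanSpace ℝ (Fin d))).det| := by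
          apply setLIntegral_congr_fun hB
          intro v hv
          simp only
          rw [hGeq v hv, hJeq]
      _ ≤ N * ∫⁻ y : (EuclideanSpace ℝ (Fin d)), F (y, t) ^ p := h1
  calc ∫⁻ v in B, (⨆ h : ℝ, (∫⁻ t in Icc h (h+3), F (b v + t • v, t)) ^ p)
      ≤ ∫⁻ v in B, A * (∫⁻ t, G v t ^ p * J v t) := setLIntegral_mono' hB hpt
    _ = A * (∫⁻ v in B, ∫⁻ t, G v t ^ p * J v t) := by
        rw [lintegral_const_mul _ hI1m]
    _ ≤ A * (N * S) := by gcongr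

/-- The same for a family of bounded overlap that is Lipschitz on countably many pieces. -/
theorem lineIntegrals (hd : 1 ≤ d) {N : ℕ} {p : ℝ} (hp : 1 < p) {T : Set ℝ}
    {g : Vec d → Vec d} {B : Set (Vec d)} (hB : MeasurableSet B)
    (hg : LipPieces B g) (hN : OverlapLE N T B g)
    {F : Vec d × ℝ → ℝ≥0∞} (hF : Measurable F) (hFT : ∀ y t, t ∉ T → F (y, t) = 0) :
    ∫⁻ v in B, (⨆ h : ℝ, (∫⁻ t in Icc h (h+3), F (g v + t • v, t)) ^ p)
      ≤ (d * Ksing (d / (p - 1))) ^ (p - 1) * (N * ∫⁻ q, F q ^ p) := by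
  obtain ⟨P, g2, g₀, hPm, hPd, hB2B, hsets, hder, hg2m, hg₀m, hg₀⟩ := hg.exists_good hB
  set B2 := ⋃ k, P k with hB2
  have hB2m : MeasurableSet B2 := MeasurableSet.iUnion hPm
  have hmult : ∀ᵐ t : ℝ, t ∈ T → ∀ᵐ y : Vec d, {v | v ∈ B2 ∧ g v + t • v = y ∧
      (g2 v + t • ContinuousLinearMap.id ℝ (Vec d)).det ≠ 0}.encard ≤ N := by
    filter_upwards [hN] with t ht htT
    filter_upwards [ht htT] with y hy
    refine le_trans (Set.encard_le_encard ?_) hy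
    rintro v ⟨h1, h2, -⟩
    exact ⟨hB2B h1, h2⟩
  rw [← setLIntegral_congr hsets]
  exact integratedQ hd hp hB2m hPm hPd rfl (b := g) hder hg2m hg₀m hg₀ hmult hF hFT

theorem iSup_rpow {ι : Sort*} [Nonempty ι] (f : ι → ℝ≥0∞) {p : ℝ} (hp : 0 < p) :
    (⨆ i, f i) ^ p = ⨆ i, f i ^ p := by
  exact (ENNReal.orderIsoRpow p hp).map_iSup f

/-- The estimate for tubes, exponents `p > 1`. -/
theorem tubeQ (hd : 1 ≤ d) {T : Set ℝ} {g : Vec d → Vec d} {B : Set (Vec d)} (hB : MeasurableSet B)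
    (hB1 : B ⊆ closedBall 0 1) (hg : LipPieces B g) {N : ℕ} (hN : OverlapLE N T B g) {p : ℝ}
    (hp : 1 < p)
    {b : Vec d → Vec d} {δ : ℝ} (hδ : 0 < δ) (hδ1 : δ < 1)
    (hb : ∀ v ∈ B, ‖b v - g v‖ ≤ δ) {f : Space d → ℝ} (hf : Measurable f)
    (hfT : ∀ (y : Vec d) (t : ℝ), t ∉ T → f (WithLp.toLp 2 (y, t)) = 0) :
    ∫⁻ v in B, lineMax δ b f v ^ p
      ≤ (4 * 16 ^ d) ^ p * ((d * Ksing (d / (p - 1))) ^ (p - 1) * (N * ∫⁻ y, ‖f y‖ₑ ^ p)) := by
  have hp0 : (0:ℝ) < p := by linarith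
  have hmp := WithLp.volume_preserving_toLp (Vec d) ℝ
  have hf2 : Measurable (fun q : Vec d × ℝ => ‖f (WithLp.toLp 2 q)‖ₑ) :=
    (hf.comp hmp.measurable).enorm
  have hmm : Measurable (moll (2*(2*δ)) (fun q : Vec d × ℝ => ‖f (WithLp.toLp 2 q)‖ₑ)) :=
    measurable_moll hf2
  have hint := lineIntegrals hd hp hB hg hN hmm (T := T) (fun y t ht => by simp [moll, hfT _ t ht])
  have hS : ∫⁻ q : Vec d × ℝ, ‖f (WithLp.toLp 2 q)‖ₑ ^ p = ∫⁻ y : Space d, ‖f y‖ₑ ^ p :=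
    hmp.lintegral_comp (f := fun y : Space d => ‖f y‖ₑ ^ p) (hf.enorm.pow_const _)
  have hjen := lintegral_moll_rpow_le (d := d) hp (r := 2*(2*δ)) (by linarith) hf2
  rw [hS] at hjen
  set M : Vec d → ℝ≥0∞ := fun v => ⨆ h : ℝ, (∫⁻ t in Icc h (h+3),
    moll (2*(2*δ)) (fun q : Vec d × ℝ => ‖f (WithLp.toLp 2 q)‖ₑ)
      (g v + t • v, t)) ^ p with hM
  have hpt : ∀ v ∈ B, lineMax δ b f v ^ p ≤ (4 * 16 ^ d) ^ p * M v := by
    intro v hv
    have hv1 : ‖v‖ ≤ 1 := by simpa using hB1 hv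
    have hcomp : ∀ t : ℝ, moll (2*δ) (fun q : Vec d × ℝ => ‖f (WithLp.toLp 2 q)‖ₑ)
        (b v + t • v, t) ≤ 2 ^ d * moll (2*(2*δ))
          (fun q : Vec d × ℝ => ‖f (WithLp.toLp 2 q)‖ₑ) (g v + t • v, t) := by
      intro t
      have h1 := moll_le_moll (r := 2*δ) (r' := 2*(2*δ)) (by linarith) (by linarith)
        (fun q : Vec d × ℝ => ‖f (WithLp.toLp 2 q)‖ₑ) (y := b v + t • v)
        (y' := g v + t • v) (by
          have : b v + t • v - (g v + t • v) = b v - g v := by abel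
          rw [this]
          have := hb v hv
          linarith) t
      have h2 : (volume (closedBall (0:Vec d) (2*δ)))⁻¹ * volume (closedBall (0:Vec d) (2*(2*δ)))
          = 2 ^ d := by
        have hV0 := (vol_pos (d := d) (r := 2 * δ) (by linarith)).ne'
        have hVt := (vol_lt_top (d := d) (r := 2 * δ)).ne
        have h4 : volume (closedBall (0:Vec d) (2*(2*δ)))
            = 2 ^ d * volume (closedBall (0:Vec d) (2*δ)) := by
          have h5 : ENNReal.ofReal (2*(2*δ)) = 2 * ENNReal.ofReal (2*δ) := by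
            rw [ENNReal.ofReal_mul (p := 2) (q := 2 * δ) (by norm_num)]
            simp
          rw [vol_ball_scale (d := d) (r := 2*(2*δ)) (by linarith),
            vol_ball_scale (d := d) (r := 2*δ) (by linarith), h5, mul_pow, mul_assoc]
        rw [h4, mul_comm, mul_assoc, ENNReal.mul_inv_cancel hV0 hVt, mul_one]
      rw [h2] at h1
      exact h1
    have hkey : lineMax δ b f v ≤ (4 * 16 ^ d) * ⨆ h : ℝ, ∫⁻ t in Icc h (h + 3),
          moll (2*(2*δ)) (fun q : Vec d × ℝ => ‖f (WithLp.toLp 2 q)‖ₑ)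
            (g v + t • v, t) := by
      calc lineMax δ b f v ≤ (4 * 8 ^ d) * ⨆ h : ℝ, ∫⁻ t in Icc h (h + 3),
            moll (2*δ) (fun q : Vec d × ℝ => ‖f (WithLp.toLp 2 q)‖ₑ) (b v + t • v, t) :=
            lineMax_le hδ hδ1 b hv1 hf
        _ ≤ (4 * 8 ^ d) * (2 ^ d * ⨆ h : ℝ, ∫⁻ t in Icc h (h + 3),
            moll (2*(2*δ)) (fun q : Vec d × ℝ => ‖f (WithLp.toLp 2 q)‖ₑ)
              (g v + t • v, t)) := by
            gcongr
            apply iSup_le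
            intro h
            calc ∫⁻ t in Icc h (h + 3),
                  moll (2*δ) (fun q : Vec d × ℝ => ‖f (WithLp.toLp 2 q)‖ₑ) (b v + t • v, t)
                ≤ ∫⁻ t in Icc h (h + 3), 2 ^ d * moll (2*(2*δ))
                  (fun q : Vec d × ℝ => ‖f (WithLp.toLp 2 q)‖ₑ) (g v + t • v, t) :=
                  lintegral_mono hcomp
              _ = 2 ^ d * ∫⁻ t in Icc h (h + 3), moll (2*(2*δ))
                  (fun q : Vec d × ℝ => ‖f (WithLp.toLp 2 q)‖ₑ) (g v + t • v, t) := by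
                  rw [lintegral_const_mul' _ _ (ENNReal.pow_ne_top (by simp))]
              _ ≤ _ := by
                  gcongr
                  exact le_iSup (fun h : ℝ => ∫⁻ t in Icc h (h + 3), moll (2*(2*δ))
                    (fun q : Vec d × ℝ => ‖f (WithLp.toLp 2 q)‖ₑ) (g v + t • v, t)) h
        _ = _ := by
            have : (16:ℝ≥0∞) ^ d = 8 ^ d * 2 ^ d := by rw [← mul_pow]; norm_num
            rw [this]
            ring
    calc lineMax δ b f v ^ p ≤ ((4 * 16 ^ d) * ⨆ h : ℝ, ∫⁻ t in Icc h (h + 3),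
          moll (2*(2*δ)) (fun q : Vec d × ℝ => ‖f (WithLp.toLp 2 q)‖ₑ)
            (g v + t • v, t)) ^ p := ENNReal.rpow_le_rpow hkey hp0.le
      _ = (4 * 16 ^ d) ^ p * M v := by
          rw [ENNReal.mul_rpow_of_nonneg _ _ hp0.le, iSup_rpow _ hp0]
  calc ∫⁻ v in B, lineMax δ b f v ^ p
      ≤ ∫⁻ v in B, (4 * 16 ^ d) ^ p * M v := setLIntegral_mono' hB hpt
    _ = (4 * 16 ^ d) ^ p * ∫⁻ v in B, M v := by
        rw [lintegral_const_mul']
        exact ENNReal.rpow_ne_top_of_nonneg hp0.le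
          (ENNReal.mul_ne_top (by simp) (ENNReal.pow_ne_top (by simp)))
    _ ≤ (4 * 16 ^ d) ^ p * ((d * Ksing (d / (p - 1))) ^ (p - 1) * (N * ∫⁻ y, ‖f y‖ₑ ^ p)) := by
        gcongr
        exact hint.trans (by gcongr)

/-- The constant in the estimates without loss. -/
noncomputable def cstp (d : ℕ) (p : ℝ) : ℝ :=
  ((4 * 16 ^ d) ^ p * (d * Ksing (d / (p - 1))) ^ (p - 1)).toReal

theorem ksing_ne_top {p : ℝ} (hp : (d:ℝ) + 1 < p) : Ksing (d / (p - 1)) ≠ ∞ := by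
  have hd0 : (0:ℝ) ≤ d := Nat.cast_nonneg d
  have h1 : (d:ℝ) / (p - 1) < 1 := by rw [div_lt_one (by linarith)]; linarith
  unfold Ksing
  exact ENNReal.add_ne_top.2 ⟨(sing_lt_top h1).ne, by simp⟩

theorem one_le_ksing (s : ℝ) : 1 ≤ Ksing s := by
  unfold Ksing
  calc (1:ℝ≥0∞) ≤ 3 := by norm_num
    _ ≤ _ := le_add_self

theorem cstp_spec (hd : 1 ≤ d) {p : ℝ} (hp : (d:ℝ) + 1 < p) :
    0 < cstp d p ∧ ENNReal.ofReal (cstp d p)
      = (4 * 16 ^ d) ^ p * (d * Ksing (d / (p - 1))) ^ (p - 1) := by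
  have hd' : (1:ℝ) ≤ d := by exact_mod_cast hd
  have hK := ksing_ne_top hp
  have hK1 := one_le_ksing (d / (p - 1))
  have h1 : (4 * 16 ^ d : ℝ≥0∞) ^ p * (d * Ksing (d / (p - 1))) ^ (p - 1) ≠ ∞ := by
    apply ENNReal.mul_ne_top
    · exact ENNReal.rpow_ne_top_of_nonneg (by linarith)
        (ENNReal.mul_ne_top (by simp) (ENNReal.pow_ne_top (by simp)))
    · exact ENNReal.rpow_ne_top_of_nonneg (by linarith)
        (ENNReal.mul_ne_top (by simp) hK)
  have hd0 : (d:ℝ≥0∞) ≠ 0 := by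
    have : d ≠ 0 := by omega
    exact_mod_cast this
  have h2 : (4 * 16 ^ d : ℝ≥0∞) ^ p * (d * Ksing (d / (p - 1))) ^ (p - 1) ≠ 0 := by
    apply mul_ne_zero
    · intro h
      rcases ENNReal.rpow_eq_zero_iff.1 h with ⟨h3, -⟩ | ⟨h3, h4⟩
      · exact (mul_ne_zero (by norm_num) (pow_ne_zero _ (by norm_num))) h3
      · linarith
    · intro h
      rcases ENNReal.rpow_eq_zero_iff.1 h with ⟨h3, -⟩ | ⟨h3, h4⟩
      · rcases mul_eq_zero.1 h3 with h5 | h5
        · exact hd0 h5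
        · rw [h5] at hK1; simp at hK1
      · linarith
  refine ⟨ENNReal.toReal_pos h2 h1, ENNReal.ofReal_toReal h1⟩

/-- **The loss-free estimate for tubes**, `p > n = d + 1`. -/
theorem tubes_p (hd : 1 ≤ d) {N : ℕ} {p : ℝ} (hp : (d:ℝ) + 1 < p) {T : Set ℝ}
    (hTm : MeasurableSet T)
    {B : Set (Vec d)} (hB : MeasurableSet B) (hB1 : B ⊆ closedBall 0 1)
    {g : Vec d → Vec d} {b : Vec d → Vec d} {δ : ℝ} {f : Space d → ℝ}
    (hg : LipPieces B g) (hN : OverlapLE N T B g) (hbg : ∀ v ∈ B, ‖b v - g v‖ ≤ δ)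
    (hδ : 0 < δ) (hδ1 : δ < 1) (hf : AEMeasurable f volume)
    (hfT : ∀ (y : Vec d) (t : ℝ), t ∉ T → f (WithLp.toLp 2 (y, t)) = 0) :
    ∫⁻ v in B, lineMax δ b f v ^ p
      ≤ ENNReal.ofReal (cstp d p * N) * ∫⁻ y, ‖f y‖ₑ ^ p := by
  classical
  have hd0 : (0:ℝ) ≤ d := Nat.cast_nonneg d
  have hp1 : 1 < p := by linarith
  set F : Space d → ℝ := fun y => if (WithLp.ofLp y).2 ∈ T then hf.mk f y else 0 with hF
  have hFm : Measurable F := by
    apply Measurable.ite _ hf.measurable_mk measurable_const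
    have : Measurable (fun y : Space d => (WithLp.ofLp y).2) :=
      measurable_snd.comp (WithLp.volume_preserving_ofLp (Vec d) ℝ).measurable
    exact this hTm
  have hFT : ∀ (y : Vec d) (t : ℝ), t ∉ T → F (WithLp.toLp 2 (y, t)) = 0 := by
    intro y t ht
    simp only [hF]
    rw [if_neg ht]
  have hfF : f =ᵐ[volume] F := by
    filter_upwards [hf.ae_eq_mk] with y hy
    simp only [hF]
    split_ifs with h
    · exact hy
    · exact hfT (WithLp.ofLp y).1 (WithLp.ofLp y).2 h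
  have e1 : ∀ v, lineMax δ b f v = lineMax δ b F v :=
    fun v => lineMax_congr b v hfF
  have e2 : ∫⁻ y, ‖f y‖ₑ ^ p = ∫⁻ y, ‖F y‖ₑ ^ p := by
    apply lintegral_congr_ae
    filter_upwards [hfF] with y hy
    rw [hy]
  simp only [e1]
  rw [e2]
  refine (tubeQ hd hB hB1 hg hN hp1 hδ hδ1 hbg hFm hFT).trans (le_of_eq ?_)
  obtain ⟨hc0, hc⟩ := cstp_spec hd hp
  rw [ENNReal.ofReal_mul hc0.le, hc, ENNReal.ofReal_natCast]
  ring

/-- **The estimate for line integrals**, `p > n = d + 1`. -/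
theorem lines_p (hd : 1 ≤ d) {N : ℕ} {p : ℝ} (hp : (d:ℝ) + 1 < p) {T : Set ℝ}
    {g : Vec d → Vec d} {B : Set (Vec d)} (hB : MeasurableSet B)
    (hg : LipPieces B g) (hN : OverlapLE N T B g) {f : Space d → ℝ} (hf : Measurable f)
    (hfT : ∀ (y : Vec d) (t : ℝ), t ∉ T → f (WithLp.toLp 2 (y, t)) = 0) :
    ∫⁻ v in B, (⨆ h : ℝ, ∫⁻ t in Icc h (h+3), ‖f (WithLp.toLp 2 (g v + t • v, t))‖ₑ) ^ p
      ≤ ENNReal.ofReal (cstp d p * N) * ∫⁻ y, ‖f y‖ₑ ^ p := by
  have hd0 : (0:ℝ) ≤ d := Nat.cast_nonneg d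
  have hp1 : 1 < p := by linarith
  have hp0 : 0 < p := by linarith
  have hmp := WithLp.volume_preserving_toLp (Vec d) ℝ
  have hf2 : Measurable (fun q : Vec d × ℝ => ‖f (WithLp.toLp 2 q)‖ₑ) :=
    (hf.comp hmp.measurable).enorm
  have hint := lineIntegrals hd hp1 hB hg hN hf2 (T := T) (fun y t ht => by simp [hfT _ t ht])
  have hS : ∫⁻ q : Vec d × ℝ, ‖f (WithLp.toLp 2 q)‖ₑ ^ p = ∫⁻ y : Space d, ‖f y‖ₑ ^ p :=
    hmp.lintegral_comp (f := fun y : Space d => ‖f y‖ₑ ^ p) (hf.enorm.pow_const _)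
  rw [hS] at hint
  obtain ⟨hc0, hc⟩ := cstp_spec hd hp
  simp only [iSup_rpow _ hp0]
  refine hint.trans ?_
  rw [ENNReal.ofReal_mul hc0.le, hc, ENNReal.ofReal_natCast]
  have h16 : (1:ℝ≥0∞) ≤ (4 * 16 ^ d) ^ p := by
    apply ENNReal.one_le_rpow _ hp0
    calc (1:ℝ≥0∞) = 1 * 1 ^ d := by simp
      _ ≤ 4 * 16 ^ d := by
        gcongr <;> norm_num
  calc (d * Ksing (d / (p - 1))) ^ (p - 1) * (N * ∫⁻ y, ‖f y‖ₑ ^ p)
      = 1 * ((d * Ksing (d / (p - 1))) ^ (p - 1) * (N * ∫⁻ y, ‖f y‖ₑ ^ p)) := by ring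
    _ ≤ (4 * 16 ^ d) ^ p * ((d * Ksing (d / (p - 1))) ^ (p - 1) * (N * ∫⁻ y, ‖f y‖ₑ ^ p)) := by
        gcongr
    _ = _ := by ring

end Pool.Agent.H805R3.Kk
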