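import Pool.Agent.H805R3.Kk.Over

set_option autoImplicit false

/-!
The estimate on a single line for exponents `p > d + 1`, without loss.
-/

open MeasureTheory Set Filter Topology ENNReal NNReal Metric

namespace Pool.Agent.H805R3.Kk

open Pool.Agent.H803R2.Kak Pool.Agent.H803R2.KakFTO

/-- Hölder's inequality raised to the power `p`. -/
theorem holder_rpow {α : Type*} [MeasurableSpace α] (ν : Measure α) {p : ℝ} (hp : 1 < p)
    {f g : α → ℝ≥0∞} (hf : AEMeasurable f ν) (hg : AEMeasurable g ν) :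
    (∫⁻ a, f a * g a ∂ν) ^ p
      ≤ (∫⁻ a, f a ^ p ∂ν) * (∫⁻ a, g a ^ (p / (p - 1)) ∂ν) ^ (p - 1) := by
  have hp0 : (0:ℝ) < p := by linarith
  have hp1 : (0:ℝ) < p - 1 := by linarith
  have hpq : p.HolderConjugate (p / (p - 1)) := by
    rw [Real.holderConjugate_iff]
    refine ⟨hp, ?_⟩
    field_simp
    ring
  have h := ENNReal.lintegral_mul_le_Lp_mul_Lq ν hpq hf hg
  have h2 : (∫⁻ a, f a * g a ∂ν) ^ p
      ≤ ((∫⁻ a, f a ^ p ∂ν) ^ (1 / p)
        * (∫⁻ a, g a ^ (p / (p - 1)) ∂ν) ^ (1 / (p / (p - 1)))) ^ p :=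
    ENNReal.rpow_le_rpow (by simpa using h) hp0.le
  refine h2.trans (le_of_eq ?_)
  rw [ENNReal.mul_rpow_of_nonneg _ _ hp0.le, ← ENNReal.rpow_mul, ← ENNReal.rpow_mul]
  congr 1
  · rw [one_div, inv_mul_cancel₀ hp0.ne', ENNReal.rpow_one]
  · congr 1
    field_simp

theorem lintegral_rpow_le {α : Type*} [MeasurableSpace α] (ν : Measure α) {p : ℝ} (hp : 1 < p)
    {f : α → ℝ≥0∞} (hf : AEMeasurable f ν) :
    (∫⁻ a, f a ∂ν) ^ p ≤ (∫⁻ a, f a ^ p ∂ν) * (ν univ) ^ (p - 1) := by
  have h := holder_rpow ν hp hf (g := fun _ => 1) aemeasurable_const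
  simpa using h

/-- The singular integral is finite. -/
theorem sing_lt_top {s : ℝ} (hs : s < 1) :
    ∫⁻ u in Icc (-1:ℝ) 1, ENNReal.ofReal (|u| ^ (-s)) < ∞ := by
  have h1 : IntegrableOn (fun u : ℝ => u ^ (-s)) (Icc 0 1) := by
    have := intervalIntegral.intervalIntegrable_rpow' (a := 0) (b := 1) (r := -s) (by linarith)
    rw [intervalIntegrable_iff_integrableOn_Icc_of_le zero_le_one] at this
    exact this
  have h2 : ∫⁻ u in Icc (0:ℝ) 1, ENNReal.ofReal (|u| ^ (-s)) < ∞ := by
    have h3 : IntegrableOn (fun u : ℝ => |u| ^ (-s)) (Icc 0 1) := by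
      refine h1.congr_fun ?_ measurableSet_Icc
      intro u hu
      simp only
      rw [abs_of_nonneg hu.1]
    exact h3.lintegral_lt_top
  have h4 : ∫⁻ u in Icc (-1:ℝ) 0, ENNReal.ofReal (|u| ^ (-s)) < ∞ := by
    have h5 : ∫⁻ u in Icc (-1:ℝ) 0, ENNReal.ofReal (|u| ^ (-s))
        = ∫⁻ u in Icc (0:ℝ) 1, ENNReal.ofReal (|u| ^ (-s)) := by
      rw [← lintegral_indicator measurableSet_Icc, ← lintegral_indicator measurableSet_Icc]
      rw [← lintegral_neg_eq_self]
      congr 1
      ext u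
      by_cases hu : u ∈ Icc (0:ℝ) 1
      · have h6 : -u ∈ Icc (-1:ℝ) 0 := ⟨by linarith [hu.2], by linarith [hu.1]⟩
        rw [indicator_of_mem hu, indicator_of_mem h6, abs_neg]
      · have h6 : -u ∉ Icc (-1:ℝ) 0 := fun h => hu ⟨by linarith [h.2], by linarith [h.1]⟩
        rw [indicator_of_notMem hu, indicator_of_notMem h6]
    rw [h5]; exact h2
  calc ∫⁻ u in Icc (-1:ℝ) 1, ENNReal.ofReal (|u| ^ (-s))
      ≤ ∫⁻ u in Icc (-1:ℝ) 0 ∪ Icc 0 1, ENNReal.ofReal (|u| ^ (-s)) := by
        apply lintegral_mono_set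
        intro u hu
        rcases le_total u 0 with h | h
        · left; exact ⟨hu.1, h⟩
        · right; exact ⟨h, hu.2⟩
    _ ≤ _ := lintegral_union_le _ _ _
    _ < ∞ := ENNReal.add_lt_top.2 ⟨h4, h2⟩

/-- The constant bounding the singular integrals. -/
noncomputable def Ksing (s : ℝ) : ℝ≥0∞ := (∫⁻ u in Icc (-1:ℝ) 1, ENNReal.ofReal (|u| ^ (-s))) + 3

theorem sing_le {s : ℝ} (hs0 : 0 < s) (m h : ℝ) :
    ∫⁻ t in Icc h (h + 3), ENNReal.ofReal (|t - m| ^ (-s)) ≤ Ksing s := by
  have h1 : ∀ t, ENNReal.ofReal (|t - m| ^ (-s))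
      ≤ (Icc (m-1) (m+1)).indicator (fun t => ENNReal.ofReal (|t - m| ^ (-s))) t + 1 := by
    intro t
    by_cases ht : t ∈ Icc (m-1) (m+1)
    · rw [indicator_of_mem ht]; exact le_self_add
    · rw [indicator_of_notMem ht, zero_add]
      rw [ENNReal.ofReal_le_one]
      have h2 : 1 < |t - m| := by
        by_contra hcon
        rw [not_lt, abs_le] at hcon
        exact ht ⟨by linarith [hcon.1], by linarith [hcon.2]⟩
      exact Real.rpow_le_one_of_one_le_of_nonpos h2.le (by linarith)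
  calc ∫⁻ t in Icc h (h + 3), ENNReal.ofReal (|t - m| ^ (-s))
      ≤ ∫⁻ t in Icc h (h + 3), ((Icc (m-1) (m+1)).indicator
          (fun t => ENNReal.ofReal (|t - m| ^ (-s))) t + 1) := lintegral_mono h1
    _ = (∫⁻ t in Icc h (h + 3), (Icc (m-1) (m+1)).indicator
          (fun t => ENNReal.ofReal (|t - m| ^ (-s))) t) + 3 := by
        rw [lintegral_add_right _ measurable_const, lintegral_one, Measure.restrict_apply_univ,
          Real.volume_Icc]
        congr 1
        have : h + 3 - h = 3 := by ring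
        rw [this]; simp
    _ ≤ (∫⁻ t, (Icc (m-1) (m+1)).indicator
          (fun t => ENNReal.ofReal (|t - m| ^ (-s))) t) + 3 := by
        exact add_le_add (setLIntegral_le_lintegral _ _) le_rfl
    _ = Ksing s := by
        rw [Ksing]
        congr 1
        rw [← lintegral_indicator measurableSet_Icc]
        rw [← lintegral_sub_right_eq_self (fun u => (Icc (-1:ℝ) 1).indicator
          (fun u => ENNReal.ofReal (|u| ^ (-s))) u) m]
        congr 1
        ext t
        by_cases ht : t ∈ Icc (m-1) (m+1)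
        · have h6 : t - m ∈ Icc (-1:ℝ) 1 := ⟨by linarith [ht.1], by linarith [ht.2]⟩
          rw [indicator_of_mem ht, indicator_of_mem h6]
        · have h6 : t - m ∉ Icc (-1:ℝ) 1 := fun h => ht ⟨by linarith [h.1], by linarith [h.2]⟩
          rw [indicator_of_notMem ht, indicator_of_notMem h6]

theorem prod_inv_rpow_le' {μ : Multiset ℝ} {d : ℕ} (hd : 1 ≤ d) (hμ : μ.card = d) {t p : ℝ}
    (hp : 1 < p) (ht : ∀ m ∈ μ, t ≠ m) {J : ℝ≥0∞}
    (hJ : ENNReal.ofReal (μ.map (fun m => |t - m|)).prod ≤ J) :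
    (J ^ (-(1 / p))) ^ (p / (p - 1))
      ≤ (μ.map (fun m => ENNReal.ofReal (|t - m| ^ (-(d / (p - 1)))))).sum := by
  have hd' : (1:ℝ) ≤ d := by exact_mod_cast hd
  have hp0 : (0:ℝ) < p := by linarith
  have hp1 : (0:ℝ) < p - 1 := by linarith
  have hne : μ ≠ 0 := by
    rintro rfl; simp at hμ; omega
  obtain ⟨m0, hm0, hmin⟩ : ∃ m0 ∈ μ, ∀ m ∈ μ, |t - m0| ≤ |t - m| := by
    have hfin : μ.toFinset.Nonempty := by
      rw [Multiset.toFinset_nonempty]; exact hne
    obtain ⟨m0, h1, h2⟩ := Finset.exists_min_image μ.toFinset (fun m => |t - m|) hfin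
    exact ⟨m0, Multiset.mem_toFinset.1 h1, fun m hm => h2 m (Multiset.mem_toFinset.2 hm)⟩
  have hpos : 0 < |t - m0| := abs_pos.2 (sub_ne_zero.2 (ht m0 hm0))
  have hprod : |t - m0| ^ d ≤ (μ.map (fun m => |t - m|)).prod := by
    rw [← hμ]
    have : ∀ (ν : Multiset ℝ), (∀ m ∈ ν, |t - m0| ≤ |t - m|) →
        |t - m0| ^ ν.card ≤ (ν.map (fun m => |t - m|)).prod := by
      intro ν
      induction ν using Multiset.induction_on with
      | empty => intro _; simp
      | cons a ν ih =>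
        intro h
        rw [Multiset.card_cons, pow_succ, mul_comm, Multiset.map_cons, Multiset.prod_cons]
        exact mul_le_mul (h a (Multiset.mem_cons_self a ν))
          (ih (fun m hm => h m (Multiset.mem_cons_of_mem hm))) (by positivity) (abs_nonneg _)
    exact this μ hmin
  rw [← ENNReal.rpow_mul]
  have he : -(1 / p) * (p / (p - 1)) = -(1 / (p - 1)) := by field_simp
  rw [he]
  have h1 : ENNReal.ofReal (|t - m0| ^ d) ≤ J := (ENNReal.ofReal_le_ofReal hprod).trans hJ
  have h2 : J ^ (-(1 / (p - 1))) ≤ (ENNReal.ofReal (|t - m0| ^ d)) ^ (-(1 / (p - 1))) := by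
    rw [ENNReal.rpow_neg, ENNReal.rpow_neg]
    exact ENNReal.inv_le_inv.2 (ENNReal.rpow_le_rpow h1 (by positivity))
  have h3 : (ENNReal.ofReal (|t - m0| ^ d)) ^ (-(1 / (p - 1)))
      = ENNReal.ofReal (|t - m0| ^ (-(d / (p - 1)))) := by
    rw [ENNReal.ofReal_rpow_of_pos (by positivity)]
    congr 1
    rw [← Real.rpow_natCast, ← Real.rpow_mul (abs_nonneg _)]
    congr 1
    ring
  rw [h3] at h2
  refine h2.trans ?_
  exact Multiset.single_le_sum (s := μ.map (fun m => ENNReal.ofReal (|t - m| ^ (-(d / (p - 1))))))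
    (fun _ _ => zero_le) _ (Multiset.mem_map_of_mem _ hm0)

/-- The estimate on one line, `p > d + 1`. -/
theorem line_estimate_p {μ : Multiset ℝ} {d : ℕ} (hd : 1 ≤ d) (hμ : μ.card = d) {p : ℝ}
    (hp : 1 < p) {J : ℝ → ℝ≥0∞} (hJm : Measurable J)
    (hJtop : ∀ t, J t ≠ ∞)
    (hJ : ∀ t, ENNReal.ofReal (μ.map (fun m => |t - m|)).prod ≤ J t)
    {G : ℝ → ℝ≥0∞} (hG : Measurable G) (h : ℝ) :
    (∫⁻ t in Icc h (h + 3), G t) ^ p
      ≤ (d * Ksing (d / (p - 1))) ^ (p - 1) * (∫⁻ t, G t ^ p * J t) := by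
  classical
  have hd' : (1:ℝ) ≤ d := by exact_mod_cast hd
  have hp0 : (0:ℝ) < p := by linarith
  have hp1 : (0:ℝ) < p - 1 := by linarith
  set s : ℝ := d / (p - 1) with hs
  have hs0 : 0 < s := by positivity
  -- almost every `t` is not a center
  have hae : ∀ᵐ t : ℝ ∂(volume.restrict (Icc h (h+3))), ∀ m ∈ μ, t ≠ m := by
    apply ae_restrict_of_ae
    have hfin : (↑μ.toFinset : Set ℝ).Finite := μ.toFinset.finite_toSet
    have h0 : volume (↑μ.toFinset : Set ℝ) = 0 := hfin.measure_zero _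
    filter_upwards [measure_eq_zero_iff_ae_notMem.1 h0] with t ht m hm htm
    apply ht
    rw [htm]
    simpa using hm
  have hJpos : ∀ t, (∀ m ∈ μ, t ≠ m) → J t ≠ 0 := by
    intro t ht h0
    have h1 := hJ t
    rw [h0] at h1
    have h2 : (μ.map (fun m => |t - m|)).prod ≤ 0 := ENNReal.ofReal_eq_zero.1 (le_antisymm h1 zero_le)
    have h3 : 0 < (μ.map (fun m => |t - m|)).prod := by
      have : ∀ (ν : Multiset ℝ), (∀ m ∈ ν, t ≠ m) → 0 < (ν.map (fun m => |t - m|)).prod := by
        intro ν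
        induction ν using Multiset.induction_on with
        | empty => intro _; simp
        | cons a ν ih =>
          intro h
          rw [Multiset.map_cons, Multiset.prod_cons]
          exact mul_pos (abs_pos.2 (sub_ne_zero.2 (h a (Multiset.mem_cons_self a ν))))
            (ih (fun m hm => h m (Multiset.mem_cons_of_mem hm)))
      exact this μ ht
    linarith
  have hfac : ∫⁻ t in Icc h (h+3), G t
      = ∫⁻ t in Icc h (h+3), (G t * J t ^ (1 / p)) * J t ^ (-(1 / p)) := by
    apply lintegral_congr_ae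
    filter_upwards [hae] with t ht
    rw [mul_assoc, ← ENNReal.rpow_add _ _ (hJpos t ht) (hJtop t)]
    simp
  rw [hfac]
  refine (holder_rpow (volume.restrict (Icc h (h+3))) hp
    ((hG.mul (hJm.pow_const _)).aemeasurable) ((hJm.pow_const _).aemeasurable)).trans ?_
  rw [mul_comm]
  apply mul_le_mul'
  · refine ENNReal.rpow_le_rpow ?_ hp1.le
    calc ∫⁻ a in Icc h (h+3), (J a ^ (-(1 / p))) ^ (p / (p - 1))
        ≤ ∫⁻ a in Icc h (h+3), (μ.map (fun m => ENNReal.ofReal (|a - m| ^ (-s)))).sum := by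
          apply lintegral_mono_ae
          filter_upwards [hae] with t ht
          exact prod_inv_rpow_le' hd hμ hp ht (hJ t)
      _ ≤ (μ.map (fun m => Ksing s)).sum := by
          have : ∀ (ν : Multiset ℝ),
              ∫⁻ a in Icc h (h+3), (ν.map (fun m => ENNReal.ofReal (|a - m| ^ (-s)))).sum
              ≤ (ν.map (fun m => Ksing s)).sum := by
            intro ν
            induction ν using Multiset.induction_on with
            | empty => simp
            | cons a ν ih =>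
              simp only [Multiset.map_cons, Multiset.sum_cons]
              rw [lintegral_add_left]
              · exact add_le_add (sing_le hs0 a h) ih
              · exact (((measurable_id.sub_const a).abs).pow_const _).ennreal_ofReal
          exact this μ
      _ = d * Ksing s := by
          rw [Multiset.map_const', Multiset.sum_replicate, hμ, nsmul_eq_mul]
  · calc ∫⁻ a in Icc h (h+3), (G a * J a ^ (1 / p)) ^ p
        = ∫⁻ a in Icc h (h+3), G a ^ p * J a := by
          congr 1; ext a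
          rw [ENNReal.mul_rpow_of_nonneg _ _ hp0.le, ← ENNReal.rpow_mul, one_div,
            inv_mul_cancel₀ hp0.ne', ENNReal.rpow_one]
      _ ≤ ∫⁻ a, G a ^ p * J a := setLIntegral_le_lintegral _ _

end Pool.Agent.H805R3.Kk
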