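import Pool.Agent.H805R3.Kk.AreaW

set_option autoImplicit false

/-!
The Kakeya maximal estimate for section-monotone families of lines.
-/

open MeasureTheory Set Filter Topology ENNReal NNReal Metric

namespace Pool.Agent.H805R3.Kk

open Pool.Agent.H803R2.Kak Pool.Agent.H803R2.KakFTO

variable {d : ℕ}

/-- For almost every height `t ∈ T` the section map `v ↦ b v + t v` becomes monotone on `B` after
composition with an invertible linear map `K` (which may depend on `t`). -/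
def SectionMonotone (T : Set ℝ) (B : Set (Vec d)) (b : Vec d → Vec d) : Prop :=
  ∀ᵐ t : ℝ, t ∈ T → ∃ K : Vec d →L[ℝ] Vec d, K.det ≠ 0 ∧
    ∀ v ∈ B, ∀ w ∈ B, 0 ≤ inner ℝ (K ((b v + t • v) - (b w + t • w))) (v - w)

/-- a section-monotone map is differentiable within `B` almost everywhere on `B` -/
theorem SectionMonotone.ae_diff {T : Set ℝ} (hT : volume T ≠ 0) {B : Set (Vec d)}
    {b : Vec d → Vec d} (h : SectionMonotone T B b) :
    volume {v | v ∈ B ∧ ¬ DifferentiableWithinAt ℝ b B v} = 0 := by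
  obtain ⟨t, K, hK, hm⟩ : ∃ t : ℝ, ∃ K : Vec d →L[ℝ] Vec d, K.det ≠ 0 ∧
      ∀ v ∈ B, ∀ w ∈ B, 0 ≤ inner ℝ (K ((b v + t • v) - (b w + t • w))) (v - w) := by
    by_contra hcon
    apply hT
    unfold SectionMonotone at h
    rw [ae_iff] at h
    refine measure_mono_null ?_ h
    intro t ht h'
    exact hcon ⟨t, h' ht⟩
  have h1 := ae_differentiableWithinAt_of_mono (volume : Measure (Vec d)) (B := B)
    (M := fun v => K (b v + t • v)) (by
      intro v hv w hw
      have := hm v hv w hw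
      rw [map_sub] at this
      exact this)
  refine measure_mono_null ?_ h1
  rintro v ⟨hv, hnd⟩
  refine ⟨hv, fun hd => hnd ?_⟩
  have h2 : b = fun w => (K.toContinuousLinearEquivOfDetNeZero hK).symm (K (b w + t • w)) - t • w := by
    ext1 w
    have : (K.toContinuousLinearEquivOfDetNeZero hK).symm (K (b w + t • w)) = b w + t • w :=
      (K.toContinuousLinearEquivOfDetNeZero hK).symm_apply_apply (b w + t • w)
    rw [this, add_sub_cancel_right]
  rw [h2]
  have h3 : DifferentiableWithinAt ℝ (fun w => (K.toContinuousLinearEquivOfDetNeZero hK).symm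
      (K (b w + t • w))) B v :=
    ((K.toContinuousLinearEquivOfDetNeZero hK).symm.differentiableAt).comp_differentiableWithinAt v hd
  exact h3.sub (differentiableWithinAt_id.const_smul t)

/-- A section-monotone map is, on a set of full measure, differentiable with measurable derivative,
and its section maps are injective at non-degenerate points. -/
theorem SectionMonotone.exists_good {T : Set ℝ} (hT : volume T ≠ 0) {B : Set (Vec d)}
    (hB : MeasurableSet B) {b : Vec d → Vec d} (hb : SectionMonotone T B b) :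
    ∃ (B2 : Set (Vec d)) (b2 : Vec d → Vec d →L[ℝ] Vec d), MeasurableSet B2 ∧ B2 ⊆ B ∧
      B2 =ᵐ[volume] B ∧ (∀ v ∈ B2, HasFDerivWithinAt b (b2 v) B2 v) ∧ Measurable b2 ∧
      ∀ᵐ t : ℝ, t ∈ T → ∀ᵐ y : Vec d, {v | v ∈ B2 ∧ b v + t • v = y ∧
        (b2 v + t • ContinuousLinearMap.id ℝ (Vec d)).det ≠ 0}.encard ≤ (1:ℕ) := by
  classical
  -- the good set
  set Z1 : Set (Vec d) := {v | v ∈ B ∧ ¬ DifferentiableWithinAt ℝ b B v} with hZ1
  have hZ1z : volume Z1 = 0 := hb.ae_diff hT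
  set Z2 : Set (Vec d) := {v | v ∈ B ∧ ¬ Dens volume B v} with hZ2
  have hZ2z : volume Z2 = 0 := by
    have h3 := ae_dens volume B
    rw [ae_iff] at h3
    have h4 := Measure.le_restrict_apply (μ := volume) B {x | ¬ Dens volume B x}
    rw [h3, nonpos_iff_eq_zero] at h4
    convert h4 using 2
    ext x
    simp [Z2, and_comm]
  set W := toMeasurable volume (Z1 ∪ Z2) with hW
  have hWz : volume W = 0 := by
    rw [hW, measure_toMeasurable]
    exact measure_union_null hZ1z hZ2z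
  set B1 := B \ W with hB1def
  have hB1m : MeasurableSet B1 := hB.diff (measurableSet_toMeasurable _ _)
  have hgood : ∀ v ∈ B1, DifferentiableWithinAt ℝ b B v ∧ Dens volume B v := by
    rintro v ⟨hv, hvW⟩
    have h1 : v ∉ Z1 ∪ Z2 := fun h => hvW (subset_toMeasurable _ _ h)
    constructor
    · by_contra h; exact h1 (Or.inl ⟨hv, h⟩)
    · by_contra h; exact h1 (Or.inr ⟨hv, h⟩)
  set b1 : Vec d → Vec d →L[ℝ] Vec d := fun v => fderivWithin ℝ b B v with hb1
  have hder1 : ∀ v ∈ B1, HasFDerivWithinAt b (b1 v) B v := fun v hv => (hgood v hv).1.hasFDerivWithinAt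
  have hae : AEMeasurable b1 (volume.restrict B1) :=
    aemeasurable_fderivWithin volume hB1m (fun v hv => (hder1 v hv).mono sdiff_subset)
  set b2 := hae.mk b1 with hb2
  have hb2m : Measurable b2 := hae.measurable_mk
  set Z3 : Set (Vec d) := {v | v ∈ B1 ∧ b1 v ≠ b2 v} with hZ3
  have hZ3z : volume Z3 = 0 := by
    have h1 := hae.ae_eq_mk
    rw [Filter.EventuallyEq, ae_iff, Measure.restrict_apply' hB1m] at h1
    convert h1 using 2
    ext x
    simp only [Z3, mem_inter_iff, Set.mem_ofPred_eq]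
    exact and_comm
  set W3 := toMeasurable volume Z3 with hW3
  have hW3z : volume W3 = 0 := by rw [hW3, measure_toMeasurable]; exact hZ3z
  set B2 := B1 \ W3 with hB2def
  have hB2m : MeasurableSet B2 := hB1m.diff (measurableSet_toMeasurable _ _)
  have hB21 : B2 ⊆ B1 := sdiff_subset
  have hB2B : B2 ⊆ B := hB21.trans sdiff_subset
  have heq : ∀ v ∈ B2, b2 v = b1 v := by
    rintro v ⟨hv, hvW⟩
    by_contra h
    exact hvW (subset_toMeasurable _ _ ⟨hv, fun h' => h h'.symm⟩)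
  have hder2 : ∀ v ∈ B2, HasFDerivWithinAt b (b2 v) B v := by
    intro v hv
    rw [heq v hv]
    exact hder1 v (hB21 hv)
  have hmult : ∀ᵐ t : ℝ, t ∈ T → ∀ᵐ y : Vec d, {v | v ∈ B2 ∧ b v + t • v = y ∧
      (b2 v + t • ContinuousLinearMap.id ℝ (Vec d)).det ≠ 0}.encard ≤ (1:ℕ) := by
    filter_upwards [hb] with t ht htT
    obtain ⟨K, hK, hm⟩ := ht htT
    apply Eventually.of_forall
    intro y
    rw [Nat.cast_one, Set.encard_le_one_iff]
    rintro v w ⟨hv, hvy, hvd⟩ ⟨hw, hwy, -⟩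
    have hF : HasFDerivWithinAt (fun v => b v + t • v)
        (b2 v + t • ContinuousLinearMap.id ℝ (Vec d)) B v :=
      (hder2 v hv).add ((hasFDerivWithinAt_id v B).const_smul t)
    refine eq_of_mono_of_dens volume (hgood v (hB21 hv)).2 hF hvd hK ?_ ?_
    · intro y hy
      exact hm y hy w (hB2B hw)
    · show b v + t • v = b w + t • w
      rw [hvy, hwy]
  have hsets : (B2 : Set (Vec d)) =ᵐ[volume] B := by
    have h1 : B \ B2 ⊆ W ∪ W3 := by
      rintro v ⟨hv, hv2⟩
      by_contra h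
      apply hv2
      exact ⟨⟨hv, fun h' => h (Or.inl h')⟩, fun h' => h (Or.inr h')⟩
    have h2 : volume (B \ B2) = 0 := measure_mono_null h1 (measure_union_null hWz hW3z)
    have h3 : volume (B2 \ B) = 0 := by
      rw [sdiff_eq_empty.2 hB2B]; simp
    exact (ae_eq_set).2 ⟨h3, h2⟩
  exact ⟨B2, b2, hB2m, hB2B, hsets, fun v hv => (hder2 v hv).mono hB2B, hb2m, hmult⟩

/-- Comparison of mollifications around nearby points. -/
theorem moll_le_moll {r r' : ℝ} (hr : 0 < r) (hr' : r ≤ r') (f : Vec d × ℝ → ℝ≥0∞) {y y' : Vec d}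
    (hy : ‖y - y'‖ ≤ r' - r) (t : ℝ) :
    moll r f (y, t) ≤ (volume (closedBall (0:Vec d) r))⁻¹ * volume (closedBall (0:Vec d) r')
      * moll r' f (y', t) := by
  have hV0 := (vol_pos (d := d) (r := r') (by linarith)).ne'
  have hVt := (vol_lt_top (d := d) (r := r')).ne
  unfold moll
  rw [mul_assoc, ← mul_assoc (volume (closedBall (0:Vec d) r')), ENNReal.mul_inv_cancel hV0 hVt,
    one_mul]
  refine mul_le_mul_right ?_ _
  rw [← lintegral_indicator measurableSet_closedBall, ← lintegral_indicator measurableSet_closedBall]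
  have h1 : ∫⁻ w : Vec d, (closedBall (0:Vec d) r).indicator (fun w => f (y + w, t)) w
      = ∫⁻ w : Vec d, (closedBall (0:Vec d) r).indicator (fun w => f (y + w, t)) (-y + w) :=
    (lintegral_add_left_eq_self _ (-y)).symm
  have h2 : ∫⁻ w : Vec d, (closedBall (0:Vec d) r').indicator (fun w => f (y' + w, t)) w
      = ∫⁻ w : Vec d, (closedBall (0:Vec d) r').indicator (fun w => f (y' + w, t)) (-y' + w) :=
    (lintegral_add_left_eq_self _ (-y')).symm
  rw [h1, h2]
  apply lintegral_mono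
  intro w
  by_cases hw : -y + w ∈ closedBall (0:Vec d) r
  · have hw' : -y' + w ∈ closedBall (0:Vec d) r' := by
      simp only [mem_closedBall, dist_zero_right] at hw ⊢
      calc ‖-y' + w‖ = ‖(-y + w) + (y - y')‖ := by congr 1; abel
        _ ≤ ‖-y + w‖ + ‖y - y'‖ := norm_add_le _ _
        _ ≤ r' := by linarith
    simp only
    rw [indicator_of_mem hw, indicator_of_mem hw']
    simp
  · simp only
    rw [indicator_of_notMem hw]
    exact zero_le

/-- A function vanishing off a null set of heights vanishes almost everywhere. -/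
theorem ae_eq_zero_of_heights {T : Set ℝ} (hT : volume T = 0) {f : Space d → ℝ}
    (hfT : ∀ (y : Vec d) (t : ℝ), t ∉ T → f (WithLp.toLp 2 (y, t)) = 0) :
    f =ᵐ[volume] (fun _ => 0) := by
  have h1 : (volume : Measure (Vec d × ℝ)) (univ ×ˢ T) = 0 := by
    rw [Measure.volume_eq_prod, Measure.prod_prod, hT, mul_zero]
  have h2 : (volume : Measure (Vec d × ℝ)) (toMeasurable volume (univ ×ˢ T)) = 0 := by
    rw [measure_toMeasurable]; exact h1
  have hmp := WithLp.volume_preserving_ofLp (Vec d) ℝ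
  have h3 := hmp.measure_preimage (measurableSet_toMeasurable volume (univ ×ˢ T)).nullMeasurableSet
  rw [h2] at h3
  rw [Filter.EventuallyEq, ae_iff]
  refine measure_mono_null ?_ h3
  intro y hy
  apply subset_toMeasurable
  refine ⟨mem_univ _, ?_⟩
  by_contra h
  exact hy (hfT _ _ h)

/-- The estimate on a set of directions on which `b` is `δ`-close to a section-monotone map `g`. -/
theorem piece (hd : 1 ≤ d) {T : Set ℝ} {g : Vec d → Vec d} {B : Set (Vec d)} (hB : MeasurableSet B)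
    (hB1 : B ⊆ closedBall 0 1) (hg : SectionMonotone T B g)
    {b : Vec d → Vec d} {δ : ℝ} (hδ : 0 < δ) (hδ1 : δ < 1)
    (hb : ∀ v ∈ B, ‖b v - g v‖ ≤ δ) {f : Space d → ℝ} (hf : Measurable f)
    (hfT : ∀ (y : Vec d) (t : ℝ), t ∉ T → f (WithLp.toLp 2 (y, t)) = 0) :
    ∫⁻ v in B, lineMax δ b f v ^ (d + 1)
      ≤ (4 * 16 ^ d) ^ (d + 1) * (2 ^ (d + 1) *
        ((2 * d * ENNReal.ofReal (Real.log (1 + 3/(2*δ))))^d * (1 : ℕ) + d^d))
        * ∫⁻ y, ‖f y‖ₑ ^ (d + 1) := by
  by_cases hT : volume T = 0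
  · have h0 : ∀ v, lineMax δ b f v = 0 := by
      intro v
      rw [lineMax_congr b v (ae_eq_zero_of_heights hT hfT)]
      simp [lineMax]
    simp [h0]
  have hmp := WithLp.volume_preserving_toLp (Vec d) ℝ
  have hf2 : Measurable (fun p : Vec d × ℝ => ‖f (WithLp.toLp 2 p)‖ₑ) :=
    (hf.comp hmp.measurable).enorm
  obtain ⟨B2, g2, hB2m, hB2B, hsets, hder, hg2m, hmult⟩ := hg.exists_good hT hB
  rw [← setLIntegral_congr hsets]
  have hint := integratedW hd hB2m (hB2B.trans hB1) (b := g) hder hg2m hmult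
    (δ := 2 * δ) (by linarith) hf2 (fun y t ht => by simp [hfT y t ht])
  have hS : ∫⁻ p : Vec d × ℝ, ‖f (WithLp.toLp 2 p)‖ₑ ^ (d+1) = ∫⁻ y : Space d, ‖f y‖ₑ ^ (d + 1) :=
    hmp.lintegral_comp (f := fun y : Space d => ‖f y‖ₑ ^ (d + 1)) (hf.enorm.pow_const _)
  rw [hS] at hint
  set S := ∫⁻ y : Space d, ‖f y‖ₑ ^ (d + 1) with hSdef
  set M : Vec d → ℝ≥0∞ := fun v => ⨆ h : ℝ, (∫⁻ t in Icc h (h+3),
    moll (2*(2*δ)) (fun p : Vec d × ℝ => ‖f (WithLp.toLp 2 p)‖ₑ)
      (g v + t • v, t)) ^ (d+1) with hM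
  have hpt : ∀ v ∈ B2, lineMax δ b f v ^ (d + 1) ≤ (4 * 16 ^ d) ^ (d + 1) * M v := by
    intro v hv
    have hv1 : ‖v‖ ≤ 1 := by simpa using hB1 (hB2B hv)
    have hcomp : ∀ t : ℝ, moll (2*δ) (fun p : Vec d × ℝ => ‖f (WithLp.toLp 2 p)‖ₑ)
        (b v + t • v, t) ≤ 2 ^ d * moll (2*(2*δ))
          (fun p : Vec d × ℝ => ‖f (WithLp.toLp 2 p)‖ₑ) (g v + t • v, t) := by
      intro t
      have h1 := moll_le_moll (r := 2*δ) (r' := 2*(2*δ)) (by linarith) (by linarith)
        (fun p : Vec d × ℝ => ‖f (WithLp.toLp 2 p)‖ₑ) (y := b v + t • v)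
        (y' := g v + t • v) (by
          have : b v + t • v - (g v + t • v) = b v - g v := by abel
          rw [this]
          have := hb v (hB2B hv)
          linarith) t
      have h2 : (volume (closedBall (0:Vec d) (2*δ)))⁻¹ * volume (closedBall (0:Vec d) (2*(2*δ)))
          = 2 ^ d := by
        have hV0 := (vol_pos (d := d) (r := 2 * δ) (by linarith)).ne'
        have hVt := (vol_lt_top (d := d) (r := 2 * δ)).ne
        have h4 : volume (closedBall (0:Vec d) (2*(2*δ)))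
            = 2 ^ d * volume (closedBall (0:Vec d) (2*δ)) := by
          have h5 : ENNReal.ofReal (2*(2*δ)) = 2 * ENNReal.ofReal (2*δ) := by
            rw [ENNReal.ofReal_mul (p := 2) (q := 2 * δ) (by norm_num)]
            simp
          rw [vol_ball_scale (d := d) (r := 2*(2*δ)) (by linarith),
            vol_ball_scale (d := d) (r := 2*δ) (by linarith), h5, mul_pow, mul_assoc]
        rw [h4, mul_comm, mul_assoc, ENNReal.mul_inv_cancel hV0 hVt, mul_one]
      rw [h2] at h1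
      exact h1
    calc lineMax δ b f v ^ (d + 1) ≤ ((4 * 8 ^ d) * ⨆ h : ℝ, ∫⁻ t in Icc h (h + 3),
          moll (2*δ) (fun p : Vec d × ℝ => ‖f (WithLp.toLp 2 p)‖ₑ) (b v + t • v, t)) ^ (d + 1) := by
          gcongr
          exact lineMax_le hδ hδ1 b hv1 hf
      _ ≤ ((4 * 8 ^ d) * (2 ^ d * ⨆ h : ℝ, ∫⁻ t in Icc h (h + 3),
          moll (2*(2*δ)) (fun p : Vec d × ℝ => ‖f (WithLp.toLp 2 p)‖ₑ)
            (g v + t • v, t))) ^ (d + 1) := by
          gcongr
          apply iSup_le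
          intro h
          calc ∫⁻ t in Icc h (h + 3),
                moll (2*δ) (fun p : Vec d × ℝ => ‖f (WithLp.toLp 2 p)‖ₑ) (b v + t • v, t)
              ≤ ∫⁻ t in Icc h (h + 3), 2 ^ d * moll (2*(2*δ))
                (fun p : Vec d × ℝ => ‖f (WithLp.toLp 2 p)‖ₑ) (g v + t • v, t) :=
                lintegral_mono hcomp
            _ = 2 ^ d * ∫⁻ t in Icc h (h + 3), moll (2*(2*δ))
                (fun p : Vec d × ℝ => ‖f (WithLp.toLp 2 p)‖ₑ) (g v + t • v, t) := by
                rw [lintegral_const_mul' _ _ (ENNReal.pow_ne_top (by simp))]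
            _ ≤ _ := by
                gcongr
                exact le_iSup (fun h : ℝ => ∫⁻ t in Icc h (h + 3), moll (2*(2*δ))
                  (fun p : Vec d × ℝ => ‖f (WithLp.toLp 2 p)‖ₑ) (g v + t • v, t)) h
      _ = (4 * 16 ^ d) ^ (d + 1) * M v := by
          rw [hM]
          simp only
          rw [← ENNReal.iSup_pow, ← mul_pow]
          congr 1
          have : (16:ℝ≥0∞) ^ d = 8 ^ d * 2 ^ d := by rw [← mul_pow]; norm_num
          rw [this]
          ring
  calc ∫⁻ v in B2, lineMax δ b f v ^ (d + 1)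
      ≤ ∫⁻ v in B2, (4 * 16 ^ d) ^ (d + 1) * M v := setLIntegral_mono' hB2m hpt
    _ = (4 * 16 ^ d) ^ (d + 1) * ∫⁻ v in B2, M v := by
        rw [lintegral_const_mul']
        exact ENNReal.pow_ne_top (ENNReal.mul_ne_top (by simp) (ENNReal.pow_ne_top (by simp)))
    _ ≤ (4 * 16 ^ d) ^ (d + 1) * (2 ^ (d + 1) *
          ((2 * d * ENNReal.ofReal (Real.log (1 + 3/(2*δ))))^d * (1 : ℕ) + d^d)
            * S) := by gcongr
    _ = _ := by ring

/-- The constant of the estimate. -/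
noncomputable def cst (d : ℕ) : ℝ :=
  (8 * 16 ^ d) ^ (d + 1) * ((4 * d) ^ d + d ^ d)

/-- The estimate on one piece with real constants. -/
theorem piece' (hd : 1 ≤ d) {T : Set ℝ} {g : Vec d → Vec d} {B : Set (Vec d)} (hB : MeasurableSet B)
    (hB1 : B ⊆ closedBall 0 1) (hg : SectionMonotone T B g)
    {b : Vec d → Vec d} {δ : ℝ} (hδ : 0 < δ) (hδ1 : δ < 1)
    (hb : ∀ v ∈ B, ‖b v - g v‖ ≤ δ) {f : Space d → ℝ} (hf : Measurable f)
    (hfT : ∀ (y : Vec d) (t : ℝ), t ∉ T → f (WithLp.toLp 2 (y, t)) = 0) :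
    ∫⁻ v in B, lineMax δ b f v ^ (d + 1)
      ≤ ENNReal.ofReal (cst d * (1 + Real.log (1 / δ)) ^ d) * ∫⁻ y, ‖f y‖ₑ ^ (d + 1) := by
  refine (piece hd hB hB1 hg hδ hδ1 hb hf hfT).trans ?_
  refine mul_le_mul_left ?_ _
  have hlog : 0 ≤ Real.log (1 / δ) := Real.log_nonneg (by rw [le_div_iff₀ hδ]; linarith)
  have hlog2 : Real.log (1 + 3 / (2 * δ)) ≤ 2 * (1 + Real.log (1 / δ)) := by
    have h1 : 1 + 3 / (2 * δ) ≤ 4 * (1 / δ) := by
      have : 1 ≤ 1 / δ := by rw [le_div_iff₀ hδ]; linarith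
      calc 1 + 3 / (2 * δ) = 1 + (3/2) * (1 / δ) := by field_simp
        _ ≤ 4 * (1 / δ) := by linarith
    have h2 : Real.log 4 ≤ 2 := by
      have h3 : (4:ℝ) = 2 ^ 2 := by norm_num
      rw [h3, Real.log_pow]
      have := Real.log_two_lt_d9
      push_cast
      linarith
    calc Real.log (1 + 3 / (2 * δ)) ≤ Real.log (4 * (1 / δ)) := Real.log_le_log (by positivity) h1
      _ = Real.log 4 + Real.log (1 / δ) := Real.log_mul (by norm_num) (by positivity)
      _ ≤ 2 * (1 + Real.log (1 / δ)) := by linarith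
  set N : ℕ := 1 with hN
  have e1 : (2 * d * ENNReal.ofReal (Real.log (1 + 3/(2*δ))) : ℝ≥0∞)
      = ENNReal.ofReal (2 * d * Real.log (1 + 3/(2*δ))) := by
    rw [ENNReal.ofReal_mul (by positivity), ENNReal.ofReal_mul (by positivity)]
    simp
  have hl0 : 0 ≤ Real.log (1 + 3/(2*δ)) := Real.log_nonneg (by
    have : 0 < 3 / (2*δ) := by positivity
    linarith)
  have e2 : (4 * 16 ^ d : ℝ≥0∞) ^ (d + 1) * (2 ^ (d + 1) *
    ((2 * d * ENNReal.ofReal (Real.log (1 + 3/(2*δ))))^d * N + d^d))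
      = ENNReal.ofReal ((4 * 16 ^ d) ^ (d + 1) * (2 ^ (d + 1) *
        ((2 * d * Real.log (1 + 3/(2*δ))) ^ d * N + d ^ d))) := by
    have h0 : (0:ℝ) ≤ (2 * d * Real.log (1 + 3/(2*δ))) ^ d := by positivity
    rw [ofReal_comb (by positivity) (by positivity) h0 (by positivity) (by positivity), e1,
      ENNReal.ofReal_pow (p := 2 * d * Real.log (1 + 3/(2*δ))) (by positivity) d]
    have a1 : ENNReal.ofReal ((4 * 16 ^ d) ^ (d + 1)) = (4 * 16 ^ d : ℝ≥0∞) ^ (d + 1) := by
      rw [ENNReal.ofReal_pow (by positivity), ENNReal.ofReal_mul (by positivity),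
        ENNReal.ofReal_pow (by positivity)]
      simp
    have a2 : ENNReal.ofReal (2 ^ (d + 1)) = (2 : ℝ≥0∞) ^ (d + 1) := by
      rw [ENNReal.ofReal_pow (by positivity)]
      simp
    have a3 : ENNReal.ofReal ((d:ℝ) ^ d) = (d : ℝ≥0∞) ^ d := by
      rw [ENNReal.ofReal_pow (by positivity)]
      simp
    have a4 : ENNReal.ofReal (N:ℝ) = (N : ℝ≥0∞) := by simp
    rw [a1, a2, a3, a4]
  rw [e2]
  apply ENNReal.ofReal_le_ofReal
  rw [cst, hN]
  set l := 1 + Real.log (1 / δ) with hl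
  have hl1 : 1 ≤ l := by linarith
  have b1 : (2 * d * Real.log (1 + 3/(2*δ))) ^ d ≤ (4 * d) ^ d * l ^ d := by
    rw [← mul_pow]
    apply pow_le_pow_left₀ (by positivity)
    calc 2 * d * Real.log (1 + 3/(2*δ)) ≤ 2 * d * (2 * l) := by gcongr
      _ = 4 * d * l := by ring
  have b2 : (d:ℝ) ^ d ≤ d ^ d * l ^ d := by
    have := one_le_pow₀ (n := d) hl1
    have h0 : (0:ℝ) ≤ (d:ℝ) ^ d := by positivity
    nlinarith
  calc (4 * 16 ^ d : ℝ) ^ (d + 1) * (2 ^ (d + 1) *
        ((2 * d * Real.log (1 + 3/(2*δ))) ^ d * (1:ℕ) + d ^ d))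
      ≤ (4 * 16 ^ d) ^ (d + 1) * (2 ^ (d + 1) *
        (((4 * d) ^ d * l ^ d) * (1:ℕ) + d ^ d * l ^ d)) := by gcongr
    _ = (8 * 16 ^ d) ^ (d + 1) * ((4 * d) ^ d + d ^ d) * l ^ d := by
        have : (8 * 16 ^ d : ℝ) = (4 * 16 ^ d) * 2 := by ring
        rw [this, mul_pow _ (2:ℝ)]
        push_cast
        ring

/-- The estimate for a family that consists of `N` pieces, each `δ`-close to a section-monotone
one. -/
theorem pieces (hd : 1 ≤ d) {N : ℕ} {T : Set ℝ} (hTm : MeasurableSet T) {B : Fin N → Set (Vec d)}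
    {g : Fin N → Vec d → Vec d} {b : Vec d → Vec d} {δ : ℝ} {f : Space d → ℝ}
    (hB : ∀ j, MeasurableSet (B j) ∧ B j ⊆ closedBall 0 1)
    (hg : ∀ j, SectionMonotone T (B j) (g j)) (hbg : ∀ j, ∀ v ∈ B j, ‖b v - g j v‖ ≤ δ)
    (hδ : 0 < δ) (hδ1 : δ < 1) (hf : AEMeasurable f volume)
    (hfT : ∀ (y : Vec d) (t : ℝ), t ∉ T → f (WithLp.toLp 2 (y, t)) = 0) :
    ∫⁻ v in ⋃ j, B j, lineMax δ b f v ^ (d + 1)
      ≤ ENNReal.ofReal (cst d * N * (1 + Real.log (1 / δ)) ^ d) * ∫⁻ y, ‖f y‖ₑ ^ (d + 1) := by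
  classical
  set F : Space d → ℝ := fun y => if (WithLp.ofLp y).2 ∈ T then hf.mk f y else 0 with hF
  have hFm : Measurable F := by
    apply Measurable.ite _ hf.measurable_mk measurable_const
    have : Measurable (fun y : Space d => (WithLp.ofLp y).2) :=
      measurable_snd.comp (WithLp.volume_preserving_ofLp (Vec d) ℝ).measurable
    exact this hTm
  have hFT : ∀ (y : Vec d) (t : ℝ), t ∉ T → F (WithLp.toLp 2 (y, t)) = 0 := by
    intro y t ht
    simp only [hF]
    rw [if_neg ht]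
  have hfF : f =ᵐ[volume] F := by
    filter_upwards [hf.ae_eq_mk] with y hy
    simp only [hF]
    split_ifs with h
    · exact hy
    · exact hfT (WithLp.ofLp y).1 (WithLp.ofLp y).2 h
  have e1 : ∀ v, lineMax δ b f v = lineMax δ b F v :=
    fun v => lineMax_congr b v hfF
  have e2 : ∫⁻ y, ‖f y‖ₑ ^ (d + 1) = ∫⁻ y, ‖F y‖ₑ ^ (d + 1) := by
    apply lintegral_congr_ae
    filter_upwards [hfF] with y hy
    rw [hy]
  simp only [e1]
  rw [e2]
  calc ∫⁻ v in ⋃ j, B j, lineMax δ b F v ^ (d + 1)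
      ≤ ∑' j, ∫⁻ v in B j, lineMax δ b F v ^ (d + 1) := lintegral_iUnion_le _ _
    _ ≤ ∑' _j : Fin N, ENNReal.ofReal (cst d * (1 + Real.log (1 / δ)) ^ d)
          * ∫⁻ y, ‖F y‖ₑ ^ (d + 1) :=
        ENNReal.tsum_le_tsum (fun j =>
          piece' hd (hB j).1 (hB j).2 (hg j) hδ hδ1 (hbg j) hFm hFT)
    _ = (N : ℝ≥0∞) * (ENNReal.ofReal (cst d * (1 + Real.log (1 / δ)) ^ d)
          * ∫⁻ y, ‖F y‖ₑ ^ (d + 1)) := by
        rw [tsum_fintype, Finset.sum_const, Finset.card_univ, Fintype.card_fin, nsmul_eq_mul]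
    _ = _ := by
        have e3 : cst d * N * (1 + Real.log (1 / δ)) ^ d
            = N * (cst d * (1 + Real.log (1 / δ)) ^ d) := by ring
        rw [e3, ENNReal.ofReal_mul (p := (N:ℝ)) (by positivity), ENNReal.ofReal_natCast, mul_assoc]

theorem cst_pos (hd : 1 ≤ d) : 0 < cst d := by
  have hd' : (0:ℝ) < d := by exact_mod_cast hd
  unfold cst; positivity

end Pool.Agent.H805R3.Kk
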