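import Pool.Agent.H805R3.Kk.AreaP

set_option autoImplicit false

/-!
The Kakeya maximal estimate for families of lines of bounded overlap given by a map that is
Lipschitz on countably many pieces.
-/

open MeasureTheory Set Filter Topology ENNReal NNReal Metric

namespace Pool.Agent.H805R3.Kk

open Pool.Agent.H803R2.Kak Pool.Agent.H803R2.KakFTO

variable {d : ℕ}

/-- `B` is covered up to a null set by countably many measurable sets on each of which `b` is
Lipschitz (with any constant). -/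
def LipPieces (B : Set (Vec d)) (b : Vec d → Vec d) : Prop :=
  ∃ P : ℕ → Set (Vec d), (∀ k, MeasurableSet (P k)) ∧ volume (B \ ⋃ k, P k) = 0 ∧
    ∀ k, ∃ C : ℝ≥0, LipschitzOnWith C b (P k)

/-- For almost every height `t ∈ T`, almost every point of height `t` lies on at most `N` of the
lines with direction in `B`. -/
def OverlapLE (N : ℕ) (T : Set ℝ) (B : Set (Vec d)) (b : Vec d → Vec d) : Prop :=
  ∀ᵐ t : ℝ, t ∈ T → ∀ᵐ y : Vec d, {v | v ∈ B ∧ b v + t • v = y}.encard ≤ N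

/-- Good pieces: disjoint, measurable, `b` differentiable within each with measurable derivative. -/
theorem LipPieces.exists_good {B : Set (Vec d)} (hB : MeasurableSet B) {b : Vec d → Vec d}
    (hb : LipPieces B b) :
    ∃ (P : ℕ → Set (Vec d)) (b' : Vec d → Vec d →L[ℝ] Vec d) (b₀ : Vec d → Vec d),
      (∀ k, MeasurableSet (P k)) ∧ Pairwise (Function.onFun Disjoint P) ∧ (⋃ k, P k) ⊆ B ∧
      (⋃ k, P k) =ᵐ[volume] B ∧ (∀ k, ∀ v ∈ P k, HasFDerivWithinAt b (b' v) (P k) v) ∧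
      Measurable b' ∧ Measurable b₀ ∧ ∀ v ∈ ⋃ k, P k, b₀ v = b v := by
  classical
  obtain ⟨Q, hQm, hQB, hQL⟩ := hb
  set P1 : ℕ → Set (Vec d) := disjointed (fun k => Q k ∩ B) with hP1
  have hP1m : ∀ k, MeasurableSet (P1 k) := fun k =>
    MeasurableSet.disjointed (fun k => (hQm k).inter hB) k
  have hP1d : Pairwise (Function.onFun Disjoint P1) := disjoint_disjointed _
  have hP1Q : ∀ k, P1 k ⊆ Q k ∩ B := fun k => disjointed_subset _ k
  have hP1U : (⋃ k, P1 k) = (⋃ k, Q k) ∩ B := by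
    rw [hP1, iUnion_disjointed, iUnion_inter]
  -- differentiability within the pieces
  set Z : ℕ → Set (Vec d) := fun k => {v | v ∈ P1 k ∧ ¬ DifferentiableWithinAt ℝ b (P1 k) v} with hZ
  have hZz : ∀ k, volume (Z k) = 0 := by
    intro k
    obtain ⟨C, hC⟩ := hQL k
    have h1 : LipschitzOnWith C b (P1 k) := hC.mono ((hP1Q k).trans inter_subset_left)
    have := h1.ae_differentiableWithinAt_of_mem (μ := volume)
    rw [ae_iff] at this
    convert this using 2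
    ext x
    simp [Z]
  set W1 : Set (Vec d) := toMeasurable volume (⋃ k, Z k) with hW1
  have hW1z : volume W1 = 0 := by
    rw [hW1, measure_toMeasurable]; exact measure_iUnion_null hZz
  set P2 : ℕ → Set (Vec d) := fun k => P1 k \ W1 with hP2
  have hP2m : ∀ k, MeasurableSet (P2 k) := fun k => (hP1m k).diff (measurableSet_toMeasurable _ _)
  have hP2P1 : ∀ k, P2 k ⊆ P1 k := fun k => sdiff_subset
  have hdiff : ∀ k, ∀ v ∈ P2 k, DifferentiableWithinAt ℝ b (P1 k) v := by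
    rintro k v ⟨hv, hvW⟩
    by_contra h
    exact hvW (subset_toMeasurable _ _ (mem_iUnion.2 ⟨k, hv, h⟩))
  have huniq : ∀ k l v, v ∈ P1 k → v ∈ P1 l → k = l := by
    intro k l v hk hl
    by_contra hne
    exact (Set.disjoint_left.1 (hP1d hne)) hk hl
  set b1 : Vec d → Vec d →L[ℝ] Vec d := fun v =>
    if h : ∃ k, v ∈ P1 k then fderivWithin ℝ b (P1 h.choose) v else 0 with hb1
  have hb1eq : ∀ k, ∀ v ∈ P1 k, b1 v = fderivWithin ℝ b (P1 k) v := by
    intro k v hv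
    have h : ∃ k, v ∈ P1 k := ⟨k, hv⟩
    simp only [hb1, dif_pos h]
    rw [huniq _ _ v h.choose_spec hv]
  have hder1 : ∀ k, ∀ v ∈ P2 k, HasFDerivWithinAt b (b1 v) (P1 k) v := by
    intro k v hv
    rw [hb1eq k v (hP2P1 k hv)]
    exact (hdiff k v hv).hasFDerivWithinAt
  have hae : AEMeasurable b1 (volume.restrict (⋃ k, P2 k)) := by
    rw [aemeasurable_iUnion_iff]
    intro k
    exact aemeasurable_fderivWithin volume (hP2m k) (fun v hv => (hder1 k v hv).mono (hP2P1 k))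
  have hae0 : AEMeasurable b (volume.restrict (⋃ k, P2 k)) := by
    rw [aemeasurable_iUnion_iff]
    intro k
    have hc : ContinuousOn b (P2 k) := fun v hv =>
      ((hder1 k v hv).mono (hP2P1 k)).continuousWithinAt
    exact hc.aemeasurable (hP2m k)
  have hU2m : MeasurableSet (⋃ k, P2 k) := MeasurableSet.iUnion hP2m
  set Z3 : Set (Vec d) := {v | v ∈ ⋃ k, P2 k ∧ ¬ (b1 v = hae.mk b1 v)} with hZ3
  have hZ3z : volume Z3 = 0 := by
    have h1 := hae.ae_eq_mk
    rw [Filter.EventuallyEq, ae_iff, Measure.restrict_apply' hU2m] at h1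
    convert h1 using 2
    ext x
    simp only [Z3, mem_inter_iff, Set.mem_ofPred_eq]
    exact and_comm
  set Z4 : Set (Vec d) := {v | v ∈ ⋃ k, P2 k ∧ ¬ (b v = hae0.mk b v)} with hZ4
  have hZ4z : volume Z4 = 0 := by
    have h1 := hae0.ae_eq_mk
    rw [Filter.EventuallyEq, ae_iff, Measure.restrict_apply' hU2m] at h1
    convert h1 using 2
    ext x
    simp only [Z4, mem_inter_iff, Set.mem_ofPred_eq]
    exact and_comm
  set W3 : Set (Vec d) := toMeasurable volume (Z3 ∪ Z4) with hW3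
  have hW3z : volume W3 = 0 := by
    rw [hW3, measure_toMeasurable]; exact measure_union_null hZ3z hZ4z
  set P3 : ℕ → Set (Vec d) := fun k => P2 k \ W3 with hP3
  have hP3P2 : ∀ k, P3 k ⊆ P2 k := fun k => sdiff_subset
  have hP3m : ∀ k, MeasurableSet (P3 k) := fun k => (hP2m k).diff (measurableSet_toMeasurable _ _)
  have heq1 : ∀ k, ∀ v ∈ P3 k, b1 v = hae.mk b1 v := by
    rintro k v ⟨hv, hvW⟩
    by_contra h
    exact hvW (subset_toMeasurable _ _ (Or.inl ⟨mem_iUnion.2 ⟨k, hv⟩, h⟩))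
  have heq0 : ∀ k, ∀ v ∈ P3 k, b v = hae0.mk b v := by
    rintro k v ⟨hv, hvW⟩
    by_contra h
    exact hvW (subset_toMeasurable _ _ (Or.inr ⟨mem_iUnion.2 ⟨k, hv⟩, h⟩))
  have hsub : (⋃ k, P3 k) ⊆ B := by
    intro v hv
    obtain ⟨k, hk⟩ := mem_iUnion.1 hv
    exact (hP1Q k (hP2P1 k (hP3P2 k hk))).2
  refine ⟨P3, hae.mk b1, hae0.mk b, hP3m, ?_, hsub, ?_, ?_, hae.measurable_mk,
    hae0.measurable_mk, ?_⟩
  · intro i j hij
    exact (hP1d hij).mono ((hP3P2 i).trans (hP2P1 i)) ((hP3P2 j).trans (hP2P1 j))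
  · have h1 : B \ (⋃ k, P3 k) ⊆ (B \ ⋃ k, Q k) ∪ (W1 ∪ W3) := by
      rintro v ⟨hv, hv2⟩
      by_contra h
      simp only [mem_union, not_or] at h
      obtain ⟨h3, h4, h5⟩ := h
      have h6 : v ∈ ⋃ k, Q k := by
        by_contra h7
        exact h3 ⟨hv, h7⟩
      have h8 : v ∈ ⋃ k, P1 k := by rw [hP1U]; exact ⟨h6, hv⟩
      obtain ⟨k, hk⟩ := mem_iUnion.1 h8
      exact hv2 (mem_iUnion.2 ⟨k, ⟨hk, h4⟩, h5⟩)
    have h2 : volume (B \ (⋃ k, P3 k)) = 0 :=
      measure_mono_null h1 (measure_union_null hQB (measure_union_null hW1z hW3z))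
    have h3 : volume ((⋃ k, P3 k) \ B) = 0 := by
      rw [sdiff_eq_empty.2 hsub]; simp
    exact (ae_eq_set).2 ⟨h3, h2⟩
  · intro k v hv
    rw [← heq1 k v hv]
    exact (hder1 k v (hP3P2 k hv)).mono ((hP3P2 k).trans (hP2P1 k))
  · intro v hv
    obtain ⟨k, hk⟩ := mem_iUnion.1 hv
    exact (heq0 k v hk).symm

/-- The estimate on a set of directions on which `b` is `δ`-close to a map `g` of bounded overlap. -/
theorem pieceP (hd : 1 ≤ d) {T : Set ℝ} {g : Vec d → Vec d} {B : Set (Vec d)} (hB : MeasurableSet B)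
    (hB1 : B ⊆ closedBall 0 1) (hg : LipPieces B g) {N : ℕ} (hN : OverlapLE N T B g)
    {b : Vec d → Vec d} {δ : ℝ} (hδ : 0 < δ) (hδ1 : δ < 1)
    (hb : ∀ v ∈ B, ‖b v - g v‖ ≤ δ) {f : Space d → ℝ} (hf : Measurable f)
    (hfT : ∀ (y : Vec d) (t : ℝ), t ∉ T → f (WithLp.toLp 2 (y, t)) = 0) :
    ∫⁻ v in B, lineMax δ b f v ^ (d + 1)
      ≤ (4 * 16 ^ d) ^ (d + 1) * (2 ^ (d + 1) *
        ((2 * d * ENNReal.ofReal (Real.log (1 + 3/(2*δ))))^d * N + d^d))
        * ∫⁻ y, ‖f y‖ₑ ^ (d + 1) := by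
  have hmp := WithLp.volume_preserving_toLp (Vec d) ℝ
  have hf2 : Measurable (fun p : Vec d × ℝ => ‖f (WithLp.toLp 2 p)‖ₑ) :=
    (hf.comp hmp.measurable).enorm
  obtain ⟨P, g2, g₀, hPm, hPd, hB2B, hsets, hder, hg2m, hg₀m, hg₀⟩ := hg.exists_good hB
  set B2 := ⋃ k, P k with hB2
  have hB2m : MeasurableSet B2 := MeasurableSet.iUnion hPm
  have hmult : ∀ᵐ t : ℝ, t ∈ T → ∀ᵐ y : Vec d, {v | v ∈ B2 ∧ g v + t • v = y ∧
      (g2 v + t • ContinuousLinearMap.id ℝ (Vec d)).det ≠ 0}.encard ≤ N := by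
    filter_upwards [hN] with t ht htT
    filter_upwards [ht htT] with y hy
    refine le_trans (Set.encard_le_encard ?_) hy
    rintro v ⟨h1, h2, -⟩
    exact ⟨hB2B h1, h2⟩
  rw [← setLIntegral_congr hsets]
  have hint := integratedP hd hB2m (hB2B.trans hB1) hPm hPd rfl (b := g) hder hg2m hg₀m hg₀ hmult
    (δ := 2 * δ) (by linarith) hf2 (fun y t ht => by simp [hfT y t ht])
  have hS : ∫⁻ p : Vec d × ℝ, ‖f (WithLp.toLp 2 p)‖ₑ ^ (d+1) = ∫⁻ y : Space d, ‖f y‖ₑ ^ (d + 1) :=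
    hmp.lintegral_comp (f := fun y : Space d => ‖f y‖ₑ ^ (d + 1)) (hf.enorm.pow_const _)
  rw [hS] at hint
  set S := ∫⁻ y : Space d, ‖f y‖ₑ ^ (d + 1) with hSdef
  set M : Vec d → ℝ≥0∞ := fun v => ⨆ h : ℝ, (∫⁻ t in Icc h (h+3),
    moll (2*(2*δ)) (fun p : Vec d × ℝ => ‖f (WithLp.toLp 2 p)‖ₑ)
      (g v + t • v, t)) ^ (d+1) with hM
  have hpt : ∀ v ∈ B2, lineMax δ b f v ^ (d + 1) ≤ (4 * 16 ^ d) ^ (d + 1) * M v := by
    intro v hv
    have hv1 : ‖v‖ ≤ 1 := by simpa using hB1 (hB2B hv)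
    have hcomp : ∀ t : ℝ, moll (2*δ) (fun p : Vec d × ℝ => ‖f (WithLp.toLp 2 p)‖ₑ)
        (b v + t • v, t) ≤ 2 ^ d * moll (2*(2*δ))
          (fun p : Vec d × ℝ => ‖f (WithLp.toLp 2 p)‖ₑ) (g v + t • v, t) := by
      intro t
      have h1 := moll_le_moll (r := 2*δ) (r' := 2*(2*δ)) (by linarith) (by linarith)
        (fun p : Vec d × ℝ => ‖f (WithLp.toLp 2 p)‖ₑ) (y := b v + t • v)
        (y' := g v + t • v) (by
          have : b v + t • v - (g v + t • v) = b v - g v := by abel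
          rw [this]
          have := hb v (hB2B hv)
          linarith) t
      have h2 : (volume (closedBall (0:Vec d) (2*δ)))⁻¹ * volume (closedBall (0:Vec d) (2*(2*δ)))
          = 2 ^ d := by
        have hV0 := (vol_pos (d := d) (r := 2 * δ) (by linarith)).ne'
        have hVt := (vol_lt_top (d := d) (r := 2 * δ)).ne
        have h4 : volume (closedBall (0:Vec d) (2*(2*δ)))
            = 2 ^ d * volume (closedBall (0:Vec d) (2*δ)) := by
          have h5 : ENNReal.ofReal (2*(2*δ)) = 2 * ENNReal.ofReal (2*δ) := by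
            rw [ENNReal.ofReal_mul (p := 2) (q := 2 * δ) (by norm_num)]
            simp
          rw [vol_ball_scale (d := d) (r := 2*(2*δ)) (by linarith),
            vol_ball_scale (d := d) (r := 2*δ) (by linarith), h5, mul_pow, mul_assoc]
        rw [h4, mul_comm, mul_assoc, ENNReal.mul_inv_cancel hV0 hVt, mul_one]
      rw [h2] at h1
      exact h1
    calc lineMax δ b f v ^ (d + 1) ≤ ((4 * 8 ^ d) * ⨆ h : ℝ, ∫⁻ t in Icc h (h + 3),
          moll (2*δ) (fun p : Vec d × ℝ => ‖f (WithLp.toLp 2 p)‖ₑ) (b v + t • v, t)) ^ (d + 1) := by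
          gcongr
          exact lineMax_le hδ hδ1 b hv1 hf
      _ ≤ ((4 * 8 ^ d) * (2 ^ d * ⨆ h : ℝ, ∫⁻ t in Icc h (h + 3),
          moll (2*(2*δ)) (fun p : Vec d × ℝ => ‖f (WithLp.toLp 2 p)‖ₑ)
            (g v + t • v, t))) ^ (d + 1) := by
          gcongr
          apply iSup_le
          intro h
          calc ∫⁻ t in Icc h (h + 3),
                moll (2*δ) (fun p : Vec d × ℝ => ‖f (WithLp.toLp 2 p)‖ₑ) (b v + t • v, t)
              ≤ ∫⁻ t in Icc h (h + 3), 2 ^ d * moll (2*(2*δ))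
                (fun p : Vec d × ℝ => ‖f (WithLp.toLp 2 p)‖ₑ) (g v + t • v, t) :=
                lintegral_mono hcomp
            _ = 2 ^ d * ∫⁻ t in Icc h (h + 3), moll (2*(2*δ))
                (fun p : Vec d × ℝ => ‖f (WithLp.toLp 2 p)‖ₑ) (g v + t • v, t) := by
                rw [lintegral_const_mul' _ _ (ENNReal.pow_ne_top (by simp))]
            _ ≤ _ := by
                gcongr
                exact le_iSup (fun h : ℝ => ∫⁻ t in Icc h (h + 3), moll (2*(2*δ))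
                  (fun p : Vec d × ℝ => ‖f (WithLp.toLp 2 p)‖ₑ) (g v + t • v, t)) h
      _ = (4 * 16 ^ d) ^ (d + 1) * M v := by
          rw [hM]
          simp only
          rw [← ENNReal.iSup_pow, ← mul_pow]
          congr 1
          have : (16:ℝ≥0∞) ^ d = 8 ^ d * 2 ^ d := by rw [← mul_pow]; norm_num
          rw [this]
          ring
  calc ∫⁻ v in B2, lineMax δ b f v ^ (d + 1)
      ≤ ∫⁻ v in B2, (4 * 16 ^ d) ^ (d + 1) * M v := setLIntegral_mono' hB2m hpt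
    _ = (4 * 16 ^ d) ^ (d + 1) * ∫⁻ v in B2, M v := by
        rw [lintegral_const_mul']
        exact ENNReal.pow_ne_top (ENNReal.mul_ne_top (by simp) (ENNReal.pow_ne_top (by simp)))
    _ ≤ (4 * 16 ^ d) ^ (d + 1) * (2 ^ (d + 1) *
          ((2 * d * ENNReal.ofReal (Real.log (1 + 3/(2*δ))))^d * N + d^d)
            * S) := by gcongr
    _ = _ := by ring

/-- The estimate on one piece with real constants. -/
theorem pieceP' (hd : 1 ≤ d) {T : Set ℝ} {g : Vec d → Vec d} {B : Set (Vec d)} (hB : MeasurableSet B)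
    (hB1 : B ⊆ closedBall 0 1) (hg : LipPieces B g) {N : ℕ} (hN1 : 1 ≤ N) (hN : OverlapLE N T B g)
    {b : Vec d → Vec d} {δ : ℝ} (hδ : 0 < δ) (hδ1 : δ < 1)
    (hb : ∀ v ∈ B, ‖b v - g v‖ ≤ δ) {f : Space d → ℝ} (hf : Measurable f)
    (hfT : ∀ (y : Vec d) (t : ℝ), t ∉ T → f (WithLp.toLp 2 (y, t)) = 0) :
    ∫⁻ v in B, lineMax δ b f v ^ (d + 1)
      ≤ ENNReal.ofReal (cst d * N * (1 + Real.log (1 / δ)) ^ d) * ∫⁻ y, ‖f y‖ₑ ^ (d + 1) := by
  refine (pieceP hd hB hB1 hg hN hδ hδ1 hb hf hfT).trans ?_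
  refine mul_le_mul_left ?_ _
  have hlog : 0 ≤ Real.log (1 / δ) := Real.log_nonneg (by rw [le_div_iff₀ hδ]; linarith)
  have hlog2 : Real.log (1 + 3 / (2 * δ)) ≤ 2 * (1 + Real.log (1 / δ)) := by
    have h1 : 1 + 3 / (2 * δ) ≤ 4 * (1 / δ) := by
      have : 1 ≤ 1 / δ := by rw [le_div_iff₀ hδ]; linarith
      calc 1 + 3 / (2 * δ) = 1 + (3/2) * (1 / δ) := by field_simp
        _ ≤ 4 * (1 / δ) := by linarith
    have h2 : Real.log 4 ≤ 2 := by
      have h3 : (4:ℝ) = 2 ^ 2 := by norm_num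
      rw [h3, Real.log_pow]
      have := Real.log_two_lt_d9
      push_cast
      linarith
    calc Real.log (1 + 3 / (2 * δ)) ≤ Real.log (4 * (1 / δ)) := Real.log_le_log (by positivity) h1
      _ = Real.log 4 + Real.log (1 / δ) := Real.log_mul (by norm_num) (by positivity)
      _ ≤ 2 * (1 + Real.log (1 / δ)) := by linarith
  have e1 : (2 * d * ENNReal.ofReal (Real.log (1 + 3/(2*δ))) : ℝ≥0∞)
      = ENNReal.ofReal (2 * d * Real.log (1 + 3/(2*δ))) := by
    rw [ENNReal.ofReal_mul (by positivity), ENNReal.ofReal_mul (by positivity)]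
    simp
  have hl0 : 0 ≤ Real.log (1 + 3/(2*δ)) := Real.log_nonneg (by
    have : 0 < 3 / (2*δ) := by positivity
    linarith)
  have e2 : (4 * 16 ^ d : ℝ≥0∞) ^ (d + 1) * (2 ^ (d + 1) *
    ((2 * d * ENNReal.ofReal (Real.log (1 + 3/(2*δ))))^d * N + d^d))
      = ENNReal.ofReal ((4 * 16 ^ d) ^ (d + 1) * (2 ^ (d + 1) *
        ((2 * d * Real.log (1 + 3/(2*δ))) ^ d * N + d ^ d))) := by
    have h0 : (0:ℝ) ≤ (2 * d * Real.log (1 + 3/(2*δ))) ^ d := by positivity
    rw [ofReal_comb (by positivity) (by positivity) h0 (by positivity) (by positivity), e1,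
      ENNReal.ofReal_pow (p := 2 * d * Real.log (1 + 3/(2*δ))) (by positivity) d]
    have a1 : ENNReal.ofReal ((4 * 16 ^ d) ^ (d + 1)) = (4 * 16 ^ d : ℝ≥0∞) ^ (d + 1) := by
      rw [ENNReal.ofReal_pow (by positivity), ENNReal.ofReal_mul (by positivity),
        ENNReal.ofReal_pow (by positivity)]
      simp
    have a2 : ENNReal.ofReal (2 ^ (d + 1)) = (2 : ℝ≥0∞) ^ (d + 1) := by
      rw [ENNReal.ofReal_pow (by positivity)]
      simp
    have a3 : ENNReal.ofReal ((d:ℝ) ^ d) = (d : ℝ≥0∞) ^ d := by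
      rw [ENNReal.ofReal_pow (by positivity)]
      simp
    have a4 : ENNReal.ofReal (N:ℝ) = (N : ℝ≥0∞) := by simp
    rw [a1, a2, a3, a4]
  rw [e2]
  apply ENNReal.ofReal_le_ofReal
  rw [cst]
  set l := 1 + Real.log (1 / δ) with hl
  have hl1 : 1 ≤ l := by linarith
  have b1 : (2 * d * Real.log (1 + 3/(2*δ))) ^ d ≤ (4 * d) ^ d * l ^ d := by
    rw [← mul_pow]
    apply pow_le_pow_left₀ (by positivity)
    calc 2 * d * Real.log (1 + 3/(2*δ)) ≤ 2 * d * (2 * l) := by gcongr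
      _ = 4 * d * l := by ring
  have hN1' : (1:ℝ) ≤ N := by exact_mod_cast hN1
  have b2 : (d:ℝ) ^ d ≤ d ^ d * (N * l ^ d) := by
    have h1 := one_le_pow₀ (n := d) hl1
    have h0 : (0:ℝ) ≤ (d:ℝ) ^ d := by positivity
    have h2 : 1 ≤ N * l ^ d := by nlinarith
    nlinarith
  calc (4 * 16 ^ d : ℝ) ^ (d + 1) * (2 ^ (d + 1) *
        ((2 * d * Real.log (1 + 3/(2*δ))) ^ d * N + d ^ d))
      ≤ (4 * 16 ^ d) ^ (d + 1) * (2 ^ (d + 1) *
        (((4 * d) ^ d * l ^ d) * N + d ^ d * (N * l ^ d))) := by gcongr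
    _ = (8 * 16 ^ d) ^ (d + 1) * ((4 * d) ^ d + d ^ d) * N * l ^ d := by
        have : (8 * 16 ^ d : ℝ) = (4 * 16 ^ d) * 2 := by ring
        rw [this, mul_pow _ (2:ℝ)]
        ring

/-- The estimate for almost everywhere measurable functions. -/
theorem overlap (hd : 1 ≤ d) {N : ℕ} (hN1 : 1 ≤ N) {T : Set ℝ} (hTm : MeasurableSet T)
    {B : Set (Vec d)} (hB : MeasurableSet B) (hB1 : B ⊆ closedBall 0 1)
    {g : Vec d → Vec d} {b : Vec d → Vec d} {δ : ℝ} {f : Space d → ℝ}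
    (hg : LipPieces B g) (hN : OverlapLE N T B g) (hbg : ∀ v ∈ B, ‖b v - g v‖ ≤ δ)
    (hδ : 0 < δ) (hδ1 : δ < 1) (hf : AEMeasurable f volume)
    (hfT : ∀ (y : Vec d) (t : ℝ), t ∉ T → f (WithLp.toLp 2 (y, t)) = 0) :
    ∫⁻ v in B, lineMax δ b f v ^ (d + 1)
      ≤ ENNReal.ofReal (cst d * N * (1 + Real.log (1 / δ)) ^ d) * ∫⁻ y, ‖f y‖ₑ ^ (d + 1) := by
  classical
  set F : Space d → ℝ := fun y => if (WithLp.ofLp y).2 ∈ T then hf.mk f y else 0 with hF
  have hFm : Measurable F := by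
    apply Measurable.ite _ hf.measurable_mk measurable_const
    have : Measurable (fun y : Space d => (WithLp.ofLp y).2) :=
      measurable_snd.comp (WithLp.volume_preserving_ofLp (Vec d) ℝ).measurable
    exact this hTm
  have hFT : ∀ (y : Vec d) (t : ℝ), t ∉ T → F (WithLp.toLp 2 (y, t)) = 0 := by
    intro y t ht
    simp only [hF]
    rw [if_neg ht]
  have hfF : f =ᵐ[volume] F := by
    filter_upwards [hf.ae_eq_mk] with y hy
    simp only [hF]
    split_ifs with h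
    · exact hy
    · exact hfT (WithLp.ofLp y).1 (WithLp.ofLp y).2 h
  have e1 : ∀ v, lineMax δ b f v = lineMax δ b F v :=
    fun v => lineMax_congr b v hfF
  have e2 : ∫⁻ y, ‖f y‖ₑ ^ (d + 1) = ∫⁻ y, ‖F y‖ₑ ^ (d + 1) := by
    apply lintegral_congr_ae
    filter_upwards [hfF] with y hy
    rw [hy]
  simp only [e1]
  rw [e2]
  exact pieceP' hd hB hB1 hg hN1 hN hδ hδ1 hbg hFm hFT

end Pool.Agent.H805R3.Kk
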