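import Pool.Agent.H805R3.Kk.Int

set_option autoImplicit false

/-!
A weighted Schur (Córdoba) estimate: the Kakeya maximal function of any family of lines is bounded
in `L^p`, `p ≥ 2`, with respect to a weight controlled by the average multiplicity of the tubes.
-/

open MeasureTheory Set Filter Topology ENNReal NNReal Metric

namespace Pool.Agent.H805R3.Kk.Gen

open Pool.Agent.H803R2.Kak Pool.Agent.H803R2.KakFTO Pool.Agent.H805R3.Kk

variable {d : ℕ}

/-- Indicator of the closed ball. -/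
noncomputable def ind (ρ : ℝ) (x : Vec d) : ℝ≥0∞ :=
  (closedBall (0 : Vec d) ρ).indicator (fun _ => (1:ℝ≥0∞)) x

theorem measurable_ind (ρ : ℝ) : Measurable (ind (d := d) ρ) :=
  measurable_const.indicator measurableSet_closedBall

theorem ind_of_le {ρ : ℝ} {x : Vec d} (h : ‖x‖ ≤ ρ) : ind ρ x = 1 :=
  indicator_of_mem (by simpa using h) _

theorem ind_of_not {ρ : ℝ} {x : Vec d} (h : ¬ ‖x‖ ≤ ρ) : ind ρ x = 0 :=
  indicator_of_notMem (by simpa using h) _

/-- Measure of the set of directions in `B` whose line passes within `ρ` of `(y, t)`. -/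
noncomputable def mu (ρ : ℝ) (b : Vec d → Vec d) (B : Set (Vec d)) (y : Vec d) (t : ℝ) : ℝ≥0∞ :=
  ∫⁻ v in B, ind ρ (y - (b v + t • v))

/-- The multiplicity function. -/
noncomputable def JJ (r : ℝ) (b : Vec d → Vec d) (B : Set (Vec d)) (y : Vec d) (t : ℝ) : ℝ≥0∞ :=
  1 + (volume (closedBall (0:Vec d) r))⁻¹ * mu (2*r) b B y t

theorem measurable_mu {ρ : ℝ} {b : Vec d → Vec d} (hb : Measurable b) (B : Set (Vec d)) :
    Measurable (fun q : Vec d × ℝ => mu ρ b B q.1 q.2) := by
  unfold mu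
  have : Measurable (fun q : (Vec d × ℝ) × Vec d => ind ρ (q.1.1 - (b q.2 + q.1.2 • q.2))) := by
    apply (measurable_ind ρ).comp
    have h1 : Measurable (fun q : (Vec d × ℝ) × Vec d => b q.2) := hb.comp measurable_snd
    have h2 : Measurable (fun q : (Vec d × ℝ) × Vec d => q.1.2 • q.2) :=
      (measurable_snd.comp measurable_fst).smul measurable_snd
    exact (measurable_fst.comp measurable_fst).sub (h1.add h2)
  exact this.lintegral_prod_right'

theorem measurable_JJ {r : ℝ} {b : Vec d → Vec d} (hb : Measurable b) (B : Set (Vec d)) :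
    Measurable (fun q : Vec d × ℝ => JJ r b B q.1 q.2) := by
  unfold JJ
  exact ((measurable_mu hb B).const_mul _).const_add 1

theorem mu_le {ρ : ℝ} {b : Vec d → Vec d} {B : Set (Vec d)} {y : Vec d} {t : ℝ} :
    mu ρ b B y t ≤ volume B := by
  unfold mu
  calc ∫⁻ v in B, ind ρ (y - (b v + t • v)) ≤ ∫⁻ _v in B, 1 := by
        apply lintegral_mono
        intro v
        by_cases hv : ‖y - (b v + t • v)‖ ≤ ρ
        · exact (ind_of_le hv).le
        · exact (ind_of_not hv).le.trans zero_le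
    _ = volume B := by simp

theorem JJ_ne_top {r : ℝ} (hr : 0 < r) {b : Vec d → Vec d} {B : Set (Vec d)} (hB : volume B ≠ ∞)
    {y : Vec d} {t : ℝ} : JJ r b B y t ≠ ∞ := by
  unfold JJ
  refine ENNReal.add_ne_top.2 ⟨by simp, ENNReal.mul_ne_top ?_ ?_⟩
  · exact ENNReal.inv_ne_top.2 (vol_pos hr).ne'
  · exact ne_top_of_le_ne_top hB mu_le

theorem one_le_JJ {r : ℝ} {b : Vec d → Vec d} {B : Set (Vec d)} {y : Vec d} {t : ℝ} :
    1 ≤ JJ r b B y t := le_self_add

theorem inner_le {r : ℝ} (hr : 0 < r) {b : Vec d → Vec d} (hb : Measurable b) (B : Set (Vec d))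
    (y : Vec d) (t : ℝ) :
    ∫⁻ v in B, ind r (y - (b v + t • v)) * (JJ r b B (b v + t • v) t)⁻¹
      ≤ volume (closedBall (0:Vec d) r) := by
  have hV0 := (vol_pos (d := d) hr).ne'
  have hVt := (vol_lt_top (d := d) (r := r)).ne
  set V := volume (closedBall (0:Vec d) r) with hV
  set M := mu r b B y t with hM
  have h1 : ∀ v, ind r (y - (b v + t • v)) * (JJ r b B (b v + t • v) t)⁻¹
      ≤ ind r (y - (b v + t • v)) * (V⁻¹ * M)⁻¹ := by
    intro v
    by_cases hv : ‖y - (b v + t • v)‖ ≤ r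
    · rw [ind_of_le hv, one_mul, one_mul]
      apply ENNReal.inv_le_inv.2
      unfold JJ
      refine le_trans ?_ le_add_self
      rw [← hV]
      gcongr
      rw [hM]
      unfold mu
      apply lintegral_mono
      intro w
      by_cases hw : ‖y - (b w + t • w)‖ ≤ r
      · have h2 : ‖(b v + t • v) - (b w + t • w)‖ ≤ 2 * r := by
          calc ‖(b v + t • v) - (b w + t • w)‖
              = ‖(y - (b w + t • w)) - (y - (b v + t • v))‖ := by congr 1; abel
            _ ≤ ‖y - (b w + t • w)‖ + ‖y - (b v + t • v)‖ := norm_sub_le _ _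
            _ ≤ 2 * r := by linarith
        show ind r _ ≤ ind (2 * r) _
        rw [ind_of_le hw, ind_of_le h2]
      · show ind r _ ≤ ind (2 * r) _
        rw [ind_of_not hw]; exact zero_le
    · rw [ind_of_not hv, zero_mul]; exact zero_le
  have hmeas : Measurable (fun v => ind r (y - (b v + t • v))) := by
    apply (measurable_ind r).comp
    exact measurable_const.sub (hb.add (measurable_id.const_smul t))
  calc ∫⁻ v in B, ind r (y - (b v + t • v)) * (JJ r b B (b v + t • v) t)⁻¹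
      ≤ ∫⁻ v in B, ind r (y - (b v + t • v)) * (V⁻¹ * M)⁻¹ := lintegral_mono h1
    _ = M * (V⁻¹ * M)⁻¹ := by rw [lintegral_mul_const _ hmeas, hM, mu]
    _ = V * (M * M⁻¹) := by
        rw [ENNReal.mul_inv (Or.inl (ENNReal.inv_ne_zero.2 hVt)) (Or.inl (ENNReal.inv_ne_top.2 hV0)),
          inv_inv]
        ring
    _ ≤ V * 1 := by
        gcongr
        exact ENNReal.mul_inv_le_one M
    _ = V := mul_one V

theorem cauchy {α : Type*} [MeasurableSpace α] (ν : Measure α) {f g : α → ℝ≥0∞}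
    (hf : AEMeasurable f ν) (hg : AEMeasurable g ν) :
    (∫⁻ a, f a * g a ∂ν) ^ 2 ≤ (∫⁻ a, f a ^ 2 ∂ν) * (∫⁻ a, g a ^ 2 ∂ν) := by
  have h := holder_rpow ν (p := 2) (by norm_num) hf hg
  have e : (2:ℝ) / (2 - 1) = 2 := by norm_num
  have e2 : (2:ℝ) - 1 = 1 := by norm_num
  rw [e, e2, ENNReal.rpow_one] at h
  simpa only [ENNReal.rpow_two] using h

theorem measurable_sec {b : Vec d → Vec d} (hb : Measurable b) :
    Measurable (fun q : Vec d × ℝ => (b q.1 + q.2 • q.1, q.2)) :=
  ((hb.comp measurable_fst).add (measurable_snd.smul measurable_fst)).prodMk measurable_snd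

/-- The estimate on one line. -/
theorem schur_line {T : Set ℝ} (hT : MeasurableSet T) {G J : ℝ → ℝ≥0∞} (hG : Measurable G)
    (hJ : Measurable J) (hJ0 : ∀ t, J t ≠ 0) (hJt : ∀ t, J t ≠ ∞) (hGT : ∀ t, t ∉ T → G t = 0)
    {w : ℝ≥0∞} (hw : w * ∫⁻ t in T, J t ≤ 1) (h : ℝ) :
    w * (∫⁻ t in Icc h (h+3), G t) ^ 2 ≤ ∫⁻ t, G t ^ 2 * (J t)⁻¹ := by
  have h1 : ∫⁻ t in Icc h (h+3), G t ≤ ∫⁻ t in T, G t := by
    rw [← lintegral_indicator measurableSet_Icc, ← lintegral_indicator hT]
    apply lintegral_mono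
    intro t
    by_cases ht : t ∈ T
    · rw [indicator_of_mem ht]
      by_cases ht2 : t ∈ Icc h (h+3)
      · rw [indicator_of_mem ht2]
      · rw [indicator_of_notMem ht2]; exact zero_le
    · rw [indicator_of_notMem ht]
      by_cases ht2 : t ∈ Icc h (h+3)
      · rw [indicator_of_mem ht2, hGT t ht]
      · rw [indicator_of_notMem ht2]
  have h2 : ∫⁻ t in T, G t = ∫⁻ t in T, (G t * (J t) ^ (-(1/2:ℝ))) * (J t) ^ (1/2:ℝ) := by
    congr 1
    ext t
    rw [mul_assoc, ← ENNReal.rpow_add _ _ (hJ0 t) (hJt t)]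
    simp
  have h3 := cauchy (volume.restrict T)
    (f := fun t => G t * (J t) ^ (-(1/2:ℝ))) (g := fun t => (J t) ^ (1/2:ℝ))
    (hG.mul (hJ.pow_const _)).aemeasurable (hJ.pow_const _).aemeasurable
  have h4 : ∀ t, (G t * (J t) ^ (-(1/2:ℝ))) ^ 2 = G t ^ 2 * (J t)⁻¹ := by
    intro t
    rw [mul_pow]
    congr 1
    rw [← ENNReal.rpow_natCast, ← ENNReal.rpow_mul]
    have : -(1/2:ℝ) * ((2:ℕ):ℝ) = -1 := by norm_num
    rw [this, ENNReal.rpow_neg_one]
  have h5 : ∀ t, ((J t) ^ (1/2:ℝ)) ^ 2 = J t := by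
    intro t
    rw [← ENNReal.rpow_natCast, ← ENNReal.rpow_mul]
    have : (1/2:ℝ) * ((2:ℕ):ℝ) = 1 := by norm_num
    rw [this, ENNReal.rpow_one]
  simp only [h4, h5] at h3
  calc w * (∫⁻ t in Icc h (h+3), G t) ^ 2
      ≤ w * (∫⁻ t in T, G t) ^ 2 := by gcongr
    _ ≤ w * ((∫⁻ t in T, G t ^ 2 * (J t)⁻¹) * ∫⁻ t in T, J t) := by
        rw [h2]
        gcongr
    _ = (w * ∫⁻ t in T, J t) * (∫⁻ t in T, G t ^ 2 * (J t)⁻¹) := by ring
    _ ≤ 1 * (∫⁻ t in T, G t ^ 2 * (J t)⁻¹) := by gcongr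
    _ ≤ _ := by
        rw [one_mul]
        exact setLIntegral_le_lintegral _ _

theorem moll_sq_le {r : ℝ} (hr : 0 < r) {F : Vec d × ℝ → ℝ≥0∞} (hF : Measurable F) (x : Vec d)
    (t : ℝ) :
    moll r F (x, t) ^ 2
      ≤ (volume (closedBall (0:Vec d) r))⁻¹ * ∫⁻ y, ind r (y - x) * F (y, t) ^ 2 := by
  have h1 := moll_rpow_le (d := d) (p := 2) (by norm_num) hr hF (x, t)
  simp only [ENNReal.rpow_two] at h1
  refine h1.trans (le_of_eq ?_)
  unfold moll
  congr 1
  rw [← lintegral_indicator measurableSet_closedBall]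
  rw [← lintegral_sub_right_eq_self (fun w => (closedBall (0:Vec d) r).indicator
    (fun w => F (x + w, t) ^ 2) w) x]
  congr 1
  ext y
  by_cases hy : ‖y - x‖ ≤ r
  · have hy' : y - x ∈ closedBall (0:Vec d) r := by simpa using hy
    rw [ind_of_le hy, indicator_of_mem hy', one_mul]
    congr 3
    abel
  · have hy' : y - x ∉ closedBall (0:Vec d) r := by simpa using hy
    rw [ind_of_not hy, indicator_of_notMem hy', zero_mul]

theorem moll_zero {r : ℝ} {F : Vec d × ℝ → ℝ≥0∞} {t : ℝ} (h : ∀ y, F (y, t) = 0) (x : Vec d) :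
    moll r F (x, t) = 0 := by
  simp [moll, h]

theorem JJ_def' (r : ℝ) (b : Vec d → Vec d) (B : Set (Vec d)) (y : Vec d) (t : ℝ) :
    JJ r b B y t = 1 + (volume (closedBall (0:Vec d) r))⁻¹ *
      ∫⁻ w in B, ind (2*r) (y - (b w + t • w)) := rfl

attribute [irreducible] JJ mu ind

attribute [local irreducible] moll

theorem measurable_JJ_comp {α : Type*} [MeasurableSpace α] {r : ℝ} {b : Vec d → Vec d}
    (hb : Measurable b) (B : Set (Vec d)) {f : α → Vec d} {g : α → ℝ} (hf : Measurable f)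
    (hg : Measurable g) : Measurable (fun x => JJ r b B (f x) (g x)) :=
  (measurable_JJ hb B).comp (hf.prodMk hg)

theorem measurable_ind_comp {α : Type*} [MeasurableSpace α] {r : ℝ} {f : α → Vec d}
    (hf : Measurable f) : Measurable (fun x => ind r (f x)) :=
  (measurable_ind r).comp hf

theorem measurable_moll_comp {α : Type*} [MeasurableSpace α] {r : ℝ} {F : Vec d × ℝ → ℝ≥0∞}
    (hF : Measurable F) {f : α → Vec d} {g : α → ℝ} (hf : Measurable f)
    (hg : Measurable g) : Measurable (fun x => moll r F (f x, g x)) :=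
  (measurable_moll hF).comp (hf.prodMk hg)

/-- abstract form of the swap -/
theorem swap_abs {B : Set (Vec d)} {V : ℝ≥0∞} (hV0 : V ≠ 0) (hVt : V ≠ ∞)
    {I : Vec d → Vec d → ℝ≥0∞} (hI : Measurable (fun q : Vec d × Vec d => I q.1 q.2))
    {K : Vec d → ℝ≥0∞} (hK : Measurable K) (hKt : ∀ v, K v ≠ ∞) {H M : Vec d → ℝ≥0∞}
    (hH : Measurable H)
    (hM : ∀ v, M v ≤ V⁻¹ * ∫⁻ y, I v y * H y) (hin : ∀ y, ∫⁻ v in B, I v y * K v ≤ V) :
    ∫⁻ v in B, M v * K v ≤ ∫⁻ y, H y := by
  have hm1 : Measurable (fun q : Vec d × Vec d => I q.1 q.2 * H q.2 * K q.1) :=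
    (hI.mul (hH.comp measurable_snd)).mul (hK.comp measurable_fst)
  calc ∫⁻ v in B, M v * K v
      ≤ ∫⁻ v in B, V⁻¹ * ∫⁻ y, I v y * H y * K v := by
        apply lintegral_mono
        intro v
        calc M v * K v ≤ (V⁻¹ * ∫⁻ y, I v y * H y) * K v := by
              gcongr
              exact hM v
          _ = _ := by
              rw [mul_assoc, ← lintegral_mul_const' _ _ (hKt v)]
    _ = V⁻¹ * ∫⁻ y, ∫⁻ v in B, I v y * H y * K v := by
        rw [lintegral_const_mul _ (hm1.lintegral_prod_right')]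
        congr 1
        exact lintegral_lintegral_swap hm1.aemeasurable
    _ ≤ V⁻¹ * ∫⁻ y, V * H y := by
        gcongr with y
        calc ∫⁻ v in B, I v y * H y * K v
            = ∫⁻ v in B, (I v y * K v) * H y := by
              congr 1; ext v; ring
          _ = (∫⁻ v in B, I v y * K v) * H y := by
              rw [lintegral_mul_const]
              exact (hI.comp measurable_prodMk_right).mul hK
          _ ≤ V * H y := by
              gcongr
              exact hin y
    _ = ∫⁻ y, H y := by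
        rw [lintegral_const_mul' _ _ hVt, ← mul_assoc, ENNReal.inv_mul_cancel hV0 hVt, one_mul]

theorem schur_slice {r : ℝ} (hr : 0 < r) {b : Vec d → Vec d} (hb : Measurable b) {B : Set (Vec d)}
    {F : Vec d × ℝ → ℝ≥0∞} (hF : Measurable F) (t : ℝ) :
    ∫⁻ v in B, moll r F (b v + t • v, t) ^ 2 * (JJ r b B (b v + t • v) t)⁻¹
      ≤ ∫⁻ y, F (y, t) ^ 2 := by
  have hs : Measurable (fun v : Vec d => b v + t • v) := hb.add (measurable_id.const_smul t)
  exact swap_abs (vol_pos (d := d) hr).ne' (vol_lt_top (d := d) (r := r)).ne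
    (I := fun v y => ind r (y - (b v + t • v)))
    (measurable_ind_comp (measurable_snd.sub (hs.comp measurable_fst)))
    (K := fun v => (JJ r b B (b v + t • v) t)⁻¹)
    (measurable_JJ_comp hb B hs measurable_const).inv
    (fun v => ENNReal.inv_ne_top.2 (lt_of_lt_of_le one_pos one_le_JJ).ne')
    (H := fun y => F (y, t) ^ 2) ((hF.comp measurable_prodMk_right).pow_const 2)
    (M := fun v => moll r F (b v + t • v, t) ^ 2)
    (fun v => moll_sq_le hr hF (b v + t • v) t) (fun y => inner_le hr hb B y t)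

theorem schur {r : ℝ} (hr : 0 < r) {b : Vec d → Vec d} (hb : Measurable b) {B : Set (Vec d)}
    (hB : MeasurableSet B) (hBt : volume B ≠ ∞) {T : Set ℝ} (hT : MeasurableSet T)
    {ω : Vec d → ℝ≥0∞}
    (hω : ∀ v ∈ B, ω v * ∫⁻ t in T, JJ r b B (b v + t • v) t ≤ 1)
    {F : Vec d × ℝ → ℝ≥0∞} (hF : Measurable F) (hFT : ∀ y t, t ∉ T → F (y, t) = 0) :
    ∫⁻ v in B, ω v * (⨆ h : ℝ, (∫⁻ t in Icc h (h+3), moll r F (b v + t • v, t)) ^ 2)
      ≤ ∫⁻ q, F q ^ 2 := by
  have hs1 : Measurable (fun q : Vec d × ℝ => b q.1 + q.2 • q.1) :=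
    (hb.comp measurable_fst).add (measurable_snd.smul measurable_fst)
  have hGm : Measurable (fun q : Vec d × ℝ => moll r F (b q.1 + q.2 • q.1, q.2)) :=
    measurable_moll_comp hF hs1 measurable_snd
  have hJm : Measurable (fun q : Vec d × ℝ => JJ r b B (b q.1 + q.2 • q.1) q.2) :=
    measurable_JJ_comp hb B hs1 measurable_snd
  have hpt : ∀ v ∈ B, ω v * (⨆ h : ℝ, (∫⁻ t in Icc h (h+3), moll r F (b v + t • v, t)) ^ 2)
      ≤ ∫⁻ t, moll r F (b v + t • v, t) ^ 2 * (JJ r b B (b v + t • v) t)⁻¹ := by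
    intro v hv
    rw [ENNReal.mul_iSup]
    apply iSup_le
    intro h
    exact schur_line hT (G := fun t => moll r F (b v + t • v, t))
      (J := fun t => JJ r b B (b v + t • v) t) (hGm.comp measurable_prodMk_left)
      (hJm.comp measurable_prodMk_left) (fun t => (lt_of_lt_of_le one_pos one_le_JJ).ne')
      (fun t => JJ_ne_top hr hBt) (fun t ht => moll_zero (fun y => hFT y t ht) _) (hω v hv) h
  have hF2 : Measurable (fun q => F q ^ 2) := hF.pow_const 2
  refine (setLIntegral_mono' hB hpt).trans ?_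
  rw [lintegral_lintegral_swap ((hGm.pow_const 2).mul hJm.inv).aemeasurable]
  rw [Measure.volume_eq_prod, lintegral_prod_symm _ hF2.aemeasurable]
  exact lintegral_mono (fun t => schur_slice hr hb hF t)

end Pool.Agent.H805R3.Kk.Gen
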