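import Pool.Agent.H805R3.Kk.Main

set_option autoImplicit false

/-!
Two classes of section-monotone families: families that are monotone with respect to a symplectic
form, and continuous families of pairwise disjoint lines in `ℝ³`.
-/

open MeasureTheory Set Filter Topology ENNReal NNReal Metric

namespace Pool.Agent.H805R3.Kk

open Pool.Agent.H803R2.Kak Pool.Agent.H803R2.KakFTO

theorem sectionMonotone_of_symplectic {d : ℕ} {K : Vec d →L[ℝ] Vec d} {B : Set (Vec d)}
    {b : Vec d → Vec d} (hK : K.det ≠ 0) (hanti : ∀ v, inner ℝ (K v) v = 0)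
    (hm : ∀ v ∈ B, ∀ w ∈ B, 0 ≤ inner ℝ (K (b v - b w)) (v - w)) : SectionMonotone univ B b := by
  apply Eventually.of_forall
  intro t _
  refine ⟨K, hK, ?_⟩
  intro v hv w hw
  have e : (b v + t • v) - (b w + t • w) = (b v - b w) + t • (v - w) := by
    rw [smul_sub]; abel
  rw [e, map_add, map_smul, inner_add_left, real_inner_smul_left, hanti, mul_zero, add_zero]
  exact hm v hv w hw

theorem sectionMonotone_of_mono {d : ℕ} {K : Vec d →L[ℝ] Vec d} {B : Set (Vec d)}
    {b : Vec d → Vec d} (hK : K.det ≠ 0) (hpos : ∀ v, 0 ≤ inner ℝ (K v) v)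
    (hm : ∀ v ∈ B, ∀ w ∈ B, 0 ≤ inner ℝ (K (b v - b w)) (v - w)) : SectionMonotone (Ici 0) B b := by
  apply Eventually.of_forall
  intro t ht
  refine ⟨K, hK, ?_⟩
  intro v hv w hw
  have e : (b v + t • v) - (b w + t • w) = (b v - b w) + t • (v - w) := by
    rw [smul_sub]; abel
  rw [e, map_add, map_smul, inner_add_left, real_inner_smul_left]
  exact add_nonneg (hm v hv w hw) (mul_nonneg ht (hpos _))

/-- rotation by a right angle -/
noncomputable def J : Vec 2 →L[ℝ] Vec 2 :=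
  LinearMap.toContinuousLinearMap (Matrix.toEuclideanLin !![0, -1; 1, 0])

theorem J_apply (x : Vec 2) : J x = WithLp.toLp 2 ![- x 1, x 0] := by
  simp only [J, LinearMap.coe_toContinuousLinearMap', Matrix.toEuclideanLin, LinearEquiv.trans_apply]
  ext i
  fin_cases i <;> simp [Matrix.toLpLin, Matrix.mulVec, dotProduct, Fin.sum_univ_two]

theorem inner_J (x y : Vec 2) : inner ℝ (J x) y = - x 1 * y 0 + x 0 * y 1 := by
  rw [J_apply, PiLp.inner_apply, Fin.sum_univ_two]
  simp
  ring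

theorem det_J : J.det = 1 := by
  rw [J, ContinuousLinearMap.det]
  simp only [LinearMap.coe_toContinuousLinearMap]
  rw [Matrix.toEuclideanLin]
  simp [Matrix.det_fin_two]

theorem norm_sq_two (x : Vec 2) : ‖x‖ ^ 2 = x 0 ^ 2 + x 1 ^ 2 := by
  rw [EuclideanSpace.norm_sq_eq, Fin.sum_univ_two]
  simp

theorem ne_zero_of_disjoint {b : Vec 2 → Vec 2} {v w : Vec 2} (hvw : v ≠ w)
    (h : ∀ t : ℝ, b v + t • v ≠ b w + t • w) : inner ℝ (J (b v - b w)) (v - w) ≠ 0 := by
  intro h0
  set p := b v - b w with hp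
  set k := v - w with hk
  rw [inner_J] at h0
  have hk0 : 0 < ‖k‖ ^ 2 := by
    have : k ≠ 0 := sub_ne_zero.2 hvw
    positivity
  rw [norm_sq_two] at hk0
  set c : ℝ := (p 0 * k 0 + p 1 * k 1) / (k 0 ^ 2 + k 1 ^ 2) with hc
  have h1 : p = c • k := by
    ext i
    fin_cases i
    · simp only [Fin.zero_eta, PiLp.smul_apply, smul_eq_mul, hc]
      field_simp
      linear_combination (k 1) * h0
    · simp only [Fin.mk_one, PiLp.smul_apply, smul_eq_mul, hc]
      field_simp
      linear_combination -(k 0) * h0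
  apply h (-c)
  have h2 : b v - b w - c • (v - w) = 0 := by rw [← hp, ← hk, h1, sub_self]
  have h3 : (b v + (-c) • v) - (b w + (-c) • w) = b v - b w - c • (v - w) := by
    rw [smul_sub, neg_smul, neg_smul]; abel
  rw [h2] at h3
  exact sub_eq_zero.1 h3

theorem isPreconnected_ball_diff (w : Vec 2) (hw : w ∈ ball (0 : Vec 2) 1) :
    IsPreconnected (ball (0 : Vec 2) 1 \ {w}) := by
  have hrank : 1 < Module.rank ℝ (Vec 2) := by
    apply Module.one_lt_rank_of_one_lt_finrank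
    simp
  set p : Vec 2 := Homeomorph.unitBall.symm ⟨w, hw⟩ with hp
  have h1 : IsPreconnected ({p}ᶜ : Set (Vec 2)) :=
    (isConnected_compl_singleton_of_one_lt_rank hrank p).isPreconnected
  have h2 : (fun x : Vec 2 => ((Homeomorph.unitBall x : ball (0 : Vec 2) 1) : Vec 2)) '' {p}ᶜ
      = ball (0 : Vec 2) 1 \ {w} := by
    ext v
    constructor
    · rintro ⟨x, hx, rfl⟩
      refine ⟨(Homeomorph.unitBall x : ball (0 : Vec 2) 1).2, ?_⟩
      intro h
      apply hx
      have h3 : (Homeomorph.unitBall x : ball (0 : Vec 2) 1) = ⟨w, hw⟩ := Subtype.ext h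
      rw [mem_singleton_iff, hp, ← h3, Homeomorph.symm_apply_apply]
    · rintro ⟨hv, hvw⟩
      refine ⟨Homeomorph.unitBall.symm ⟨v, hv⟩, ?_, ?_⟩
      · intro h
        apply hvw
        rw [mem_singleton_iff, hp] at h
        have h3 := Homeomorph.unitBall.symm.injective h
        exact congrArg Subtype.val h3
      · simp
  rw [← h2]
  exact h1.image _ (continuous_subtype_val.comp Homeomorph.unitBall.continuous).continuousOn

/-- **Continuous families of pairwise disjoint lines** in `ℝ³` are section-monotone. -/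
theorem sectionMonotone_of_disjoint {b : Vec 2 → Vec 2} (hb : ContinuousOn b (ball 0 1))
    (h : ∀ v ∈ ball (0 : Vec 2) 1, ∀ w ∈ ball (0 : Vec 2) 1, v ≠ w →
      ∀ t : ℝ, b v + t • v ≠ b w + t • w) : SectionMonotone univ (ball 0 1) b := by
  set g : Vec 2 → Vec 2 → ℝ := fun v w => inner ℝ (J (b v - b w)) (v - w) with hg
  have hne : ∀ v ∈ ball (0 : Vec 2) 1, ∀ w ∈ ball (0 : Vec 2) 1, v ≠ w → g v w ≠ 0 :=
    fun v hv w hw hvw => ne_zero_of_disjoint hvw (h v hv w hw hvw)
  have hsymm : ∀ v w, g v w = g w v := by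
    intro v w
    simp only [hg]
    rw [← neg_sub (b w), ← neg_sub w, map_neg, inner_neg_left, inner_neg_right, neg_neg]
  have hkey : ∀ w ∈ ball (0 : Vec 2) 1, ∀ v₁ ∈ ball (0 : Vec 2) 1, ∀ v₂ ∈ ball (0 : Vec 2) 1,
      v₁ ≠ w → v₂ ≠ w → 0 < g v₁ w → 0 < g v₂ w := by
    intro w hw v₁ hv₁ v₂ hv₂ h1 h2 hpos
    by_contra hcon
    rw [not_lt] at hcon
    have hcont : ContinuousOn (fun v => g v w) (ball (0 : Vec 2) 1 \ {w}) := by
      have hb' : ContinuousOn b (ball (0 : Vec 2) 1 \ {w}) := hb.mono sdiff_subset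
      simp only [hg]
      apply ContinuousOn.inner
      · exact J.continuous.comp_continuousOn (hb'.sub continuousOn_const)
      · exact continuousOn_id.sub continuousOn_const
    obtain ⟨u, hu, hu0⟩ := (isPreconnected_ball_diff w hw).intermediate_value
      (⟨hv₂, h2⟩ : v₂ ∈ ball (0 : Vec 2) 1 \ {w}) (⟨hv₁, h1⟩ : v₁ ∈ ball (0 : Vec 2) 1 \ {w})
      hcont (⟨hcon, hpos.le⟩ : (0:ℝ) ∈ Icc (g v₂ w) (g v₁ w))
    exact hne u hu.1 w hw hu.2 hu0
  have hkey2 : ∀ v₁ ∈ ball (0 : Vec 2) 1, ∀ w₁ ∈ ball (0 : Vec 2) 1, ∀ v₂ ∈ ball (0 : Vec 2) 1,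
      ∀ w₂ ∈ ball (0 : Vec 2) 1, v₁ ≠ w₁ → v₂ ≠ w₂ → 0 < g v₁ w₁ → 0 < g v₂ w₂ := by
    intro v₁ hv₁ w₁ hw₁ v₂ hv₂ w₂ hw₂ h1 h2 hpos
    by_cases h3 : v₂ = w₁
    · have h4 : w₂ ≠ w₁ := by rw [← h3]; exact h2.symm
      have h5 := hkey w₁ hw₁ v₁ hv₁ w₂ hw₂ h1 h4 hpos
      rw [h3, hsymm]
      exact h5
    · have h5 := hkey w₁ hw₁ v₁ hv₁ v₂ hv₂ h1 h3 hpos
      rw [hsymm] at h5
      have h6 := hkey v₂ hv₂ w₁ hw₁ w₂ hw₂ (Ne.symm h3) h2.symm h5
      rw [hsymm]
      exact h6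
  by_cases hex : ∃ v ∈ ball (0 : Vec 2) 1, ∃ w ∈ ball (0 : Vec 2) 1, v ≠ w ∧ 0 < g v w
  · obtain ⟨v₁, hv₁, w₁, hw₁, hvw, hpos⟩ := hex
    refine sectionMonotone_of_symplectic (K := J) (by rw [det_J]; norm_num) ?_ ?_
    · intro v
      rw [inner_J]; ring
    · intro v hv w hw
      by_cases h2 : v = w
      · rw [h2]; simp
      · exact (hkey2 v₁ hv₁ w₁ hw₁ v hv w hw hvw h2 hpos).le
  · push Not at hex
    refine sectionMonotone_of_symplectic (K := -J) ?_ ?_ ?_
    · have : (-J).det = 1 := by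
        have e : (-J) = (-1 : ℝ) • J := (neg_one_smul ℝ J).symm
        rw [e]
        simp only [ContinuousLinearMap.det, ContinuousLinearMap.toLinearMap_smul, LinearMap.det_smul,
          finrank_euclideanSpace_fin]
        have := det_J
        rw [ContinuousLinearMap.det] at this
        rw [this]
        norm_num
      rw [this]; norm_num
    · intro v
      rw [neg_apply, inner_neg_left, inner_J]; ring
    · intro v hv w hw
      by_cases h2 : v = w
      · rw [h2]; simp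
      · rw [neg_apply, inner_neg_left]
        linarith [hex v hv w hw h2]

end Pool.Agent.H805R3.Kk
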